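import Mathlib
import Pool.Agent.H336R4.PF.Defs

/-!
# TASK PF-V : factorisation into primitive elements and the contradiction
-/

set_option autoImplicit false

namespace Pool.Agent.H177R3.PFV

open Pool.Agent.H336R4.PF
open Filter Topology LSeries


lemma ram_summable {a : ℕ → ℂ} (h : Ram a) {s : ℂ} (hs : 1 < s.re) : LSeriesSummable a s := by
  obtain ⟨C, hC⟩ := h ((s.re - 1) / 2) (by linarith)
  have h1 : abscissaOfAbsConv a ≤ (((s.re - 1) / 2 : ℝ) : EReal) + 1 :=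
    abscissaOfAbsConv_le_of_le_const_mul_rpow ⟨C, fun n hn => hC n (Nat.one_le_iff_ne_zero.2 hn)⟩
  refine LSeriesSummable_of_abscissaOfAbsConv_lt_re (lt_of_le_of_lt h1 ?_)
  have h2 : (((s.re - 1) / 2 : ℝ) : EReal) + 1 = (((s.re - 1) / 2 + 1 : ℝ) : EReal) := by
    push_cast; rfl
  rw [h2]
  exact EReal.coe_lt_coe_iff.2 (by linarith)

lemma ram_lt_top {a : ℕ → ℂ} (h : Ram a) : abscissaOfAbsConv a < ⊤ := by
  have h1 : LSeriesSummable a (2 : ℂ) := ram_summable h (by norm_num)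
  refine lt_of_le_of_lt h1.abscissaOfAbsConv_le ?_
  exact EReal.coe_lt_top _

/-- coefficients of a product at a prime -/
lemma coeff_prime {a f g : ℕ → ℂ} (ha : Ram a) (hf : Ram f) (hg : Ram g) (hf1 : f 1 = 1)
    (hg1 : g 1 = 1) (h : ∀ s : ℂ, 1 < s.re → LSeries a s = LSeries f s * LSeries g s)
    {p : ℕ} (hp : p.Prime) : a p = f p + g p := by
  have hconv : abscissaOfAbsConv (LSeries.convolution f g) < ⊤ := by
    have h1 : LSeriesSummable (LSeries.convolution f g) (2 : ℂ) :=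
      (ram_summable hf (by norm_num)).convolution (ram_summable hg (by norm_num))
    exact lt_of_le_of_lt h1.abscissaOfAbsConv_le (EReal.coe_lt_top _)
  have h2 : a p = (LSeries.convolution f g) p := by
    refine LSeries.eq_of_LSeries_eventually_eq (ram_lt_top ha) hconv ?_ hp.ne_zero
    filter_upwards [eventually_gt_atTop (1 : ℝ)] with x hx
    have hx' : 1 < (x : ℂ).re := by simpa using hx
    rw [LSeries_convolution' (ram_summable hf hx') (ram_summable hg hx'), h _ hx']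
  rw [h2, LSeries.convolution_def]
  change ∑ q ∈ p.divisorsAntidiagonal, f q.1 * g q.2 = _
  rw [Nat.sum_divisorsAntidiagonal (fun x y => f x * g y), hp.sum_divisors]
  simp only [Nat.div_self hp.pos, Nat.div_one, hf1, hg1, one_mul, mul_one]

lemma ss_cls {a : ℕ → ℂ} (h : SS a) : ∃ d, Cls a d := by
  obtain ⟨h1, h2, ⟨m, G, hG1, hG2, hG3, Q, hQ, k, lam, μ, ω, h4, h5, h6, h7⟩, h8⟩ := h
  exact ⟨2 * ∑ j, lam j, h1, h2, ⟨m, G, ⟨hG1, hG2, hG3⟩, Q, k, lam, μ, ω, hQ, ⟨h4, h5, h6, h7⟩, rfl⟩,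
    h8⟩

lemma cls_ss {a : ℕ → ℂ} {d : ℝ} (h : Cls a d) : SS a := by
  obtain ⟨h1, h2, ⟨m, G, ⟨hG1, hG2, hG3⟩, Q, k, lam, μ, ω, hQ, ⟨h4, h5, h6, h7⟩, -⟩, h8⟩ := h
  exact ⟨h1, h2, ⟨m, G, hG1, hG2, hG3, Q, hQ, k, lam, μ, ω, h4, h5, h6, h7⟩, h8⟩

/-- factorisation into primitive elements -/
theorem factor (hGap : DegGap) (hAdd : DegAdd) : ∀ (n : ℕ) (a : ℕ → ℂ) (d : ℝ), Cls a d → NT a →
    d < n + 1 → ∃ l : List (ℕ → ℂ), l ≠ [] ∧ (∀ f ∈ l, Prim f) ∧
      ∀ p : ℕ, p.Prime → a p = (l.map (fun f => f p)).sum := by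
  have hone : ∀ (a : ℕ → ℂ) (d : ℝ), Cls a d → NT a → 1 ≤ d := by
    intro a d ha hnt
    by_contra hd
    obtain ⟨n, hn, hne⟩ := hnt
    exact hne (hGap a d ha (not_le.1 hd) n hn)
  intro n
  induction n with
  | zero =>
    intro a d ha hnt hd
    have := hone a d ha hnt
    norm_num at hd
    linarith
  | succ n ih =>
    intro a d ha hnt hd
    by_cases hP : Prim a
    · exact ⟨[a], by simp, by simpa using hP, fun p _ => by simp⟩
    · have hSS := cls_ss ha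
      have : ∃ f g : ℕ → ℂ, SS f ∧ SS g ∧
          (∀ s : ℂ, 1 < s.re → LSeries a s = LSeries f s * LSeries g s) ∧ NT f ∧ NT g := by
        by_contra hno
        apply hP
        refine ⟨hSS, hnt, fun f g hf hg hfg => ?_⟩
        by_contra hcon
        rw [not_or] at hcon
        obtain ⟨h1, h2⟩ := hcon
        push Not at h1 h2
        exact hno ⟨f, g, hf, hg, hfg, h1, h2⟩
      obtain ⟨f, g, hf, hg, hfg, hfn, hgn⟩ := this
      obtain ⟨d₁, hd₁⟩ := ss_cls hf
      obtain ⟨d₂, hd₂⟩ := ss_cls hg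
      have hadd := hAdd a f g d d₁ d₂ ha hd₁ hd₂ hfg
      have h1 := hone f d₁ hd₁ hfn
      have h2 := hone g d₂ hd₂ hgn
      push_cast at hd
      obtain ⟨l₁, hl₁, hp₁, hs₁⟩ := ih f d₁ hd₁ hfn (by linarith)
      obtain ⟨l₂, hl₂, hp₂, hs₂⟩ := ih g d₂ hd₂ hgn (by linarith)
      refine ⟨l₁ ++ l₂, by simp [hl₁], ?_, ?_⟩
      · intro u hu
        rcases List.mem_append.1 hu with h | h
        · exact hp₁ u h
        · exact hp₂ u h
      · intro p hp
        rw [List.map_append, List.sum_append, ← hs₁ p hp, ← hs₂ p hp]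
        exact coeff_prime ha.2.1 hd₁.2.1 hd₂.2.1 hd₁.1 hd₂.1 hfg hp

/-- the correlation -/
noncomputable def Bc (f g : ℕ → ℂ) (N : ℕ) : ℝ :=
  ∑ p ∈ (Finset.Iic N).filter Nat.Prime, (f p * starRingEnd ℂ (g p)).re / (p : ℝ)

lemma Bc_eq (f g : ℕ → ℂ) (N : ℕ) :
    Bc f g N = (∑ p ∈ (Finset.Iic N).filter Nat.Prime, f p * starRingEnd ℂ (g p) / (p : ℂ)).re := by
  unfold Bc
  rw [Complex.re_sum]
  refine Finset.sum_congr rfl fun p _ => ?_
  have : (p : ℂ) = ((p : ℝ) : ℂ) := by simp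
  rw [this, Complex.div_ofReal_re]

lemma Bc_self_nonneg (f : ℕ → ℂ) (N : ℕ) : 0 ≤ Bc f f N := by
  refine Finset.sum_nonneg fun p _ => ?_
  rw [Complex.mul_conj, Complex.ofReal_re]
  exact div_nonneg (Complex.normSq_nonneg _) (Nat.cast_nonneg _)

lemma Bc_self (f : ℕ → ℂ) (N : ℕ) :
    Bc f f N = ∑ p ∈ (Finset.Iic N).filter Nat.Prime, ‖f p‖ ^ 2 / (p : ℝ) := by
  unfold Bc
  refine Finset.sum_congr rfl fun p _ => ?_
  rw [Complex.mul_conj, Complex.ofReal_re, Complex.normSq_eq_norm_sq]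

lemma Bc_congr {f g f' g' : ℕ → ℂ} (hf : ∀ p : ℕ, p.Prime → f p = f' p)
    (hg : ∀ p : ℕ, p.Prime → g p = g' p) (N : ℕ) : Bc f g N = Bc f' g' N := by
  unfold Bc
  refine Finset.sum_congr rfl fun p hp => ?_
  have := (Finset.mem_filter.1 hp).2
  rw [hf p this, hg p this]

lemma Bc_add_right (f g h : ℕ → ℂ) (N : ℕ) :
    Bc f (fun n => g n + h n) N = Bc f g N + Bc f h N := by
  unfold Bc
  rw [← Finset.sum_add_distrib]
  refine Finset.sum_congr rfl fun p _ => ?_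
  rw [map_add, mul_add, Complex.add_re, add_div]

lemma Bc_zero_right (f : ℕ → ℂ) (N : ℕ) : Bc f (fun _ => 0) N = 0 := by
  simp [Bc]

lemma Bc_comm (f g : ℕ → ℂ) (N : ℕ) : Bc f g N = Bc g f N := by
  unfold Bc
  refine Finset.sum_congr rfl fun p _ => ?_
  congr 1
  simp only [Complex.mul_re, Complex.conj_re, Complex.conj_im]
  ring

lemma Bc_list {f : ℕ → ℂ} (l : List (ℕ → ℂ))
    (h : ∀ g ∈ l, ∃ C : ℝ, ∀ N : ℕ, 3 ≤ N → -C ≤ Bc f g N) :
    ∃ C : ℝ, ∀ N : ℕ, 3 ≤ N → -C ≤ Bc f (fun n => (l.map (fun g => g n)).sum) N := by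
  induction l with
  | nil =>
    refine ⟨0, fun N _ => ?_⟩
    simp only [List.map_nil, List.sum_nil]
    rw [Bc_zero_right]
    simp
  | cons g l ih =>
    obtain ⟨C₁, h₁⟩ := h g List.mem_cons_self
    obtain ⟨C₂, h₂⟩ := ih (fun g' hg' => h g' (List.mem_cons_of_mem _ hg'))
    refine ⟨C₁ + C₂, fun N hN => ?_⟩
    simp only [List.map_cons, List.sum_cons]
    rw [Bc_add_right]
    have := h₁ N hN
    have := h₂ N hN
    linarith

/-- TASK V -/
theorem taskV : TaskV := by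
  intro hGap hAdd hElt hStm
  obtain ⟨a, haS, hnt, C, hC⟩ := hElt
  obtain ⟨h1, h2⟩ := hStm SS (fun a => Iff.rfl) Prim (fun a => Iff.rfl)
  obtain ⟨d, hd⟩ := ss_cls haS
  obtain ⟨l, hl, hlP, hsum⟩ := factor hGap hAdd (⌈d⌉₊) a d hd hnt
    (lt_of_le_of_lt (Nat.le_ceil d) (by linarith))
  -- correlations of primitive elements
  have hcor : ∀ f g : ℕ → ℂ, Prim f → Prim g → ∃ C : ℝ, ∀ N : ℕ, 3 ≤ N → -C ≤ Bc f g N := by
    intro f g hf hg
    by_cases hne : ∃ n : ℕ, 1 ≤ n ∧ f n ≠ g n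
    · obtain ⟨C, hC⟩ := h2 f g hf hg hne
      refine ⟨C, fun N _ => ?_⟩
      rw [Bc_eq]
      have h3 := Complex.abs_re_le_norm
        (∑ p ∈ (Finset.Iic N).filter Nat.Prime, f p * starRingEnd ℂ (g p) / (p : ℂ))
      have h4 := hC N
      exact neg_le_of_abs_le (h3.trans h4)
    · push Not at hne
      refine ⟨0, fun N _ => ?_⟩
      rw [Bc_congr (f' := f) (g' := f) (fun _ _ => rfl) (fun p hp => (hne p hp.one_le).symm)]
      simpa using Bc_self_nonneg f N
  cases l with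
  | nil => exact hl rfl
  | cons f l =>
    have hf : Prim f := hlP f List.mem_cons_self
    obtain ⟨C₁, hC₁⟩ := h1 f hf
    obtain ⟨C₂, hC₂⟩ := Bc_list (f := f) l
      (fun g hg => hcor f g hf (hlP g (List.mem_cons_of_mem _ hg)))
    set t : ℕ → ℂ := fun n => (l.map (fun g => g n)).sum with ht
    -- the lower bound
    have hlow : ∀ N : ℕ, 3 ≤ N → Real.log (Real.log N) ≤ C + C₁ + 2 * C₂ := by
      intro N hN
      have e1 : Bc a a N = Bc (fun n => f n + t n) (fun n => f n + t n) N := by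
        apply Bc_congr
        · intro p hp
          rw [hsum p hp, List.map_cons, List.sum_cons]
        · intro p hp
          rw [hsum p hp, List.map_cons, List.sum_cons]
      rw [Bc_add_right, Bc_comm _ f, Bc_comm _ t, Bc_add_right, Bc_add_right, Bc_comm t f] at e1
      have e2 := Bc_self a N
      have e3 := hC N
      have e4 := Bc_self_nonneg t N
      have e5 := hC₂ N hN
      have e6 := hC₁ N hN
      rw [← Bc_self] at e6
      have e7 := neg_le_of_abs_le e6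
      linarith
    have htend : Tendsto (fun N : ℕ => Real.log (Real.log (N : ℝ))) atTop atTop :=
      Real.tendsto_log_atTop.comp (Real.tendsto_log_atTop.comp tendsto_natCast_atTop_atTop)
    obtain ⟨N, hN1, hN2⟩ := ((htend.eventually_gt_atTop (C + C₁ + 2 * C₂)).and
      (eventually_ge_atTop 3)).exists
    exact absurd (hlow N hN2) (not_le.2 hN1)

end Pool.Agent.H177R3.PFV
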