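import Mathlib
import Pool.Agent.H336R4.PF.Final
import Pool.Agent.H180R3.PFT3

/-!
# The Selberg class as in MP_8e9775_nt, and equivalence with the class `SS` of the project
-/

set_option autoImplicit false

namespace Pool.Agent.H177R3.Lit

open Pool.Agent.H336R4.PF
open Filter Topology LSeries

/-- the completed function: `G` is the entire function `(s - 1) ^ m F(s)`. -/
noncomputable def Phi (m : ℕ) (G : ℂ → ℂ) (Q : ℝ) (r : ℕ) (lam : Fin r → ℝ) (μ : Fin r → ℂ) (s : ℂ) : ℂ :=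
  (Q : ℂ) ^ s * (∏ j, Complex.Gamma ((lam j : ℂ) * s + μ j)) * (G s / (s - 1) ^ m)

/-- `s` is not a pole of `Γ(λ_j s + μ_j)` for any `j`. -/
def NoPole (r : ℕ) (lam : Fin r → ℝ) (μ : Fin r → ℂ) (s : ℂ) : Prop :=
  ∀ j, ∀ t : ℕ, (lam j : ℂ) * s + μ j ≠ -(t : ℂ)

/-- The Selberg class: `InS a` says that `F(s) = ∑ a(n) n^{-s}` belongs to it. -/
structure InS (a : ℕ → ℂ) : Prop where
  one : a 1 = 1
  conv : ∀ s : ℂ, 1 < s.re → LSeriesSummable a s
  cont : ∃ (m : ℕ) (G : ℂ → ℂ), Differentiable ℂ G ∧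
    (∃ A B : ℝ, ∀ z : ℂ, ‖G z‖ ≤ A * Real.exp (‖z‖ ^ B)) ∧
    (∀ s : ℂ, 1 < s.re → G s = (s - 1) ^ m * LSeries a s) ∧
    ∃ (Q : ℝ) (r : ℕ) (lam : Fin r → ℝ) (μ : Fin r → ℂ) (ε : ℂ), 0 < Q ∧ (∀ j, 0 < lam j) ∧
      (∀ j, 0 ≤ (μ j).re) ∧ ‖ε‖ = 1 ∧
      ∀ s : ℂ, s ≠ 0 → s ≠ 1 → NoPole r lam μ s → NoPole r lam μ (1 - starRingEnd ℂ s) →
        Phi m G Q r lam μ s = ε * starRingEnd ℂ (Phi m G Q r lam μ (1 - starRingEnd ℂ s))
  ram : ∀ ε : ℝ, 0 < ε → ∃ C : ℝ, ∀ n : ℕ, 1 ≤ n → ‖a n‖ ≤ C * (n : ℝ) ^ ε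
  euler : ∃ (b : ℕ → ℂ) (θ C : ℝ), θ < 1 / 2 ∧
    (∀ p l : ℕ, p.Prime → 1 ≤ l → ‖b (p ^ l)‖ ≤ C * ((p ^ l : ℕ) : ℝ) ^ θ) ∧
    ∀ s : ℂ, 1 < s.re → HasProd (fun p : Nat.Primes =>
      Complex.exp (∑' l : ℕ, b ((p : ℕ) ^ (l + 1)) * ((p : ℕ) : ℂ) ^ (-(((l + 1 : ℕ) : ℂ) * s))))
      (LSeries a s)

/-! ### the Euler product -/

lemma log_deriv_coeff' {a b : ℕ → ℂ} (ha : abscissaOfAbsConv a ≤ (1 : ℝ)) {θ C : ℝ} (hθ : θ < 1 / 2)
    (hb : ∀ n : ℕ, 1 ≤ n → ‖b n‖ ≤ C * (n : ℝ) ^ θ)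
    (hexp : ∀ s : ℂ, 2 < s.re → LSeries a s = Complex.exp (LSeries b s)) {n : ℕ} (hn : n ≠ 0) :
    logMul a n = (LSeries.convolution a (logMul b)) n := by
  have hbabs := Pool.Agent.H180R3.PFT.absc_b hb
  have hb2 : abscissaOfAbsConv b < (2 : ℝ) :=
    hbabs.trans_lt (by exact_mod_cast (by linarith : θ + 1 < 2))
  have ha2 : abscissaOfAbsConv a < (2 : ℝ) := ha.trans_lt (by exact_mod_cast (by norm_num : (1:ℝ) < 2))
  have hla : abscissaOfAbsConv (logMul a) < (2 : ℝ) := by rw [abscissaOfAbsConv_logMul]; exact ha2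
  have hlb : abscissaOfAbsConv (logMul b) < (2 : ℝ) := by rw [abscissaOfAbsConv_logMul]; exact hb2
  have hconv : abscissaOfAbsConv (LSeries.convolution a (logMul b)) < ⊤ := by
    refine (LSeriesSummable.convolution (s := (2:ℝ))
      (LSeriesSummable_of_abscissaOfAbsConv_lt_re (by simpa using ha2))
      (LSeriesSummable_of_abscissaOfAbsConv_lt_re (by simpa using hlb))).abscissaOfAbsConv_le.trans_lt
      (EReal.coe_lt_top _)
  refine LSeries.eq_of_LSeries_eventually_eq (hla.trans (EReal.coe_lt_top _)) hconv ?_ hn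
  filter_upwards [eventually_gt_atTop (2:ℝ)] with x hx
  have hxa : abscissaOfAbsConv a < ((x:ℂ)).re := by
    rw [Complex.ofReal_re]; exact ha2.trans (by exact_mod_cast hx)
  have hxb : abscissaOfAbsConv b < ((x:ℂ)).re := by
    rw [Complex.ofReal_re]; exact hb2.trans (by exact_mod_cast hx)
  have h1 := LSeries_hasDerivAt hxa
  have h2 := (LSeries_hasDerivAt hxb).cexp
  have h3 : LSeries a =ᶠ[𝓝 (x:ℂ)] fun s => Complex.exp (LSeries b s) := by
    have : {s : ℂ | 2 < s.re} ∈ 𝓝 (x:ℂ) :=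
      (isOpen_lt continuous_const Complex.continuous_re).mem_nhds (by
        simp only [Set.mem_ofPred_eq, Complex.ofReal_re]; linarith)
    filter_upwards [this] with s hs
    exact hexp s hs
  have h4 := (h2.congr_of_eventuallyEq h3).unique h1
  have h5 : LSeries a x = Complex.exp (LSeries b x) := h3.eq_of_nhds
  rw [LSeries_convolution hxa (by rw [abscissaOfAbsConv_logMul]; exact hxb), h5]
  rw [mul_neg, neg_inj] at h4
  exact h4.symm

lemma absc_a {a : ℕ → ℂ} (h : Ram a) : abscissaOfAbsConv a ≤ (1 : ℝ) := by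
  refine abscissaOfAbsConv_le_of_forall_lt_LSeriesSummable fun y hy => ?_
  exact Pool.Agent.H177R3.PFV.ram_summable h (by simpa using hy)

/-- `b(p) = a(p)` -/
lemma b_prime {a b : ℕ → ℂ} (h1 : a 1 = 1) (hram : Ram a) (hb0 : ∀ n : ℕ, ¬ IsPrimePow n → b n = 0)
    {θ C : ℝ} (hθ : θ < 1 / 2) (hb : ∀ n : ℕ, 1 ≤ n → ‖b n‖ ≤ C * (n : ℝ) ^ θ)
    (hexp : ∀ s : ℂ, 2 < s.re → LSeries a s = Complex.exp (LSeries b s)) {p : ℕ} (hp : p.Prime) :
    b p = a p := by
  have key := log_deriv_coeff' (absc_a hram) hθ hb hexp hp.ne_zero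
  rw [convolution_def] at key
  change logMul a p = ∑ q ∈ p.divisorsAntidiagonal, a q.1 * logMul b q.2 at key
  rw [Nat.sum_divisorsAntidiagonal (fun x y => a x * logMul b y), hp.sum_divisors] at key
  simp only [Nat.div_self hp.pos, Nat.div_one, h1, one_mul, logMul, hb0 1 not_isPrimePow_one, mul_zero,
    zero_add] at key
  have hlog : Complex.log (p : ℂ) ≠ 0 := by
    rw [← Complex.natCast_log]
    exact_mod_cast (Real.log_pos (by exact_mod_cast hp.one_lt)).ne'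
  exact (mul_left_cancel₀ hlog key).symm

/-- summability over prime powers -/
lemma summ_pp {F : Nat.Primes × ℕ → ℝ} {e C : ℝ} {A : ℕ → ℝ} (he : 1 / 2 < e) (hF : ∀ x, 0 ≤ F x)
    (h0 : ∀ p : Nat.Primes, F (p, 0) ≤ A p) (hA : Summable A)
    (h1 : ∀ (p : Nat.Primes) (k : ℕ), F (p, k + 1) ≤ C * (((p : ℕ) ^ (k + 2) : ℕ) : ℝ) ^ (-e)) :
    Summable F := by
  have hpos : ∀ p : Nat.Primes, (0:ℝ) < (p : ℕ) := fun p => by exact_mod_cast p.2.pos
  -- zero part
  have hs0 : Summable (fun p : Nat.Primes => F (p, 0)) :=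
    Summable.of_nonneg_of_le (fun p => hF _) h0 (hA.comp_injective (i := fun p : Nat.Primes => (p : ℕ))
      Subtype.val_injective)
  have hs1 : Summable (fun x : Nat.Primes × ℕ => F (x.1, x.2 + 1)) := by
    have hu : Summable (fun p : Nat.Primes => (((p : ℕ) : ℝ)) ^ (-(2 * e))) := by
      have : Summable (fun n : ℕ => ((n : ℕ) : ℝ) ^ (-(2 * e))) := Real.summable_nat_rpow.2 (by linarith)
      exact this.comp_injective (i := fun p : Nat.Primes => (p : ℕ)) Subtype.val_injective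
    have hr1 : (2:ℝ) ^ (-e) < 1 := Real.rpow_lt_one_of_one_lt_of_neg (by norm_num) (by linarith)
    have hv : Summable (fun k : ℕ => ((2:ℝ) ^ (-e)) ^ k) :=
      summable_geometric_of_lt_one (by positivity) hr1
    have hC : 0 ≤ C := by
      have h2 := (hF _).trans (h1 ⟨2, Nat.prime_two⟩ 0)
      by_contra hneg
      push Not at hneg
      have h3 : 0 < ((((⟨2, Nat.prime_two⟩ : Nat.Primes) : ℕ) ^ (0 + 2) : ℕ) : ℝ) ^ (-e) := by
        apply Real.rpow_pos_of_pos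
        have : (0:ℝ) < ((2 ^ 2 : ℕ) : ℝ) := by norm_num
        simpa using this
      nlinarith
    have hm := (hu.mul_of_nonneg hv (fun p => by positivity) (fun k => by positivity)).mul_left C
    refine Summable.of_nonneg_of_le (fun x => hF _) (fun x => ?_) hm
    refine (h1 x.1 x.2).trans ?_
    refine mul_le_mul_of_nonneg_left ?_ hC
    have e1 : ((((x.1 : ℕ) ^ (x.2 + 2) : ℕ)) : ℝ) ^ (-e) =
        (((x.1 : ℕ) : ℝ)) ^ (-(2 * e)) * ((((x.1 : ℕ) : ℝ)) ^ (-e)) ^ x.2 := by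
      push_cast
      rw [← Real.rpow_natCast, ← Real.rpow_natCast, ← Real.rpow_mul (hpos _).le,
        ← Real.rpow_mul (hpos _).le, ← Real.rpow_add (hpos _)]
      congr 1
      push_cast
      ring
    rw [e1]
    refine mul_le_mul_of_nonneg_left ?_ (by positivity)
    refine pow_le_pow_left₀ (by positivity) ?_ _
    exact Real.rpow_le_rpow_of_nonpos (by norm_num) (by exact_mod_cast x.1.2.two_le) (by linarith)
  -- split
  have hinj0 : Function.Injective (fun p : Nat.Primes => ((p, 0) : Nat.Primes × ℕ)) := fun p q h => by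
    simpa using h
  have hinj1 : Function.Injective (fun x : Nat.Primes × ℕ => ((x.1, x.2 + 1) : Nat.Primes × ℕ)) := by
    rintro ⟨p, k⟩ ⟨q, l⟩ h
    simp only [Prod.mk.injEq, add_left_inj] at h
    simp [h.1, h.2]
  have hS0 : Summable (fun x : Nat.Primes × ℕ => if x.2 = 0 then F x else 0) := by
    rw [← hinj0.summable_iff] 
    · simpa [Function.comp_def] using hs0
    · rintro ⟨p, k⟩ hx
      by_cases hk : k = 0
      · exact absurd ⟨p, by simp [hk]⟩ hx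
      · simp [hk]
  have hS1 : Summable (fun x : Nat.Primes × ℕ => if x.2 = 0 then 0 else F x) := by
    rw [← hinj1.summable_iff]
    · simpa [Function.comp_def] using hs1
    · rintro ⟨p, k⟩ hx
      by_cases hk : k = 0
      · simp [hk]
      · exact absurd ⟨(p, k - 1), by simp [Nat.sub_add_cancel (Nat.one_le_iff_ne_zero.2 hk)]⟩ hx
  refine (hS0.add hS1).congr fun x => ?_
  by_cases hk : x.2 = 0 <;> simp [hk]

/-- absolute convergence of the logarithm -/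
lemma b_summable {a b : ℕ → ℂ} (h1 : a 1 = 1) (hram : Ram a) (hb0 : ∀ n : ℕ, ¬ IsPrimePow n → b n = 0)
    {θ C : ℝ} (hθ : θ < 1 / 2) (hb : ∀ n : ℕ, 1 ≤ n → ‖b n‖ ≤ C * (n : ℝ) ^ θ)
    (hexp : ∀ s : ℂ, 2 < s.re → LSeries a s = Complex.exp (LSeries b s)) {s : ℂ} (hs : 1 < s.re) :
    LSeriesSummable b s := by
  have hprime : ∀ p : ℕ, p.Prime → b p = a p := fun p hp => b_prime h1 hram hb0 hθ hb hexp hp
  have hA : Summable (fun n => ‖term a s n‖) := (Pool.Agent.H177R3.PFV.ram_summable hram hs).norm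
  have key : Summable (fun x : Nat.Primes × ℕ => ‖term b s ((x.1 : ℕ) ^ (x.2 + 1))‖) := by
    refine summ_pp (e := s.re - θ) (C := C) (A := fun n => ‖term a s n‖) (by linarith)
      (fun x => norm_nonneg _) (fun p => ?_) hA (fun p k => ?_)
    · simp only [zero_add, pow_one]
      rw [term_of_ne_zero p.2.ne_zero, term_of_ne_zero p.2.ne_zero, hprime p p.2]
    · have hne : (p : ℕ) ^ (k + 1 + 1) ≠ 0 := pow_ne_zero _ p.2.ne_zero
      have hpos : (0:ℝ) < (((p : ℕ) ^ (k + 1 + 1) : ℕ) : ℝ) := by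
        exact_mod_cast Nat.pos_of_ne_zero hne
      rw [norm_term_eq, if_neg hne]
      have h2 := hb _ (Nat.one_le_iff_ne_zero.2 hne)
      rw [div_le_iff₀ (Real.rpow_pos_of_pos hpos _)]
      refine h2.trans (le_of_eq ?_)
      rw [show k + 2 = k + 1 + 1 by ring, mul_assoc, ← Real.rpow_add hpos]
      congr 2
      ring
  have h3 : Summable (fun x : Nat.Primes × ℕ => term b s ((Nat.Primes.prodNatEquiv x : {n : ℕ // IsPrimePow n}) : ℕ)) := by
    refine Summable.of_norm ?_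
    refine key.congr fun x => ?_
    rw [Nat.Primes.prodNatEquiv_apply]
  have h4 : Summable (fun n : {n : ℕ // IsPrimePow n} => term b s (n : ℕ)) :=
    (Nat.Primes.prodNatEquiv.summable_iff (f := fun n : {n : ℕ // IsPrimePow n} => term b s (n : ℕ))).1 h3
  have h5 : Function.support (term b s) ⊆ {n : ℕ | IsPrimePow n} := by
    intro n hn
    by_contra hcon
    apply hn
    rcases eq_or_ne n 0 with rfl | hn0
    · simp
    · rw [term_of_ne_zero hn0, hb0 n hcon, zero_div]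
  exact ((hasSum_subtype_iff_of_support_subset h5).1 h4.hasSum).summable

private lemma hasSum_cf {ι : Type*} {f g : ι → ℂ} {S : ℂ} (h : HasSum f S) (hfg : ∀ x, f x = g x) :
    HasSum g S := by
  rwa [← (funext hfg : f = g)]

lemma hasProd_exp {b : ℕ → ℂ} (hb0 : ∀ n : ℕ, ¬ IsPrimePow n → b n = 0) {s : ℂ}
    (hs : LSeriesSummable b s) :
    HasProd (fun p : Nat.Primes =>
      Complex.exp (∑' l : ℕ, b ((p : ℕ) ^ (l + 1)) * ((p : ℕ) : ℂ) ^ (-(((l + 1 : ℕ) : ℂ) * s))))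
      (Complex.exp (LSeries b s)) := by
  have h0 : HasSum (term b s) (LSeries b s) := hs.LSeriesHasSum
  have h5 : Function.support (term b s) ⊆ {n : ℕ | IsPrimePow n} := by
    intro n hn
    by_contra hcon
    apply hn
    rcases eq_or_ne n 0 with rfl | hn0
    · simp
    · rw [term_of_ne_zero hn0, hb0 n hcon, zero_div]
  have h1 : HasSum (fun n : {n : ℕ // IsPrimePow n} => term b s (n : ℕ)) (LSeries b s) :=
    (hasSum_subtype_iff_of_support_subset h5).2 h0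
  have h2 : HasSum (fun x : Nat.Primes × ℕ =>
      term b s ((Nat.Primes.prodNatEquiv x : {n : ℕ // IsPrimePow n}) : ℕ)) (LSeries b s) :=
    (Nat.Primes.prodNatEquiv.hasSum_iff (f := fun n : {n : ℕ // IsPrimePow n} => term b s (n : ℕ))).2 h1
  have h3 : HasSum (fun x : Nat.Primes × ℕ =>
      b ((x.1 : ℕ) ^ (x.2 + 1)) * ((x.1 : ℕ) : ℂ) ^ (-(((x.2 + 1 : ℕ) : ℂ) * s))) (LSeries b s) := by
    refine hasSum_cf h2 fun x => ?_
    rw [Nat.Primes.prodNatEquiv_apply]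
    change term b s ((x.1 : ℕ) ^ (x.2 + 1)) = _
    rw [term_of_ne_zero (pow_ne_zero _ x.1.2.ne_zero), Complex.cpow_neg, div_eq_mul_inv,
      Complex.natCast_cpow_natCast_mul]
    push_cast
    rfl
  have h4 := h3.prod_fiberwise (fun p : Nat.Primes => (h3.summable.prod_factor p).hasSum)
  exact h4.cexp

theorem euler_iff {a : ℕ → ℂ} (h1 : a 1 = 1) (hram : Ram a) :
    Eul a ↔ ∃ (b : ℕ → ℂ) (θ C : ℝ), θ < 1 / 2 ∧
    (∀ p l : ℕ, p.Prime → 1 ≤ l → ‖b (p ^ l)‖ ≤ C * ((p ^ l : ℕ) : ℝ) ^ θ) ∧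
    ∀ s : ℂ, 1 < s.re → HasProd (fun p : Nat.Primes =>
      Complex.exp (∑' l : ℕ, b ((p : ℕ) ^ (l + 1)) * ((p : ℕ) : ℂ) ^ (-(((l + 1 : ℕ) : ℂ) * s))))
      (LSeries a s) := by
  constructor
  · rintro ⟨b, hb0, θ, hθ, C, hb, hexp⟩
    refine ⟨b, θ, C, hθ, fun p l hp hl => hb _ (Nat.one_le_iff_ne_zero.2 (pow_ne_zero _ hp.ne_zero)), ?_⟩
    intro s hs
    rw [hexp s hs]
    exact hasProd_exp hb0 (b_summable h1 hram hb0 hθ hb (fun s hs => hexp s (by linarith)) hs)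
  · rintro ⟨b, θ, C, hθ, hb, hprod⟩
    classical
    set b' : ℕ → ℂ := fun n => if IsPrimePow n then b n else 0 with hb'
    have hb0 : ∀ n : ℕ, ¬ IsPrimePow n → b' n = 0 := fun n hn => by simp [hb', hn]
    have hC : 0 ≤ C := by
      have h2 := hb 2 1 Nat.prime_two le_rfl
      by_contra hneg
      push Not at hneg
      have h3 : (0:ℝ) < ((2 ^ 1 : ℕ) : ℝ) ^ θ := by positivity
      have := norm_nonneg (b (2 ^ 1))
      nlinarith
    have hbb : ∀ n : ℕ, 1 ≤ n → ‖b' n‖ ≤ C * (n : ℝ) ^ θ := by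
      intro n hn
      by_cases hpp : IsPrimePow n
      · obtain ⟨p, k, hp, hk, rfl⟩ := (isPrimePow_nat_iff n).1 hpp
        simp only [hb', if_pos hpp]
        exact hb p k hp hk
      · rw [hb0 n hpp, norm_zero]
        positivity
    have heq : ∀ s : ℂ, (fun p : Nat.Primes =>
        Complex.exp (∑' l : ℕ, b ((p : ℕ) ^ (l + 1)) * ((p : ℕ) : ℂ) ^ (-(((l + 1 : ℕ) : ℂ) * s)))) =
        (fun p : Nat.Primes =>
        Complex.exp (∑' l : ℕ, b' ((p : ℕ) ^ (l + 1)) * ((p : ℕ) : ℂ) ^ (-(((l + 1 : ℕ) : ℂ) * s)))) := by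
      intro s
      funext p
      congr 1
      refine tsum_congr fun l => ?_
      have : IsPrimePow ((p : ℕ) ^ (l + 1)) :=
        (isPrimePow_nat_iff _).2 ⟨p, l + 1, p.2, Nat.succ_pos _, rfl⟩
      simp only [hb', if_pos this]
    have hexp2 : ∀ s : ℂ, 2 < s.re → LSeries a s = Complex.exp (LSeries b' s) := by
      intro s hs
      have hsum : LSeriesSummable b' s := by
        refine LSeriesSummable_of_abscissaOfAbsConv_lt_re ?_
        refine (Pool.Agent.H180R3.PFT.absc_b hbb).trans_lt ?_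
        exact_mod_cast (by linarith : θ + 1 < s.re)
      have h3 := hprod s (by linarith)
      rw [heq s] at h3
      exact h3.unique (hasProd_exp hb0 hsum)
    refine ⟨b', hb0, θ, hθ, C, hbb, fun s hs => ?_⟩
    have hsum := b_summable h1 hram hb0 hθ hbb hexp2 hs
    have h3 := hprod s hs
    rw [heq s] at h3
    exact h3.unique (hasProd_exp hb0 hsum)

/-! ### the functional equation -/

lemma conj_Qpow {Q : ℝ} (hQ : 0 < Q) (z : ℂ) : starRingEnd ℂ ((Q : ℂ) ^ z) = (Q : ℂ) ^ (starRingEnd ℂ z) := by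
  have hne : (Q : ℂ) ≠ 0 := by exact_mod_cast hQ.ne'
  rw [Complex.cpow_def_of_ne_zero hne, Complex.cpow_def_of_ne_zero hne, ← Complex.exp_conj, map_mul,
    ← Complex.ofReal_log hQ.le, Complex.conj_ofReal]

theorem fe_ext {m : ℕ} {G : ℂ → ℂ} (hG : Differentiable ℂ G) {Q : ℝ} {k : ℕ} {lam : Fin k → ℝ}
    {μ : Fin k → ℂ} {ω : ℂ} (hQ : 0 < Q) (h : FE m G Q k lam μ ω) {s : ℂ} (h0 : s ≠ 0) (h1 : s ≠ 1)
    (hp : NoPole k lam μ s) (hp' : NoPole k lam μ (1 - starRingEnd ℂ s)) :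
    Phi m G Q k lam μ s = ω * starRingEnd ℂ (Phi m G Q k lam μ (1 - starRingEnd ℂ s)) := by
  have key := fex m G hG Q k lam μ ω hQ h s
  have hA : (∏ j, Complex.Gamma ((lam j : ℂ) * s + μ j)) ≠ 0 :=
    Finset.prod_ne_zero_iff.2 fun j _ => Complex.Gamma_ne_zero (hp j)
  have hB : (∏ j, Complex.Gamma ((lam j : ℂ) * (1 - starRingEnd ℂ s) + μ j)) ≠ 0 :=
    Finset.prod_ne_zero_iff.2 fun j _ => Complex.Gamma_ne_zero (hp' j)
  have hBc : starRingEnd ℂ (∏ j, Complex.Gamma ((lam j : ℂ) * (1 - starRingEnd ℂ s) + μ j)) =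
      ∏ j, Complex.Gamma ((lam j : ℂ) * (1 - s) + starRingEnd ℂ (μ j)) := by
    rw [map_prod]
    refine Finset.prod_congr rfl fun j _ => ?_
    rw [← Complex.Gamma_conj]
    congr 1
    simp
  have hB' : (∏ j, Complex.Gamma ((lam j : ℂ) * (1 - s) + starRingEnd ℂ (μ j))) ≠ 0 := by
    rw [← hBc]
    exact (map_ne_zero _).2 hB
  rw [Finset.prod_inv_distrib, Finset.prod_inv_distrib] at key
  unfold Phi
  rw [map_mul, map_mul, map_div₀, map_pow, hBc, conj_Qpow hQ]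
  have e1 : starRingEnd ℂ (1 - starRingEnd ℂ s) = 1 - s := by simp
  have e2 : starRingEnd ℂ (1 - starRingEnd ℂ s - 1) = -s := by simp
  rw [e1, e2]
  set A := ∏ j, Complex.Gamma ((lam j : ℂ) * s + μ j) with hAdef
  set B := ∏ j, Complex.Gamma ((lam j : ℂ) * (1 - s) + starRingEnd ℂ (μ j)) with hBdef
  set g := starRingEnd ℂ (G (1 - starRingEnd ℂ s)) with hg
  have hs1 : (s - 1) ^ m ≠ 0 := pow_ne_zero _ (sub_ne_zero.2 h1)
  have hs0 : s ^ m ≠ 0 := pow_ne_zero _ h0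
  have e3 : (-s) ^ m = (-1) ^ m * s ^ m := by rw [← mul_pow]; ring_nf
  have e4 : ((-1 : ℂ) ^ m) * (-1) ^ m = 1 := by rw [← mul_pow]; simp
  have e5 : ((-1 : ℂ) ^ m) ≠ 0 := pow_ne_zero _ (by norm_num)
  rw [e3]
  field_simp at key ⊢
  linear_combination ((-1) ^ m) * key + (ω * (Q:ℂ) ^ (1 - s) * B * g * (s - 1) ^ m) * e4

theorem inS_iff (a : ℕ → ℂ) : InS a ↔ SS a := by
  constructor
  · rintro ⟨h1, -, ⟨m, G, hG, hfin, hGs, Q, r, lam, μ, ε, hQ, hl, hμ, hε, hfe⟩, hram, heul⟩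
    refine ⟨h1, hram, ⟨m, G, hG, ?_, hGs, Q, hQ, r, lam, μ, ε, hl, hμ, hε, ?_⟩, (euler_iff h1 hram).2 heul⟩
    · obtain ⟨A, B, hAB⟩ := hfin
      exact ⟨B, A, hAB⟩
    · intro s hs0 hs1
      have hnp : ∀ z : ℂ, 0 < z.re → NoPole r lam μ z := by
        intro z hz j t heq
        have := congrArg Complex.re heq
        simp at this
        have h3 := mul_pos (hl j) hz
        have h4 := hμ j
        have h5 : (0:ℝ) ≤ t := Nat.cast_nonneg t
        linarith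
      exact hfe s (by rintro rfl; simp at hs0) (by rintro rfl; simp at hs1) (hnp s hs0)
        (hnp _ (by simp; linarith))
  · intro h
    obtain ⟨h1, hram, ⟨m, G, hG, hfin, hGs, Q, hQ, r, lam, μ, ε, hl, hμ, hε, hfe⟩, heul⟩ := h
    refine ⟨h1, fun s hs => Pool.Agent.H177R3.PFV.ram_summable hram hs, ⟨m, G, hG, ?_, hGs, Q, r, lam, μ, ε,
      hQ, hl, hμ, hε, fun s hs0 hs1 hp hp' => ?_⟩, hram, (euler_iff h1 hram).1 heul⟩
    · obtain ⟨B, A, hAB⟩ := hfin
      exact ⟨A, B, hAB⟩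
    · exact fe_ext hG hQ ⟨hl, hμ, hε, hfe⟩ hs0 hs1 hp hp'

end Pool.Agent.H177R3.Lit
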