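import Mathlib
import Pool.Agent.H336R4.PF.Final
import Pool.Agent.H96R3.BC.Stmts
import Pool.Agent.H180R3.PO.Stmts
import Pool.Agent.H177R3.SelLit

/-!
# Finale: from one element with unbounded `S_F(x) / log log x` to a primitive one, and to Conjecture A
-/

set_option autoImplicit false

namespace Pool.Agent.H177R3.Big

open Pool.Agent.H336R4.PF Pool.Agent.H96R3.BC Pool.Agent.H177R3.PFV Pool.Agent.H177R3.Lit
open Filter Topology

/-- `S_F(x)`, the sum over the primes `p ≤ x` of `|a(p)|^2 / p` -/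
noncomputable def SF (a : ℕ → ℂ) (x : ℝ) : ℝ :=
  ∑ p ∈ (Finset.Iic ⌊x⌋₊).filter Nat.Prime, ‖a p‖ ^ 2 / (p : ℝ)

/-- `F` is the constant `1` -/
def IsOne (a : ℕ → ℂ) : Prop := ∀ s : ℂ, 1 < s.re → LSeries a s = 1

/-- `F` is a primitive element of the Selberg class -/
def IsPrimitive (a : ℕ → ℂ) : Prop := InS a ∧ ¬ IsOne a ∧ ∀ f g : ℕ → ℂ, InS f → InS g →
  (∀ s : ℂ, 1 < s.re → LSeries a s = LSeries f s * LSeries g s) → IsOne f ∨ IsOne g

lemma isOne_iff {a : ℕ → ℂ} (h : SS a) : IsOne a ↔ ∀ n : ℕ, 2 ≤ n → a n = 0 := by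
  constructor
  · intro h1 n hn
    have h2 : LSeries.abscissaOfAbsConv a < ⊤ := ram_lt_top h.2.1
    have h3 : LSeries.abscissaOfAbsConv LSeries.delta < ⊤ := by
      have : LSeriesSummable LSeries.delta (2 : ℂ) := by
        refine (LSeriesSummable_congr (f := fun n => if n = 1 then 1 else 0) _ fun {n} hn => by
          simp [LSeries.delta]).1 ?_
        refine (hasSum_sum_of_ne_finset_zero (s := {1}) fun m hm => ?_).summable
        rcases eq_or_ne m 0 with rfl | hm0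
        · simp
        · rw [LSeries.term_of_ne_zero hm0, if_neg (by simpa using hm), zero_div]
      exact lt_of_le_of_lt this.abscissaOfAbsConv_le (EReal.coe_lt_top _)
    have h4 : a n = LSeries.delta n := by
      refine LSeries.eq_of_LSeries_eventually_eq h2 h3 ?_ (by omega)
      filter_upwards [eventually_gt_atTop (1 : ℝ)] with x hx
      rw [h1 x (by simpa using hx)]
      rw [LSeries_delta]
      rfl
    rw [h4]
    simp [LSeries.delta, show n ≠ 1 by omega]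
  · intro h1 s hs
    have : LSeries a s = LSeries LSeries.delta s := by
      refine LSeries_congr (fun {n} hn => ?_) s
      rcases Nat.lt_or_ge n 2 with h2 | h2
      · have : n = 1 := by omega
        subst this
        simp [LSeries.delta, h.1]
      · rw [h1 n h2]
        simp [LSeries.delta, show n ≠ 1 by omega]
    rw [this, LSeries_delta]
    rfl

lemma prim_isPrimitive {a : ℕ → ℂ} (h : Prim a) : IsPrimitive a := by
  obtain ⟨h1, ⟨n, hn, hne⟩, h3⟩ := h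
  refine ⟨(inS_iff a).2 h1, fun hone => hne ((isOne_iff h1).1 hone n hn), fun f g hf hg hfg => ?_⟩
  have hf' := (inS_iff f).1 hf
  have hg' := (inS_iff g).1 hg
  rw [isOne_iff hf', isOne_iff hg']
  exact h3 f g hf' hg' hfg

lemma SF_nat (a : ℕ → ℂ) (N : ℕ) :
    SF a N = ∑ p ∈ (Finset.Iic N).filter Nat.Prime, ‖a p‖ ^ 2 / (p : ℝ) := by
  unfold SF
  rw [Nat.floor_natCast]

lemma SF_mono (a : ℕ → ℂ) {x y : ℝ} (h : x ≤ y) : SF a x ≤ SF a y := by
  unfold SF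
  refine Finset.sum_le_sum_of_subset_of_nonneg ?_ fun p _ _ => by positivity
  refine Finset.filter_subset_filter _ (Finset.Iic_subset_Iic.2 (Nat.floor_le_floor h))

lemma loglog_pos {N : ℝ} (hN : 3 ≤ N) : 0 < Real.log (Real.log N) := by
  have h1 : Real.exp 1 < N := lt_of_lt_of_le (by linarith [Real.exp_one_lt_d9]) hN
  have h2 : 1 < Real.log N := by
    rw [Real.lt_log_iff_exp_lt (by linarith)]
    exact h1
  exact Real.log_pos h2

/-- Cauchy-Schwarz for a finite list -/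
lemma list_sq_le (l : List ℂ) : ‖l.sum‖ ^ 2 ≤ l.length * (l.map (fun z => ‖z‖ ^ 2)).sum := by
  induction l with
  | nil => simp
  | cons z l ih =>
    simp only [List.sum_cons, List.length_cons, List.map_cons]
    push_cast
    have h1 : ‖z + l.sum‖ ≤ ‖z‖ + ‖l.sum‖ := norm_add_le _ _
    have h2 : ‖z + l.sum‖ ^ 2 ≤ (‖z‖ + ‖l.sum‖) ^ 2 := pow_le_pow_left₀ (norm_nonneg _) h1 2
    have h0 : 0 ≤ (l.map (fun z => ‖z‖ ^ 2)).sum :=
      List.sum_nonneg fun x hx => by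
        obtain ⟨y, -, rfl⟩ := List.mem_map.1 hx
        positivity
    rcases Nat.eq_zero_or_pos l.length with hl | hl
    · have : l = [] := List.length_eq_zero_iff.1 hl
      subst this
      simp at h2 ⊢
    · have hn : (1:ℝ) ≤ l.length := by exact_mod_cast hl
      set n : ℝ := (l.length : ℝ)
      set S : ℝ := (l.map (fun z => ‖z‖ ^ 2)).sum
      have h3 : (‖z‖ + ‖l.sum‖) ^ 2 ≤ (n + 1) * (‖z‖ ^ 2 + S) := by
        have h4 : 2 * ‖z‖ * ‖l.sum‖ ≤ n * ‖z‖ ^ 2 + ‖l.sum‖ ^ 2 / n := by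
          have hn0 : 0 < n := by linarith
          have h5 : 0 ≤ (n * ‖z‖ - ‖l.sum‖) ^ 2 / n := by positivity
          have h6 : (n * ‖z‖ - ‖l.sum‖) ^ 2 / n = n * ‖z‖ ^ 2 - 2 * ‖z‖ * ‖l.sum‖ + ‖l.sum‖ ^ 2 / n := by
            field_simp
            ring
          linarith
        have h7 : ‖l.sum‖ ^ 2 / n ≤ S := by
          rw [div_le_iff₀ (by linarith)]
          linarith [ih]
        nlinarith [ih, norm_nonneg z]
      exact h2.trans h3

lemma big_factor {a : ℕ → ℂ} (l : List (ℕ → ℂ)) (hsum : ∀ p : ℕ, p.Prime → a p = (l.map (fun f => f p)).sum)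
    (N : ℕ) : ∑ p ∈ (Finset.Iic N).filter Nat.Prime, ‖a p‖ ^ 2 / (p : ℝ) ≤
      l.length * (l.map (fun f => ∑ p ∈ (Finset.Iic N).filter Nat.Prime, ‖f p‖ ^ 2 / (p : ℝ))).sum := by
  have h1 : ∀ l' : List (ℕ → ℂ), (l'.map (fun f => ∑ p ∈ (Finset.Iic N).filter Nat.Prime, ‖f p‖ ^ 2 / (p : ℝ))).sum =
      ∑ p ∈ (Finset.Iic N).filter Nat.Prime, (l'.map (fun f => ‖f p‖ ^ 2)).sum / (p : ℝ) := by
    intro l'
    induction l' with
    | nil => simp
    | cons f l' ih =>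
      simp only [List.map_cons, List.sum_cons, add_div, Finset.sum_add_distrib]
      rw [ih]
  rw [h1, Finset.mul_sum]
  refine Finset.sum_le_sum fun p hp => ?_
  have hp' := (Finset.mem_filter.1 hp).2
  rw [← mul_div_assoc]
  refine div_le_div_of_nonneg_right ?_ (Nat.cast_nonneg p)
  rw [hsum p hp']
  have h2 := list_sq_le (l.map (fun f => f p))
  rw [List.length_map, List.map_map] at h2
  exact h2

/-- some primitive element is as large as the given one -/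
theorem prim_of_big (h : Elt2) : ∃ P : ℕ → ℂ, Prim P ∧ ∀ K : ℝ, ∃ N : ℕ, 3 ≤ N ∧
    K * (1 + Real.log (Real.log N)) < ∑ p ∈ (Finset.Iic N).filter Nat.Prime, ‖P p‖ ^ 2 / (p : ℝ) := by
  obtain ⟨a, haS, hnt, hbig⟩ := h
  obtain ⟨d, hd⟩ := ss_cls haS
  obtain ⟨l, hl, hlP, hsum⟩ := factor degGap degAdd (⌈d⌉₊) a d hd hnt
    (lt_of_le_of_lt (Nat.le_ceil d) (by linarith))
  by_contra hcon
  push Not at hcon
  -- uniform constant for the list
  have hK : ∀ l' : List (ℕ → ℂ), (∀ f ∈ l', Prim f) → ∃ K : ℝ, ∀ N : ℕ, 3 ≤ N →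
      (l'.map (fun f => ∑ p ∈ (Finset.Iic N).filter Nat.Prime, ‖f p‖ ^ 2 / (p : ℝ))).sum ≤
        K * (1 + Real.log (Real.log N)) := by
    intro l'
    induction l' with
    | nil => exact fun _ => ⟨0, fun N _ => by simp⟩
    | cons f l' ih =>
      intro hl'
      obtain ⟨K₁, h₁⟩ := ih fun g hg => hl' g (List.mem_cons_of_mem _ hg)
      obtain ⟨K₂, h₂⟩ := hcon f (hl' f List.mem_cons_self)
      refine ⟨K₂ + K₁, fun N hN => ?_⟩
      simp only [List.map_cons, List.sum_cons]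
      have := h₁ N hN
      have := h₂ N hN
      rw [add_mul]
      linarith
  obtain ⟨K, hK'⟩ := hK l hlP
  obtain ⟨N, hN, hlt⟩ := hbig (l.length * K)
  have h1 := big_factor l hsum N
  have h2 := mul_le_mul_of_nonneg_left (hK' N hN) (Nat.cast_nonneg (α := ℝ) l.length)
  have h3 := h1.trans h2
  rw [← mul_assoc] at h3
  exact absurd hlt (not_lt.2 h3)

/-- MP_8e9775_nt: a primitive element with unbounded `S_F(x) / log log x` -/
theorem final_big (h : Elt2) : ∃ a : ℕ → ℂ, IsPrimitive a ∧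
    ∀ K X₀ : ℝ, ∃ x : ℝ, X₀ ≤ x ∧ 3 ≤ x ∧ K * Real.log (Real.log x) < SF a x := by
  obtain ⟨a, ha, hbig⟩ := prim_of_big h
  refine ⟨a, prim_isPrimitive ha, fun K X₀ => ?_⟩
  obtain ⟨N, hN, hlt⟩ := hbig (|K| + |SF a X₀|)
  have hN' : (3:ℝ) ≤ N := by exact_mod_cast hN
  have hll := loglog_pos hN'
  rw [← SF_nat] at hlt
  have h1 : |SF a X₀| < SF a N := by
    have : |SF a X₀| * 1 ≤ (|K| + |SF a X₀|) * (1 + Real.log (Real.log N)) := by
      have := abs_nonneg K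
      have := abs_nonneg (SF a X₀)
      nlinarith
    linarith
  refine ⟨N, ?_, hN', ?_⟩
  · by_contra hc
    push Not at hc
    have := SF_mono a hc.le
    have := le_abs_self (SF a X₀)
    linarith
  · have h2 : K * Real.log (Real.log N) ≤ (|K| + |SF a X₀|) * (1 + Real.log (Real.log N)) := by
      have := le_abs_self K
      have := abs_nonneg K
      have := abs_nonneg (SF a X₀)
      nlinarith
    linarith

/-- MP_8e9775_nt from the pole order project -/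
theorem final_po (h : ∃ a : ℕ → ℂ, Prim a ∧ ¬ Pool.Agent.H180R3.PO.Q1up a) : ∃ a : ℕ → ℂ, IsPrimitive a ∧
    ∀ K X₀ : ℝ, ∃ x : ℝ, X₀ ≤ x ∧ 3 ≤ x ∧ Real.log (Real.log x) + K < SF a x := by
  obtain ⟨a, ha, hq⟩ := h
  refine ⟨a, prim_isPrimitive ha, fun K X₀ => ?_⟩
  by_contra hcon
  push Not at hcon
  apply hq
  refine ⟨|K| + |SF a (max X₀ 3)|, fun N hN => ?_⟩
  have hN' : (3:ℝ) ≤ N := by exact_mod_cast hN
  have hll := loglog_pos hN'
  rw [← SF_nat]
  rcases le_total X₀ N with h1 | h1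
  · have := hcon N h1 hN'
    have := le_abs_self K
    have := abs_nonneg (SF a (max X₀ 3))
    linarith
  · have h2 := SF_mono a (h1.trans (le_max_left X₀ 3))
    have := le_abs_self (SF a (max X₀ 3))
    have := abs_nonneg K
    linarith

/-- the statement of Q1 of MP_8e9775_nt, for one element -/
def Q1 (a : ℕ → ℂ) : Prop := ∃ C : ℝ, ∀ x : ℝ, 3 ≤ x → |SF a x - Real.log (Real.log x)| ≤ C

lemma not_Q1 {a : ℕ → ℂ} (h : ∀ K X₀ : ℝ, ∃ x : ℝ, X₀ ≤ x ∧ 3 ≤ x ∧ Real.log (Real.log x) + K < SF a x) :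
    ¬ Q1 a := by
  rintro ⟨C, hC⟩
  obtain ⟨x, -, hx, hlt⟩ := h C 3
  have := (abs_le.1 (hC x hx)).2
  linarith

/-- Conjecture A fails: the statement of S18646 -/
theorem conjA (h : Elt2) :
    ¬ (∀ a : ℕ → ℂ,
      a 1 = 1 →
      (∀ ε : ℝ, 0 < ε → ∃ C : ℝ, ∀ n : ℕ, 1 ≤ n → ‖a n‖ ≤ C * (n : ℝ) ^ ε) →
      (∃ b : ℕ → ℂ, (∀ n : ℕ, ¬ IsPrimePow n → b n = 0) ∧
        (∃ θ : ℝ, θ < 1 / 2 ∧ ∃ C : ℝ, ∀ n : ℕ, ‖b n‖ ≤ C * (n : ℝ) ^ θ) ∧
        ∀ s : ℂ, 1 < s.re → LSeries a s = Complex.exp (LSeries b s)) →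
      (∃ m : ℕ, ∃ G : ℂ → ℂ, Differentiable ℂ G ∧
        (∃ A B : ℝ, ∀ z : ℂ, ‖G z‖ ≤ A * Real.exp (‖z‖ ^ B)) ∧
        (∀ s : ℂ, 1 < s.re → G s = (s - 1) ^ m * LSeries a s) ∧
        ∃ Q : ℝ, 0 < Q ∧ ∃ k : ℕ, ∃ lam : Fin k → ℝ, ∃ μ : Fin k → ℂ,
          (∀ j, 0 < lam j) ∧ (∀ j, 0 ≤ (μ j).re) ∧
          ∃ ω : ℂ, ‖ω‖ = 1 ∧
            ∀ s : ℂ, s ≠ 1 → s ≠ 0 →
              (∀ j, ∀ t : ℕ, (lam j : ℂ) * s + μ j ≠ -(t : ℂ)) →
              (∀ j, ∀ t : ℕ, (lam j : ℂ) * (1 - starRingEnd ℂ s) + μ j ≠ -(t : ℂ)) →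
              (Q : ℂ) ^ s * (∏ j, Complex.Gamma ((lam j : ℂ) * s + μ j)) *
                  (G s / (s - 1) ^ m) =
                ω * starRingEnd ℂ
                  ((Q : ℂ) ^ (1 - starRingEnd ℂ s) *
                    (∏ j, Complex.Gamma ((lam j : ℂ) * (1 - starRingEnd ℂ s) + μ j)) *
                    (G (1 - starRingEnd ℂ s) / ((1 - starRingEnd ℂ s) - 1) ^ m))) →
      ∃ nF : ℤ, ∃ C : ℝ, ∀ X : ℝ, 3 ≤ X →
        |(∑ p ∈ (Finset.range (⌊X⌋₊ + 1)).filter Nat.Prime, ‖a p‖ ^ 2 / (p : ℝ))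
            - (nF : ℝ) * Real.log (Real.log X)| ≤ C) := by
  intro hall
  obtain ⟨a, haS, hnt, hbig⟩ := h
  obtain ⟨h1, hram, ⟨m, G, hG, ⟨ρ, A, hfin⟩, hGs, Q, hQ, k, lam, μ, ω, hl, hμ, hω, hfe⟩,
    b, hb0, θ, hθ, C, hb, hexp⟩ := haS
  obtain ⟨nF, C', hC'⟩ := hall a h1 hram
    ⟨b, hb0, ⟨θ, hθ, C, fun n => by
      rcases Nat.eq_zero_or_pos n with rfl | hn
      · rw [hb0 0 not_isPrimePow_zero, norm_zero]
        have hC0 : 0 ≤ C := by
          have := (norm_nonneg _).trans (hb 1 le_rfl)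
          simpa using this
        exact mul_nonneg hC0 (Real.rpow_nonneg (Nat.cast_nonneg _) _)
      · exact hb n hn⟩, hexp⟩
    ⟨m, G, hG, ⟨A, ρ, hfin⟩, hGs, Q, hQ, k, lam, μ, hl, hμ, ω, hω, fun s hs1 hs0 hp hp' =>
      fe_ext hG hQ ⟨hl, hμ, hω, hfe⟩ hs0 hs1 hp hp'⟩
  obtain ⟨N, hN, hlt⟩ := hbig (|(nF : ℝ)| + |C'|)
  have hN' : (3:ℝ) ≤ N := by exact_mod_cast hN
  have hll := loglog_pos hN'
  have h2 := (abs_le.1 (hC' N hN')).2
  rw [Nat.floor_natCast] at h2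
  have h3 : (Finset.range (N + 1)).filter Nat.Prime = (Finset.Iic N).filter Nat.Prime := by
    ext p
    simp
  rw [h3] at h2
  have h4 := le_abs_self (nF : ℝ)
  have h5 := le_abs_self C'
  have h6 := abs_nonneg (nF : ℝ)
  have h7 := abs_nonneg C'
  nlinarith

end Pool.Agent.H177R3.Big
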