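import Pool.Agent.H177R3.LatB
import Pool.Agent.Helper76.HPlanch

/-! Twisted exponential sums over an increasing sequence: the mean square near frequency zero. -/

open Complex Filter Topology Set MeasureTheory
open scoped FourierTransform

namespace H177.Lat

/-- `e(x)` -/
noncomputable def ee (x : ℝ) : ℂ := Complex.exp (((2 * Real.pi * x : ℝ) : ℂ) * I)

lemma ee_norm (x : ℝ) : ‖ee x‖ = 1 := by
  unfold ee; exact Complex.norm_exp_ofReal_mul_I _

lemma ee_add (x y : ℝ) : ee (x + y) = ee x * ee y := by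
  unfold ee
  rw [← Complex.exp_add]
  congr 1
  push_cast; ring

lemma ee_re (x : ℝ) : (ee x).re = Real.cos (2 * Real.pi * x) := by
  unfold ee; exact Complex.exp_ofReal_mul_I_re _

lemma ee_conj (x : ℝ) : (starRingEnd ℂ) (ee x) = ee (-x) := by
  unfold ee
  rw [← Complex.exp_conj, map_mul, Complex.conj_ofReal, Complex.conj_I]
  congr 1
  push_cast; ring

lemma ee_cont {f : ℝ → ℝ} (hf : Continuous f) : Continuous fun x => ee (f x) := by
  unfold ee; fun_prop

/-- the square of a trigonometric sum -/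
lemma sq_sum (I : Finset ℕ) (f : ℕ → ℝ) :
    ‖∑ n ∈ I, ee (f n)‖ ^ 2 = ∑ n ∈ I, ∑ n' ∈ I, Real.cos (2 * Real.pi * (f n - f n')) := by
  have h1 : ((‖∑ n ∈ I, ee (f n)‖ ^ 2 : ℝ) : ℂ) =
      ∑ n ∈ I, ∑ n' ∈ I, ee (f n - f n') := by
    push_cast
    rw [← Complex.mul_conj', map_sum, Finset.sum_mul_sum]
    refine Finset.sum_congr rfl fun n _ => Finset.sum_congr rfl fun n' _ => ?_
    rw [ee_conj, ← ee_add]
    congr 1
  have h2 := congrArg Complex.re h1
  rw [Complex.ofReal_re] at h2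
  rw [h2, Complex.re_sum]
  refine Finset.sum_congr rfl fun n _ => ?_
  rw [Complex.re_sum]
  exact Finset.sum_congr rfl fun n' _ => ee_re _

/-- the kernel sum as a mean square -/
lemma kernel_eq (I : Finset ℕ) (y : ℕ → ℝ) {e : ℝ} (he : 0 < e) (φ τ : ℝ) :
    ∑ n ∈ I, ∑ n' ∈ I, KK e (y n - y n') *
      Real.cos (2 * Real.pi * (φ * ((n : ℝ) - n') - τ * (y n - y n'))) =
    ∫ u, tri e u * ‖∑ n ∈ I, ee (φ * n + (u - τ) * y n)‖ ^ 2 := by
  have h1 : ∀ u : ℝ, tri e u * ‖∑ n ∈ I, ee (φ * n + (u - τ) * y n)‖ ^ 2 =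
      ∑ n ∈ I, ∑ n' ∈ I, (Real.cos (2 * Real.pi * (φ * ((n : ℝ) - n') - τ * (y n - y n'))) *
        (tri e u * Real.cos (2 * Real.pi * u * (y n - y n'))) -
        Real.sin (2 * Real.pi * (φ * ((n : ℝ) - n') - τ * (y n - y n'))) *
        (tri e u * Real.sin (2 * Real.pi * u * (y n - y n')))) := by
    intro u
    rw [sq_sum, Finset.mul_sum]
    refine Finset.sum_congr rfl fun n _ => ?_
    rw [Finset.mul_sum]
    refine Finset.sum_congr rfl fun n' _ => ?_
    have : 2 * Real.pi * (φ * n + (u - τ) * y n - (φ * n' + (u - τ) * y n')) =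
        2 * Real.pi * (φ * ((n : ℝ) - n') - τ * (y n - y n')) +
        2 * Real.pi * u * (y n - y n') := by ring
    rw [this, Real.cos_add]
    ring
  simp_rw [h1]
  rw [integral_finsetSum]
  · refine Finset.sum_congr rfl fun n _ => ?_
    rw [integral_finsetSum]
    · refine Finset.sum_congr rfl fun n' _ => ?_
      rw [integral_sub ((tri_integrable he (by fun_prop)).const_mul _)
        ((tri_integrable he (by fun_prop)).const_mul _), integral_const_mul, integral_const_mul,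
        tri_sin, mul_zero, sub_zero]
      unfold KK
      ring
    · intro n' _
      exact ((tri_integrable he (by fun_prop)).const_mul _).sub
        ((tri_integrable he (by fun_prop)).const_mul _)
  · intro n _
    refine integrable_finsetSum _ fun n' _ => ?_
    exact ((tri_integrable he (by fun_prop)).const_mul _).sub
      ((tri_integrable he (by fun_prop)).const_mul _)

/-- summation by parts -/
lemma abel (E z : ℕ → ℂ) (m : ℕ) :
    ∑ i ∈ Finset.range (m + 1), (E (i + 1) - E i) * z i =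
      E (m + 1) * z m - E 0 * z 0 - ∑ i ∈ Finset.range m, E (i + 1) * (z (i + 1) - z i) := by
  induction m with
  | zero => simp; ring
  | succ m ih =>
    rw [Finset.sum_range_succ, ih, Finset.sum_range_succ _ m]
    ring

/-- the step function -/
noncomputable def stp (φ : ℝ) (Y : ℕ → ℝ) (m : ℕ) (t : ℝ) : ℂ :=
  ∑ i ∈ Finset.range m, (Set.Ioc (Y i) (Y (i + 1))).indicator
    (fun _ => ee (φ * ((i + 1 : ℕ) : ℝ))) t

lemma ind_sum (Y : ℕ → ℝ) (hY : Monotone Y) (m : ℕ) (t : ℝ) :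
    ∑ i ∈ Finset.range m, (Set.Ioc (Y i) (Y (i + 1))).indicator (fun _ => (1 : ℝ)) t =
      (Set.Ioc (Y 0) (Y m)).indicator (fun _ => (1 : ℝ)) t := by
  induction m with
  | zero => simp
  | succ m ih =>
    rw [Finset.sum_range_succ, ih]
    have h1 : Y 0 ≤ Y m := hY (Nat.zero_le _)
    have h2 : Y m ≤ Y (m + 1) := hY (Nat.le_succ _)
    simp only [Set.indicator, Set.mem_Ioc]
    by_cases a1 : Y 0 < t <;> by_cases a2 : t ≤ Y m <;> by_cases a3 : Y m < t <;>
      by_cases a4 : t ≤ Y (m + 1) <;> simp [a1, a2, a3, a4] <;> linarith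

lemma stp_norm (φ : ℝ) (Y : ℕ → ℝ) (hY : Monotone Y) (m : ℕ) (t : ℝ) :
    ‖stp φ Y m t‖ ≤ (Set.Ioc (Y 0) (Y m)).indicator (fun _ => (1 : ℝ)) t := by
  rw [← ind_sum Y hY]
  unfold stp
  refine (norm_sum_le _ _).trans (Finset.sum_le_sum fun i _ => ?_)
  by_cases h : t ∈ Set.Ioc (Y i) (Y (i + 1))
  · rw [Set.indicator_of_mem h, Set.indicator_of_mem h, ee_norm]
  · rw [Set.indicator_of_notMem h, Set.indicator_of_notMem h, norm_zero]

lemma stp_meas (φ : ℝ) (Y : ℕ → ℝ) (m : ℕ) : Measurable (stp φ Y m) := by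
  unfold stp
  refine Finset.measurable_sum _ fun i _ => ?_
  exact measurable_const.indicator measurableSet_Ioc

lemma ind_int (a b : ℝ) : Integrable ((Set.Ioc a b).indicator (fun _ => (1 : ℝ))) := by
  rw [integrable_indicator_iff measurableSet_Ioc]
  exact (continuous_const.integrableOn_Icc (a := a) (b := b)).mono_set Set.Ioc_subset_Icc_self

lemma stp_int (φ : ℝ) (Y : ℕ → ℝ) (hY : Monotone Y) (m : ℕ) : Integrable (stp φ Y m) :=
  (ind_int (Y 0) (Y m)).mono' (stp_meas φ Y m).aestronglyMeasurable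
    (Filter.Eventually.of_forall (stp_norm φ Y hY m))

lemma stp_lint (φ : ℝ) (Y : ℕ → ℝ) (hY : Monotone Y) (m : ℕ) :
    ∫⁻ t, ‖stp φ Y m t‖ₑ ^ 2 ≤ ENNReal.ofReal (Y m - Y 0) := by
  have h1 : ∀ t, ‖stp φ Y m t‖ₑ ^ 2 ≤ (Set.Ioc (Y 0) (Y m)).indicator (fun _ => (1 : ENNReal)) t := by
    intro t
    have h2 := stp_norm φ Y hY m t
    by_cases h : t ∈ Set.Ioc (Y 0) (Y m)
    · rw [Set.indicator_of_mem h] at h2
      rw [Set.indicator_of_mem h]
      have h3 : ‖stp φ Y m t‖ₑ ≤ 1 := by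
        rw [← ofReal_norm]
        exact ENNReal.ofReal_le_one.2 h2
      calc ‖stp φ Y m t‖ₑ ^ 2 ≤ 1 ^ 2 := by gcongr
        _ = 1 := one_pow _
    · rw [Set.indicator_of_notMem h] at h2
      rw [Set.indicator_of_notMem h]
      have h3 : stp φ Y m t = 0 := norm_le_zero_iff.1 h2
      rw [h3]; simp
  refine (lintegral_mono h1).trans ?_
  rw [lintegral_indicator measurableSet_Ioc, setLIntegral_one, Real.volume_Ioc]

end H177.Lat
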