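import Pool.Agent.H177R3.CosA

open Complex Filter Topology Set MeasureTheory
open scoped FourierTransform

namespace H177.Lat

lemma ee_ftc (u x y : ℝ) :
    (((2 * Real.pi * u : ℝ) : ℂ) * I) * ∫ v in x..y, ee (u * v) = ee (u * y) - ee (u * x) := by
  have hd : ∀ v ∈ Set.uIcc x y, HasDerivAt (fun v : ℝ => ee (u * v))
      ((((2 * Real.pi * u : ℝ) : ℂ) * I) * ee (u * v)) v := by
    intro v _
    unfold ee
    have h1 : HasDerivAt (fun v : ℝ => (((2 * Real.pi * (u * v) : ℝ) : ℂ) * I))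
        (((2 * Real.pi * u : ℝ) : ℂ) * I) v := by
      have h2 : HasDerivAt (fun v : ℝ => 2 * Real.pi * (u * v)) (2 * Real.pi * u) v := by
        have := ((hasDerivAt_id v).const_mul u).const_mul (2 * Real.pi)
        simpa using this
      exact (h2.ofReal_comp).mul_const I
    exact h1.cexp.congr_deriv (mul_comm _ _)
  have hc : Continuous fun v : ℝ => ee (u * v) := ee_cont (by fun_prop)
  have h := intervalIntegral.integral_eq_sub_of_hasDerivAt hd
    ((continuous_const.mul hc).intervalIntegrable _ _)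
  rw [intervalIntegral.integral_const_mul] at h
  exact h

lemma stp_four (φ : ℝ) (Y : ℕ → ℝ) (hY : Monotone Y) (m : ℕ) (u : ℝ) :
    ∑ i ∈ Finset.range m, ee (φ * ((i + 1 : ℕ) : ℝ)) * (ee (u * Y (i + 1)) - ee (u * Y i)) =
      (((2 * Real.pi * u : ℝ) : ℂ) * I) * 𝓕 (stp φ Y m) (-u) := by
  have h1 : 𝓕 (stp φ Y m) (-u) = ∑ i ∈ Finset.range m,
      ee (φ * ((i + 1 : ℕ) : ℝ)) * ∫ v in (Y i)..(Y (i + 1)), ee (u * v) := by
    rw [Real.fourier_real_eq_integral_exp_smul]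
    have h2 : ∀ v : ℝ, Complex.exp (↑(-2 * Real.pi * v * -u) * I) • stp φ Y m v =
        ∑ i ∈ Finset.range m, (Set.Ioc (Y i) (Y (i + 1))).indicator
          (fun v => ee (φ * ((i + 1 : ℕ) : ℝ)) * ee (u * v)) v := by
      intro v
      have e1 : Complex.exp (↑(-2 * Real.pi * v * -u) * I) = ee (u * v) := by
        unfold ee
        congr 2
        push_cast; ring
      rw [e1, smul_eq_mul]
      unfold stp
      rw [Finset.mul_sum]
      refine Finset.sum_congr rfl fun i _ => ?_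
      by_cases h : v ∈ Set.Ioc (Y i) (Y (i + 1))
      · rw [Set.indicator_of_mem h, Set.indicator_of_mem h]; ring
      · rw [Set.indicator_of_notMem h, Set.indicator_of_notMem h, mul_zero]
    simp_rw [h2]
    have hc : Continuous fun v : ℝ => ee (u * v) := ee_cont (by fun_prop)
    rw [integral_finsetSum]
    · refine Finset.sum_congr rfl fun i _ => ?_
      rw [integral_indicator measurableSet_Ioc, integral_const_mul,
        intervalIntegral.integral_of_le (hY (Nat.le_succ i))]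
    · intro i _
      rw [integrable_indicator_iff measurableSet_Ioc]
      exact ((continuous_const.mul hc).integrableOn_Icc (a := Y i) (b := Y (i + 1))).mono_set
        Set.Ioc_subset_Icc_self
  rw [h1, Finset.mul_sum]
  refine Finset.sum_congr rfl fun i _ => ?_
  rw [← ee_ftc]
  ring

/-- pointwise bound for the twisted sum -/
lemma A_bound (φ : ℝ) (Y : ℕ → ℝ) (hY : Monotone Y) (m : ℕ) (u : ℝ) :
    ‖ee φ - 1‖ ^ 2 * ‖∑ i ∈ Finset.range (m + 1), ee (φ * i + u * Y i)‖ ^ 2 ≤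
      6 + 3 * ((2 * Real.pi * u) ^ 2 * ‖𝓕 (stp φ Y m) (-u)‖ ^ 2) := by
  have h1 := abel (fun i => ee (φ * i)) (fun i => ee (u * Y i)) m
  have h2 : ∑ i ∈ Finset.range (m + 1), (ee (φ * ((i + 1 : ℕ) : ℝ)) - ee (φ * i)) * ee (u * Y i) =
      (ee φ - 1) * ∑ i ∈ Finset.range (m + 1), ee (φ * i + u * Y i) := by
    rw [Finset.mul_sum]
    refine Finset.sum_congr rfl fun i _ => ?_
    have e1 : φ * ((i + 1 : ℕ) : ℝ) = φ + φ * i := by push_cast; ring
    rw [e1, ee_add φ, ee_add (φ * i)]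
    ring
  have h3 := stp_four φ Y hY m u
  rw [h2, h3] at h1
  rw [← mul_pow, ← norm_mul, h1]
  have h4 : ∀ p q r : ℂ, ‖p‖ = 1 → ‖q‖ = 1 → ‖p - q - r‖ ^ 2 ≤ 6 + 3 * ‖r‖ ^ 2 := by
    intro p q r hp hq
    have h5 : ‖p - q - r‖ ≤ ‖p‖ + ‖q‖ + ‖r‖ :=
      (norm_sub_le _ _).trans (by linarith [norm_sub_le p q])
    rw [hp, hq] at h5
    have h6 : ‖p - q - r‖ ^ 2 ≤ (1 + 1 + ‖r‖) ^ 2 := by
      apply pow_le_pow_left₀ (norm_nonneg _) h5
    nlinarith [sq_nonneg (‖r‖ - 1)]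
  refine (h4 _ _ _ ?_ ?_).trans (le_of_eq ?_)
  · rw [norm_mul, ee_norm, ee_norm, one_mul]
  · rw [norm_mul, ee_norm, ee_norm, one_mul]
  · rw [norm_mul, norm_mul, Complex.norm_I, mul_one, Complex.norm_real, Real.norm_eq_abs, mul_pow,
      sq_abs]

lemma four_sq (φ : ℝ) (Y : ℕ → ℝ) (hY : Monotone Y) (m : ℕ) :
    Integrable (fun u : ℝ => ‖𝓕 (stp φ Y m) u‖ ^ 2) ∧
      ∫ u, ‖𝓕 (stp φ Y m) u‖ ^ 2 ≤ Y m - Y 0 := by
  have hint := stp_int φ Y hY m
  have hmem : MemLp (stp φ Y m) 2 :=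
    (memLp_indicator_const 2 (measurableSet_Ioc (a := Y 0) (b := Y m)) (1 : ℝ)
      (Or.inr measure_Ioc_lt_top.ne)).mono' (stp_meas φ Y m).aestronglyMeasurable
      (Filter.Eventually.of_forall (stp_norm φ Y hY m))
  have hpl := Pool.Agent.Helper76.NormalHP.plancherel_lintegral (stp φ Y m) hint hmem
  have hle := stp_lint φ Y hY m
  rw [← hpl] at hle
  have hcont : Continuous (𝓕 (stp φ Y m)) := by
    exact VectorFourier.fourierIntegral_continuous Real.continuous_fourierChar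
      continuous_inner hint
  have heq : ∀ u : ℝ, ENNReal.ofReal (‖𝓕 (stp φ Y m) u‖ ^ 2) = ‖𝓕 (stp φ Y m) u‖ₑ ^ 2 := by
    intro u
    rw [ENNReal.ofReal_pow (norm_nonneg _), ofReal_norm]
  have hfin : ∫⁻ u, ENNReal.ofReal (‖𝓕 (stp φ Y m) u‖ ^ 2) < ⊤ := by
    simp_rw [heq]
    exact hle.trans_lt ENNReal.ofReal_lt_top
  have hI : Integrable (fun u : ℝ => ‖𝓕 (stp φ Y m) u‖ ^ 2) := by
    refine ⟨(hcont.norm.pow 2).aestronglyMeasurable, ?_⟩
    rw [hasFiniteIntegral_iff_ofReal (Filter.Eventually.of_forall fun u => by positivity)]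
    exact hfin
  refine ⟨hI, ?_⟩
  rw [integral_eq_lintegral_of_nonneg_ae (Filter.Eventually.of_forall fun u => by positivity)
    hI.aestronglyMeasurable]
  simp_rw [heq]
  have h0 : 0 ≤ Y m - Y 0 := sub_nonneg.2 (hY (Nat.zero_le _))
  exact ENNReal.toReal_le_of_le_ofReal h0 hle

end H177.Lat
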