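import Pool.Agent.H177R3.CosA2

open Complex Filter Topology Set MeasureTheory
open scoped FourierTransform

namespace H177.Lat

lemma tri_le_one {e : ℝ} (he : 0 < e) (u : ℝ) : tri e u ≤ 1 := by
  unfold tri
  apply max_le zero_le_one
  have : 0 ≤ |u| / e := by positivity
  linarith

/-- the twisted sum is small -/
theorem twisted (a b : ℕ) (hab : a < b) (y : ℕ → ℝ)
    (hy : ∀ n ∈ Finset.Ioc a b, ∀ m ∈ Finset.Ioc a b, n ≤ m → y n ≤ y m)
    {e : ℝ} (he : 0 < e) (φ τ : ℝ) :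
    ‖ee φ - 1‖ ^ 2 * ∑ n ∈ Finset.Ioc a b, ∑ n' ∈ Finset.Ioc a b, KK e (y n - y n') *
      Real.cos (2 * Real.pi * (φ * ((n : ℝ) - n') - τ * (y n - y n'))) ≤
    6 * e + 12 * Real.pi ^ 2 * (e + |τ|) ^ 2 * (y b - y (a + 1)) := by
  set m := b - (a + 1) with hm
  set Y : ℕ → ℝ := fun i => y (min (a + 1 + i) b) with hYdef
  have hY : Monotone Y := by
    intro i j hij
    simp only [hYdef]
    apply hy
    · rw [Finset.mem_Ioc]; omega
    · rw [Finset.mem_Ioc]; omega
    · omega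
  have hY0 : Y 0 = y (a + 1) := by
    simp only [hYdef]; congr 1; omega
  have hYm : Y m = y b := by
    simp only [hYdef]; congr 1; omega
  have hI : Finset.Ioc a b = Finset.Ico (a + 1) (a + 1 + (m + 1)) := by
    ext k; rw [Finset.mem_Ioc, Finset.mem_Ico]; omega
  have hA : ∀ w : ℝ, ‖∑ n ∈ Finset.Ioc a b, ee (φ * n + w * y n)‖ =
      ‖∑ i ∈ Finset.range (m + 1), ee (φ * i + w * Y i)‖ := by
    intro w
    have h1 : ∑ n ∈ Finset.Ioc a b, ee (φ * n + w * y n) =
        ee (φ * ((a + 1 : ℕ) : ℝ)) * ∑ i ∈ Finset.range (m + 1), ee (φ * i + w * Y i) := by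
      rw [hI, Finset.sum_Ico_eq_sum_range, Finset.mul_sum]
      have e1 : a + 1 + (m + 1) - (a + 1) = m + 1 := by omega
      rw [e1]
      refine Finset.sum_congr rfl fun i hi => ?_
      rw [Finset.mem_range] at hi
      rw [← ee_add]
      have e2 : Y i = y (a + 1 + i) := by
        simp only [hYdef]; congr 1; omega
      rw [e2]
      congr 1
      push_cast; ring
    rw [h1, norm_mul, ee_norm, one_mul]
  obtain ⟨hint, hle⟩ := four_sq φ Y hY m
  set F : ℝ → ℝ := fun u => ‖𝓕 (stp φ Y m) u‖ ^ 2 with hF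
  have hpt : ∀ u : ℝ, ‖ee φ - 1‖ ^ 2 * (tri e u *
      ‖∑ n ∈ Finset.Ioc a b, ee (φ * n + (u - τ) * y n)‖ ^ 2) ≤
      6 * (tri e u * Real.cos (2 * Real.pi * u * 0)) +
        12 * Real.pi ^ 2 * (e + |τ|) ^ 2 * F (τ - u) := by
    intro u
    rw [hA, mul_zero, Real.cos_zero, mul_one]
    have h1 := A_bound φ Y hY m (u - τ)
    have e1 : -(u - τ) = τ - u := by ring
    rw [e1] at h1
    have hF0 : 0 ≤ F (τ - u) := by simp only [hF]; positivity
    have hFF : ‖𝓕 (stp φ Y m) (τ - u)‖ ^ 2 = F (τ - u) := rfl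
    rw [hFF] at h1
    have ht0 := tri_nonneg e u
    have ht1 := tri_le_one he u
    rcases le_or_gt e |u| with h | h
    · rw [tri_zero he h]
      have : 0 ≤ 12 * Real.pi ^ 2 * (e + |τ|) ^ 2 * F (τ - u) := by positivity
      simpa using this
    · have h2 : (2 * Real.pi * (u - τ)) ^ 2 ≤ 4 * Real.pi ^ 2 * (e + |τ|) ^ 2 := by
        have h3 : |u - τ| ≤ e + |τ| := (abs_sub _ _).trans (by linarith)
        have h4 : (u - τ) ^ 2 ≤ (e + |τ|) ^ 2 := by
          rw [← sq_abs (u - τ)]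
          exact pow_le_pow_left₀ (abs_nonneg _) h3 2
        have h5 : (0 : ℝ) ≤ 4 * Real.pi ^ 2 := by positivity
        nlinarith
      calc ‖ee φ - 1‖ ^ 2 * (tri e u * ‖∑ i ∈ Finset.range (m + 1), ee (φ * i + (u - τ) * Y i)‖ ^ 2)
          = tri e u * (‖ee φ - 1‖ ^ 2 *
            ‖∑ i ∈ Finset.range (m + 1), ee (φ * i + (u - τ) * Y i)‖ ^ 2) := by ring
        _ ≤ tri e u * (6 + 3 * ((2 * Real.pi * (u - τ)) ^ 2 * F (τ - u))) :=
            mul_le_mul_of_nonneg_left h1 ht0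
        _ ≤ tri e u * (6 + 3 * ((4 * Real.pi ^ 2 * (e + |τ|) ^ 2) * F (τ - u))) := by
            gcongr
        _ = 6 * tri e u + tri e u * (12 * Real.pi ^ 2 * (e + |τ|) ^ 2 * F (τ - u)) := by ring
        _ ≤ 6 * tri e u + 1 * (12 * Real.pi ^ 2 * (e + |τ|) ^ 2 * F (τ - u)) := by
            gcongr
        _ = _ := by ring
  have hcontA : Continuous fun u : ℝ =>
      ‖∑ n ∈ Finset.Ioc a b, ee (φ * n + (u - τ) * y n)‖ ^ 2 := by
    apply Continuous.pow
    apply Continuous.norm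
    exact continuous_finsetSum _ fun n _ => ee_cont (by fun_prop)
  rw [kernel_eq (Finset.Ioc a b) y he φ τ, ← integral_const_mul]
  have hi2 : Integrable fun u : ℝ => F (τ - u) := hint.comp_sub_left τ
  refine (integral_mono ((tri_integrable he hcontA).const_mul _)
    (((tri_integrable he (g := fun u => Real.cos (2 * Real.pi * u * 0)) (by fun_prop)).const_mul
      _).add (hi2.const_mul _)) hpt).trans ?_
  simp only [Pi.add_apply]
  rw [integral_add ((tri_integrable he (g := fun u => Real.cos (2 * Real.pi * u * 0))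
    (by fun_prop)).const_mul _) (hi2.const_mul _), integral_const_mul, integral_const_mul]
  have h8 : ∫ u, tri e u * Real.cos (2 * Real.pi * u * 0) = e := KK_zero he
  have h9 : ∫ u, F (τ - u) = ∫ u, F u := integral_sub_left_eq_self F volume τ
  rw [h8, h9]
  rw [hY0, hYm] at hle
  have h10 : 0 ≤ 12 * Real.pi ^ 2 * (e + |τ|) ^ 2 := by positivity
  have h11 := mul_le_mul_of_nonneg_left hle h10
  linarith

end H177.Lat
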