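import Pool.Agent.H177R3.LatC

/-! The combinatorial core with separate sequences for distances and phases. -/

open Finset

namespace H177.Lat

/-- the combinatorial core -/
theorem core2 (a b R : ℕ) (hR : 2 ≤ R) (θ κ D C1 CR M : ℝ) (hκ : 0 < κ) (hD : 0 ≤ D)
    (hCR : 0 < CR) (hM : 0 < M) (hRbig : 16 * D * C1 / R ≤ κ / 4)
    (y v : ℕ → ℝ) (hy : ∀ n ∈ Finset.Ioc a b, ∀ m ∈ Finset.Ioc a b, n ≤ m → y n ≤ y m)
    (G : ℝ → ℝ) (hG0 : ∀ x, 0 ≤ G x) (hG1 : ∀ x, G x ≤ 1) (hGD : ∀ x, G x * x ^ 2 ≤ D)
    (h1 : ∑ n ∈ Finset.Ioc a b, (kI (Finset.Ioc a b) y 1 n : ℝ) ^ 2 ≤ C1 * M)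
    (hk : ∑ n ∈ Finset.Ioc a b, (kI (Finset.Ioc a b) y R n : ℝ) ^ 2 ≤ CR * M)
    (hF : κ * M ≤ ∑ n ∈ Finset.Ioc a b, ∑ n' ∈ Finset.Ioc a b,
      G (y n - y n') * |Real.sin (Real.pi * θ * (v n - v n'))|) :
    κ ^ 4 / (16 * CR ^ 3) * M ≤ ((Bad a b θ (κ / (4 * CR)) v).card : ℝ) := by
  classical
  set I := Finset.Ioc a b with hI
  set ε := κ / (4 * CR) with hε
  set B := Bad a b θ ε v with hB
  have hR0 : (0 : ℝ) < R := by positivity
  have hε0 : 0 < ε := by positivity
  set sn : ℝ → ℝ := fun x => |Real.sin (Real.pi * θ * x)| with hsn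
  have hsn0 : ∀ x, 0 ≤ sn x := fun x => abs_nonneg _
  have hsn1 : ∀ x, sn x ≤ 1 := fun x => Real.abs_sin_le_one _
  have hsneg : ∀ x, sn (-x) = sn x := by
    intro x
    simp only [hsn]
    rw [mul_neg, Real.sin_neg, abs_neg]
  set k : ℕ → ℕ := fun n => kI I y R n with hkdef
  have hBI : B ⊆ I := Finset.filter_subset _ _
  -- pairs with a bad gap in between
  set S : Finset ℕ := I.filter (fun n => ∃ j ∈ B, |y n - y j| ≤ R) with hS
  have hSI : S ⊆ I := Finset.filter_subset _ _
  -- pointwise bound for the inner sums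
  have hpt : ∀ n ∈ I, ∑ n' ∈ I, G (y n - y n') * sn (v n - v n') ≤
      D * (∑ n' ∈ I.filter (fun n' => (R : ℝ) < |y n - y n'|), 1 / (y n - y n') ^ 2) +
      ε * (k n : ℝ) ^ 2 + (if n ∈ S then (k n : ℝ) else 0) := by
    intro n hn
    rw [← Finset.sum_filter_add_sum_filter_not I (fun n' => (R : ℝ) < |y n - y n'|)]
    have hfar : ∑ n' ∈ I.filter (fun n' => (R : ℝ) < |y n - y n'|),
        G (y n - y n') * sn (v n - v n') ≤
        D * (∑ n' ∈ I.filter (fun n' => (R : ℝ) < |y n - y n'|), 1 / (y n - y n') ^ 2) := by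
      rw [Finset.mul_sum]
      refine Finset.sum_le_sum fun n' hn' => ?_
      have h2 := (mem_filter.1 hn').2
      have h3 : 0 < (y n - y n') ^ 2 := by
        rw [← sq_abs]
        have : 0 < |y n - y n'| := hR0.trans h2
        positivity
      rw [mul_one_div, le_div_iff₀ h3]
      have h4 := hGD (y n - y n')
      have h5 := mul_le_mul_of_nonneg_left (hsn1 (v n - v n')) (hG0 (y n - y n'))
      calc G (y n - y n') * sn (v n - v n') * (y n - y n') ^ 2 ≤
          G (y n - y n') * 1 * (y n - y n') ^ 2 := mul_le_mul_of_nonneg_right h5 h3.le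
        _ = G (y n - y n') * (y n - y n') ^ 2 := by ring
        _ ≤ D := h4
    have hcard : (I.filter (fun n' => ¬ (R : ℝ) < |y n - y n'|)).card = k n := by
      simp only [hkdef, kI, not_lt]
    have hnear : ∑ n' ∈ I.filter (fun n' => ¬ (R : ℝ) < |y n - y n'|),
        G (y n - y n') * sn (v n - v n') ≤
        ε * (k n : ℝ) ^ 2 + (if n ∈ S then (k n : ℝ) else 0) := by
      by_cases hnS : n ∈ S
      · rw [if_pos hnS]
        have h2 : ∑ n' ∈ I.filter (fun n' => ¬ (R : ℝ) < |y n - y n'|),
            G (y n - y n') * sn (v n - v n') ≤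
            ∑ n' ∈ I.filter (fun n' => ¬ (R : ℝ) < |y n - y n'|), (1 : ℝ) := by
          refine Finset.sum_le_sum fun n' _ => ?_
          exact mul_le_one₀ (hG1 _) (hsn0 _) (hsn1 _)
        rw [Finset.sum_const, nsmul_eq_mul, mul_one, hcard] at h2
        have h3 : 0 ≤ ε * (k n : ℝ) ^ 2 := by positivity
        linarith
      · rw [if_neg hnS, add_zero]
        have h2 : ∀ n' ∈ I.filter (fun n' => ¬ (R : ℝ) < |y n - y n'|),
            G (y n - y n') * sn (v n - v n') ≤ ε * (k n : ℝ) := by
          intro n' hn'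
          obtain ⟨g1, g2⟩ := mem_filter.1 hn'
          push Not at g2
          -- no bad index between
          have hbetween : ∀ p q : ℕ, p ∈ I → q ∈ I → p ≤ q → |y p - y q| ≤ R →
              (p = n ∨ q = n) → sn (v q - v p) ≤ (k n : ℝ) * ε := by
            intro p q hp hq hpq hd hpn
            have hstep := long_step θ ε v p (q - p) (by
              intro j hj1 hj2
              by_contra hcon
              push Not at hcon
              apply hnS
              have hjI : j ∈ I := by
                rw [hI, Finset.mem_Ioc] at hp hq ⊢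
                omega
              have hj1I : j + 1 ≤ b := by
                rw [hI, Finset.mem_Ioc] at hq
                omega
              have hjB : j ∈ B := by
                rw [hB, Bad, mem_filter]
                exact ⟨hjI, hj1I, hcon⟩
              rw [hS, mem_filter]
              refine ⟨hn, j, hjB, ?_⟩
              have a1 := hy p hp j hjI hj1
              have a2 := hy j hjI q hq (by omega)
              rw [abs_le] at hd
              rcases hpn with h | h
              · rw [← h, abs_le]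
                constructor <;> linarith [hd.1, hd.2]
              · rw [← h, abs_le]
                constructor <;> linarith [hd.1, hd.2])
            have e : p + (q - p) = q := by omega
            rw [e] at hstep
            refine hstep.trans (mul_le_mul_of_nonneg_right ?_ hε0.le)
            have hsub : Finset.Ioc p q ⊆ I.filter (fun n' => ¬ (R : ℝ) < |y n - y n'|) := by
              intro j hj
              rw [Finset.mem_Ioc] at hj
              have hjI : j ∈ I := by
                rw [hI, Finset.mem_Ioc] at hp hq ⊢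
                omega
              refine mem_filter.2 ⟨hjI, ?_⟩
              push Not
              have a1 := hy p hp j hjI (by omega)
              have a2 := hy j hjI q hq (by omega)
              rw [abs_le] at hd
              rcases hpn with h | h
              · rw [← h, abs_le]
                constructor <;> linarith [hd.1, hd.2]
              · rw [← h, abs_le]
                constructor <;> linarith [hd.1, hd.2]
            have h3 := Finset.card_le_card hsub
            rw [Nat.card_Ioc, hcard] at h3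
            exact_mod_cast h3
          have h3 : sn (v n - v n') ≤ (k n : ℝ) * ε := by
            rcases le_total n n' with h | h
            · have h4 := hbetween n n' hn g1 h g2 (Or.inl rfl)
              rw [← hsneg, neg_sub]
              exact h4
            · have h4 := hbetween n' n g1 hn h (by rw [abs_sub_comm]; exact g2) (Or.inr rfl)
              exact h4
          calc G (y n - y n') * sn (v n - v n') ≤ 1 * ((k n : ℝ) * ε) :=
                mul_le_mul (hG1 _) h3 (hsn0 _) zero_le_one
            _ = ε * (k n : ℝ) := by ring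
        have h3 := Finset.sum_le_sum h2
        rw [Finset.sum_const, nsmul_eq_mul, hcard] at h3
        calc _ ≤ (k n : ℝ) * (ε * (k n : ℝ)) := h3
          _ = ε * (k n : ℝ) ^ 2 := by ring
    linarith
  -- sum up
  have hsum : κ * M ≤ D * (16 / (R : ℝ) * ∑ n ∈ I, (kI I y 1 n : ℝ)) +
      ε * ∑ n ∈ I, (k n : ℝ) ^ 2 + ∑ n ∈ S, (k n : ℝ) := by
    refine hF.trans ((Finset.sum_le_sum hpt).trans ?_)
    rw [Finset.sum_add_distrib, Finset.sum_add_distrib, ← Finset.mul_sum, ← Finset.mul_sum]
    have h2 := far_pairs I y R hR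
    have h3 := mul_le_mul_of_nonneg_left h2 hD
    have h4 : ∑ n ∈ I, (if n ∈ S then (k n : ℝ) else 0) = ∑ n ∈ S, (k n : ℝ) := by
      rw [← Finset.sum_filter]
      congr 1
      ext n
      rw [mem_filter]
      exact ⟨fun h => h.2, fun h => ⟨hSI h, h⟩⟩
    rw [h4]
    linarith
  have hA : D * (16 / (R : ℝ) * ∑ n ∈ I, (kI I y 1 n : ℝ)) ≤ κ / 4 * M := by
    have h2 : ∑ n ∈ I, (kI I y 1 n : ℝ) ≤ C1 * M := by
      refine le_trans (Finset.sum_le_sum fun n _ => ?_) h1
      have h3 : ((kI I y 1 n : ℕ) : ℝ) ≤ ((kI I y 1 n ^ 2 : ℕ) : ℝ) := by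
        exact_mod_cast Nat.le_self_pow (by norm_num) _
      push_cast at h3
      exact h3
    calc D * (16 / (R : ℝ) * ∑ n ∈ I, (kI I y 1 n : ℝ)) ≤ D * (16 / (R : ℝ) * (C1 * M)) := by
          apply mul_le_mul_of_nonneg_left _ hD
          exact mul_le_mul_of_nonneg_left h2 (by positivity)
      _ = 16 * D * C1 / R * M := by ring
      _ ≤ κ / 4 * M := mul_le_mul_of_nonneg_right hRbig hM.le
  have hE : ε * ∑ n ∈ I, (k n : ℝ) ^ 2 ≤ κ / 4 * M := by
    calc ε * ∑ n ∈ I, (k n : ℝ) ^ 2 ≤ ε * (CR * M) := mul_le_mul_of_nonneg_left hk hε0.le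
      _ = κ / 4 * M := by rw [hε]; field_simp
  have hSsum : κ * M / 2 ≤ ∑ n ∈ S, (k n : ℝ) := by linarith
  have hcs1 := cs_card I S hSI k (CR * M) hk
  have hS1 : κ ^ 2 / (4 * CR) * M ≤ (S.card : ℝ) := by
    have h2 : (κ * M / 2) ^ 2 ≤ (S.card : ℝ) * (CR * M) := by
      refine le_trans ?_ hcs1
      apply pow_le_pow_left₀ (by positivity) hSsum
    have h3 : (κ * M / 2) ^ 2 = (κ ^ 2 / (4 * CR) * M) * (CR * M) := by
      field_simp
      ring
    rw [h3] at h2
    exact le_of_mul_le_mul_right h2 (by positivity)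
  -- the set S is covered by neighbourhoods of the bad indices
  have hS2 : (S.card : ℝ) ≤ ∑ j ∈ B, (k j : ℝ) := by
    have h2 : S ⊆ B.biUnion (fun j => I.filter (fun n => ¬ (R : ℝ) < |y j - y n|)) := by
      intro n hn
      rw [hS, mem_filter] at hn
      obtain ⟨g1, j, hj, g2⟩ := hn
      rw [mem_biUnion]
      refine ⟨j, hj, mem_filter.2 ⟨g1, ?_⟩⟩
      push Not
      rw [abs_sub_comm]
      exact g2
    have h3 := (Finset.card_le_card h2).trans Finset.card_biUnion_le
    have h4 : ∀ j, (I.filter (fun n => ¬ (R : ℝ) < |y j - y n|)).card = k j := by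
      intro j
      simp only [hkdef, kI, not_lt]
    simp only [h4] at h3
    exact_mod_cast h3
  have hcs2 := cs_card I B hBI k (CR * M) hk
  have h5 : (κ ^ 2 / (4 * CR) * M) ^ 2 ≤ (B.card : ℝ) * (CR * M) := by
    refine le_trans ?_ hcs2
    apply pow_le_pow_left₀ (by positivity) (hS1.trans hS2)
  have h6 : (κ ^ 2 / (4 * CR) * M) ^ 2 = (κ ^ 4 / (16 * CR ^ 3) * M) * (CR * M) := by
    field_simp
    ring
  rw [h6] at h5
  exact le_of_mul_le_mul_right h5 (by positivity)

end H177.Lat
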