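import Pool.Agent.H177R3.LatE
import Pool.Agent.H177R3.CosA3
import Pool.Agent.H177R3.CosB

/-! Coset exclusion: the bad gaps at the local scale. -/

open Complex Filter Topology Set MeasureTheory

namespace H177.Lat

open H370 hiding PP
open H370.A3 SP H370.A2
open SG (ord NZ zmult ZS)

/-- the shifted points -/
noncomputable def vv (α T : ℝ) (n : ℕ) : ℝ := yy T n - α * n

lemma ev_pow (η : ℝ) (hη : η < 1) : ∀ᶠ T : ℝ in atTop, T ^ η ≤ T / 8 := by
  have h1 : ∀ᶠ T : ℝ in atTop, (8 : ℝ) ≤ T ^ (1 - η) :=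
    (tendsto_rpow_atTop (by linarith)).eventually_ge_atTop _
  filter_upwards [h1, eventually_gt_atTop 0] with T h1 h2
  have h3 : T ^ η * T ^ (1 - η) = T := by
    rw [← Real.rpow_add h2]
    have : η + (1 - η) = 1 := by ring
    rw [this, Real.rpow_one]
  have h4 : 0 < T ^ η := Real.rpow_pos_of_pos h2 _
  nlinarith

lemma tri1_zero {e θ' μ : ℝ} (he : 0 < e) (h1 : e ≤ θ') (h2 : θ' + e ≤ μ) (x : ℝ)
    (hx : μ ≤ |x|) : tri e (x - θ') = 0 := by
  apply tri_zero he
  rcases le_or_gt 0 x with h | h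
  · rw [abs_of_nonneg h] at hx
    rw [abs_of_nonneg (by linarith)]
    linarith
  · rw [abs_of_neg h] at hx
    rw [abs_of_neg (by linarith)]
    linarith

lemma tri1_int {e θ' μ : ℝ} (he : 0 < e) (h1 : e ≤ θ') (h2 : θ' + e ≤ μ)
    (g : ℝ → ℝ) : ∫ α in (-μ)..μ, tri e (α - θ') * g α = ∫ α, tri e (α - θ') * g α := by
  apply intervalIntegral.integral_eq_integral_of_support_subset
  intro α hα
  by_contra h
  apply hα
  have : μ ≤ |α| := by
    by_contra h2
    push Not at h2
    obtain ⟨h3, h4⟩ := abs_lt.1 h2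
    exact h ⟨h3, h4.le⟩
  show tri e (α - θ') * g α = 0
  rw [tri1_zero he h1 h2 α this, zero_mul]

lemma RR_tri1 {e θ' μ : ℝ} (he : 0 < e) (h1 : e ≤ θ') (h2 : θ' + e ≤ μ) (x : ℝ) :
    RR (fun α => tri e (α - θ')) μ x = Real.cos (2 * Real.pi * θ' * x) * KK e x := by
  unfold RR
  rw [tri1_int he h1 h2, tri_shift he]

lemma tri1_main {e θ' μ : ℝ} (he : 0 < e) (h1 : e ≤ θ') (h2 : θ' + e ≤ μ) :
    tri e (0 - θ') + ∫ α in (-μ)..μ, |α| * tri e (α - θ') = θ' * e := by
  have h0 : tri e (0 - θ') = 0 := by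
    apply tri_zero he
    rw [zero_sub, abs_neg, abs_of_nonneg (by linarith)]
    exact h1
  have h3 : ∫ α in (-μ)..μ, |α| * tri e (α - θ') = ∫ α in (-μ)..μ, tri e (α - θ') * |α| :=
    intervalIntegral.integral_congr fun α _ => mul_comm _ _
  rw [h0, zero_add, h3, tri1_int he h1 h2, tri_abs he h1]

lemma cos_cmp (X Y : ℝ) : Real.cos X ≤ Real.cos Y + 2 * |Real.sin ((X - Y) / 2)| := by
  have h1 := Real.cos_sub_cos X Y
  have h2 : |Real.cos X - Real.cos Y| ≤ 2 * |Real.sin ((X - Y) / 2)| := by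
    rw [h1, abs_mul, abs_mul]
    have h3 := Real.abs_sin_le_one ((X + Y) / 2)
    have h4 := abs_nonneg (Real.sin ((X - Y) / 2))
    have h5 : |(-2 : ℝ)| = 2 := by norm_num
    rw [h5]
    nlinarith
  have h6 := (abs_le.1 h2).2
  linarith

/-- many gaps away from a coset, when the coset is not the lattice itself -/
theorem almost_bad3 (hRH : RiemannHypothesis) (θ α : ℝ) (hθ : 0 < θ) (hθ1 : θ ≤ 1)
    (hd : ee (θ * α) ≠ 1) :
    ∃ c ε δ : ℝ, 0 < c ∧ 0 < ε ∧ 0 < δ ∧ ∃ T0 : ℝ, 100 ≤ T0 ∧ ∀ T : ℝ, T0 ≤ T →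
      volume {t : ℝ | t ∈ Set.Icc T (2 * T) ∧
        ¬ (c * (T / 8 * Real.log T / (2 * Real.pi)) ≤
          ((Bad (NZ t) (NZ (t + T / 8)) θ ε (vv α T)).card : ℝ))} ≤
        ENNReal.ofReal (T ^ (1 - δ)) := by
  have hpi := Real.pi_pos
  set φ : ℝ := θ * α with hφ
  set d : ℝ := ‖ee φ - 1‖ ^ 2 with hddef
  have hd0 : 0 < d := by
    have : 0 < ‖ee φ - 1‖ := norm_pos_iff.2 (sub_ne_zero.2 hd)
    positivity
  set e : ℝ := min (θ / 16) (θ * d / (864 * Real.pi ^ 2)) with he
  have he0 : 0 < e := lt_min (by positivity) (by positivity)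
  have he1 : e ≤ θ / 16 := min_le_left _ _
  have he2 : e * (864 * Real.pi ^ 2) ≤ θ * d := by
    have := min_le_right (θ / 16) (θ * d / (864 * Real.pi ^ 2))
    rw [← he, le_div_iff₀ (by positivity)] at this
    exact this
  set θ' : ℝ := θ - 2 * e with hθ'
  set μ : ℝ := θ - e with hμ
  set η0 : ℝ := 1 - e with hη
  have hη0 : 0 < η0 := by rw [hη]; linarith
  have hη1 : η0 < 1 := by rw [hη]; linarith
  have k1 : e ≤ θ' := by rw [hθ']; linarith
  have k2 : θ' + e ≤ μ := by rw [hθ', hμ]; linarith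
  have hμ0 : 0 < μ := by linarith
  set κ : ℝ := θ / 4 with hκ
  have hκ0 : 0 < κ := by positivity
  set D : ℝ := 1 / e ^ 2 with hD
  have hD0 : 0 ≤ D := by positivity
  obtain ⟨δ, hδ, T1, hT1, hP⟩ := almost_smooth hRH η0 μ (θ * e / 8) hη0 hη1 hμ0
    (by rw [hμ, hη]; linarith) (by positivity) (fun x => tri e (x - θ')) (1 / e)
    (fun x y => by
      have h1 := tri_lip he0 (x - θ') (y - θ')
      have e1 : x - θ' - (y - θ') = x - y := by ring
      rw [e1] at h1
      exact h1)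
    (tri1_zero he0 k1 k2) (1 / e) (fun x => by
      rw [RR_tri1 he0 k1 k2, abs_mul, abs_of_nonneg (KK_nonneg he0 x)]
      have h1 := KK_sq he0 x
      have h2 := Real.abs_cos_le_one (2 * Real.pi * θ' * x)
      have h3 : 0 ≤ KK e x * x ^ 2 := mul_nonneg (KK_nonneg he0 x) (sq_nonneg _)
      calc |Real.cos (2 * Real.pi * θ' * x)| * KK e x * x ^ 2 =
            |Real.cos (2 * Real.pi * θ' * x)| * (KK e x * x ^ 2) := by ring
        _ ≤ 1 * (KK e x * x ^ 2) := mul_le_mul_of_nonneg_right h2 h3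
        _ ≤ 1 / e := by linarith)
  obtain ⟨C1, T2, hC1, hT2, h1⟩ := third hRH η0 1 hη0 hη1 zero_le_one
  obtain ⟨R, hR2, hRb⟩ : ∃ R : ℕ, 2 ≤ R ∧ 64 * D * C1 / κ ≤ R := by
    refine ⟨max 2 ⌈64 * D * C1 / κ⌉₊, le_max_left _ _, (Nat.le_ceil _).trans ?_⟩
    exact_mod_cast le_max_right _ _
  obtain ⟨CR, T3, hCR, hT3, hk⟩ := third hRH η0 R hη0 hη1 (Nat.cast_nonneg _)
  obtain ⟨T4, hT4⟩ := (ev_pow η0 hη1).exists_forall_of_atTop
  set T5 : ℝ := 48 / (d * θ) * (16 * Real.pi) with hT5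
  refine ⟨κ ^ 4 / (16 * CR ^ 3), κ / (4 * CR), δ, by positivity, by positivity, hδ,
    max T1 (max T2 (max T3 (max T4 T5))), hT2.trans ((le_max_left _ _).trans (le_max_right _ _)),
    fun T hT => ?_⟩
  have hTT1 : T1 ≤ T := (le_max_left _ _).trans hT
  have hTT2 : T2 ≤ T := ((le_max_left _ _).trans (le_max_right _ _)).trans hT
  have hTr : max T3 (max T4 T5) ≤ T := ((le_max_right _ _).trans (le_max_right _ _)).trans hT
  have hTT3 : T3 ≤ T := (le_max_left _ _).trans hTr
  have hTT4 : T4 ≤ T := ((le_max_left _ _).trans (le_max_right _ _)).trans hTr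
  have hTT5 : T5 ≤ T := ((le_max_right _ _).trans (le_max_right _ _)).trans hTr
  set H : ℝ := T / 8 with hHdef
  have hH1 : T ^ η0 ≤ H := hT4 T hTT4
  have hH2 : H ≤ T / 8 := le_rfl
  refine (measure_mono ?_).trans (hP T hTT1 H hH1 hH2)
  have hT100 : 100 ≤ T := hT2.trans hTT2
  have hTpos : 0 < T := by linarith
  have hL1 : 1 ≤ Real.log T := by
    rw [Real.le_log_iff_exp_le hTpos]
    have := Real.exp_one_lt_d9
    linarith
  have hLpos : 0 < Real.log T := by linarith
  have hHpos : 0 < H := by rw [hHdef]; linarith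
  set M : ℝ := H * Real.log T / (2 * Real.pi) with hM
  have hM0 : 0 < M := by positivity
  have hMbig : 6 / d ≤ θ / 8 * M := by
    have h2 : T / (16 * Real.pi) ≤ M := by
      rw [hM, hHdef, div_le_div_iff₀ (by positivity) (by positivity)]
      have : T * (2 * Real.pi) * 1 ≤ T * (2 * Real.pi) * Real.log T := by gcongr
      nlinarith
    have h3 : 48 / (d * θ) ≤ T / (16 * Real.pi) := by
      rw [le_div_iff₀ (by positivity)]
      exact hTT5
    have h4 := h3.trans h2
    have h5 := mul_le_mul_of_nonneg_left h4 (by positivity : (0 : ℝ) ≤ θ / 8)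
    refine le_trans (le_of_eq ?_) h5
    field_simp
    norm_num
  rintro t ⟨ht1, ht2⟩
  refine ⟨ht1, fun hcon => ht2 ?_⟩
  have hA1 : 1 ≤ t := by linarith [ht1.1]
  have hR0 : (0 : ℝ) < R := by
    have : 0 < R := by omega
    exact_mod_cast this
  have hmono : ∀ n ∈ Finset.Ioc (NZ t) (NZ (t + H)), ∀ m ∈ Finset.Ioc (NZ t) (NZ (t + H)),
      n ≤ m → yy T n ≤ yy T m := by
    intro n hn m _ hnm
    rw [Finset.mem_Ioc] at hn
    have h2 := SG.ord_mono (by omega : 1 ≤ n) hnm
    unfold yy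
    gcongr
  rw [tri1_main he0 k1 k2, PP_conv hRH hA1] at hcon
  have hlow := (abs_le.1 hcon).1
  set a := NZ t with ha
  set b := NZ (t + H) with hb
  have hab : a < b := by
    by_contra hnot
    have h2 : Finset.Ioc a b = ∅ := Finset.Ioc_eq_empty hnot
    rw [h2] at hlow
    simp only [Finset.sum_empty] at hlow
    have h3 : θ * e / 8 * M < M * (θ' * e) := by
      rw [hθ']
      have h4 : θ / 8 < θ - 2 * e := by linarith
      have h5 : 0 < e * M := by positivity
      nlinarith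
    linarith
  -- total length
  have hΛ : yy T b - yy T (a + 1) ≤ M := by
    have h2 : ord b ≤ t + H := (SG.ord_le_iff (by omega) _).mpr le_rfl
    have h3 : t < ord (a + 1) := by
      by_contra hcon2
      push Not at hcon2
      have := (SG.ord_le_iff (by omega : 1 ≤ a + 1) t).mp hcon2
      omega
    have h4 : yy T b - yy T (a + 1) = (ord b - ord (a + 1)) * (Real.log T / (2 * Real.pi)) := by
      simp only [yy]; ring
    rw [h4, hM, mul_div_assoc]
    apply mul_le_mul_of_nonneg_right _ (by positivity)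
    linarith
  -- the twisted sum
  have htw := twisted a b hab (yy T) hmono he0 φ (2 * e)
  rw [← hddef, abs_of_pos (by positivity : 0 < 2 * e)] at htw
  set TW : ℝ := ∑ n ∈ Finset.Ioc a b, ∑ n' ∈ Finset.Ioc a b, KK e (yy T n - yy T n') *
      Real.cos (2 * Real.pi * (φ * ((n : ℝ) - n') - 2 * e * (yy T n - yy T n'))) with hTW
  have htw2 : TW ≤ e * (θ / 4 * M) := by
    have h2 : d * TW ≤ 6 * e + 108 * Real.pi ^ 2 * e ^ 2 * M := by
      refine htw.trans ?_
      have h3 : 12 * Real.pi ^ 2 * (e + 2 * e) ^ 2 = 108 * Real.pi ^ 2 * e ^ 2 := by ring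
      rw [h3]
      gcongr
    have h3 : 108 * Real.pi ^ 2 * e ^ 2 * M ≤ d * (e * (θ / 8 * M)) := by
      have h4 : 0 ≤ e * M / 8 := by positivity
      have h5 := mul_le_mul_of_nonneg_right he2 h4
      calc 108 * Real.pi ^ 2 * e ^ 2 * M = e * (864 * Real.pi ^ 2) * (e * M / 8) := by ring
        _ ≤ θ * d * (e * M / 8) := h5
        _ = _ := by ring
    have h4 : 6 * e ≤ d * (e * (θ / 8 * M)) := by
      have h5 := mul_le_mul_of_nonneg_left hMbig (by positivity : 0 ≤ d * e)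
      calc 6 * e = d * e * (6 / d) := by field_simp
        _ ≤ d * e * (θ / 8 * M) := h5
        _ = _ := by ring
    have h5 : d * TW ≤ d * (e * (θ / 4 * M)) := by
      have : d * (e * (θ / 4 * M)) = d * (e * (θ / 8 * M)) + d * (e * (θ / 8 * M)) := by ring
      linarith
    exact le_of_mul_le_mul_left h5 hd0
  refine core2 a b R hR2 θ κ D C1 CR M hκ0 hD0 hCR hM0 ?_ (yy T) (vv α T) hmono
    (fun x => KK e x / e) (fun x => div_nonneg (KK_nonneg he0 x) he0.le)
    (fun x => div_le_one_of_le₀ (KK_le he0 x) he0.le) ?_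
    (h1 T hTT2 H hH1 hH2 t ht1.1 ht1.2) (hk T hTT3 H hH1 hH2 t ht1.1 ht1.2) ?_
  · rw [div_le_iff₀ hκ0] at hRb
    rw [div_le_iff₀ hR0]
    linarith
  · intro x
    have h2 := KK_sq he0 x
    have h3 : KK e x / e * x ^ 2 = (KK e x * x ^ 2) / e := by ring
    rw [h3, hD, div_le_iff₀ he0]
    calc KK e x * x ^ 2 ≤ 1 / e := h2
      _ = 1 / e ^ 2 * e := by field_simp
  · set SS : ℝ := ∑ n ∈ Finset.Ioc a b, ∑ n' ∈ Finset.Ioc a b,
        KK e (yy T n - yy T n') / e * |Real.sin (Real.pi * θ * (vv α T n - vv α T n'))| with hSS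
    have h3 : ∑ n ∈ Finset.Ioc a b, ∑ n' ∈ Finset.Ioc a b,
        RR (fun x => tri e (x - θ')) μ (ord n * Real.log T / (2 * Real.pi) -
          ord n' * Real.log T / (2 * Real.pi)) ≤ TW + 2 * e * SS := by
      rw [hTW, hSS, Finset.mul_sum, ← Finset.sum_add_distrib]
      refine Finset.sum_le_sum fun n _ => ?_
      rw [Finset.mul_sum, ← Finset.sum_add_distrib]
      refine Finset.sum_le_sum fun n' _ => ?_
      rw [RR_tri1 he0 k1 k2]
      have h4 := cos_cmp (2 * Real.pi * θ' * (yy T n - yy T n'))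
        (2 * Real.pi * (φ * ((n : ℝ) - n') - 2 * e * (yy T n - yy T n')))
      have h5 : (2 * Real.pi * θ' * (yy T n - yy T n') -
          2 * Real.pi * (φ * ((n : ℝ) - n') - 2 * e * (yy T n - yy T n'))) / 2 =
          Real.pi * θ * (vv α T n - vv α T n') := by
        rw [hθ', hφ]
        unfold vv
        ring
      rw [h5] at h4
      have h6 := mul_le_mul_of_nonneg_right h4 (KK_nonneg he0 (yy T n - yy T n'))
      have h7 : 2 * e * (KK e (yy T n - yy T n') / e *
          |Real.sin (Real.pi * θ * (vv α T n - vv α T n'))|) =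
          2 * |Real.sin (Real.pi * θ * (vv α T n - vv α T n'))| * KK e (yy T n - yy T n') := by
        field_simp
      rw [h7]
      have h8 : yy T n - yy T n' = ord n * Real.log T / (2 * Real.pi) -
          ord n' * Real.log T / (2 * Real.pi) := rfl
      rw [← h8]
      linarith
    have h9 : e * (θ / 2 * M) ≤ 2 * e * SS := by
      have g1 : M * (θ' * e) - θ * e / 8 * M ≤ TW + 2 * e * SS := by linarith
      have g2 : e * (7 * θ / 8 * M) ≤ M * (θ' * e) := by
        have : 7 * θ / 8 ≤ θ' := by rw [hθ']; linarith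
        have g3 : 0 ≤ e * M := by positivity
        nlinarith
      have g4 : e * (7 * θ / 8 * M) - θ * e / 8 * M - e * (θ / 4 * M) = e * (θ / 2 * M) := by ring
      linarith
    have h10 : e * (θ / 2 * M) = 2 * e * (κ * M) := by rw [hκ]; ring
    rw [h10] at h9
    exact le_of_mul_le_mul_left h9 (by positivity)

end H177.Lat
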