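import Pool.Agent.H177R3.CosC

/-! Coset exclusion: transfer to the unfolded gaps, and the first `N` gaps. -/

open Complex Filter Topology Set MeasureTheory

namespace H177.Lat

open H370 hiding PP
open H370.A3 SP H370.A2
open SG (ord NZ zmult ZS)

theorem almost_bad4 (hRH : RiemannHypothesis) (θ α : ℝ) (hθ : 0 < θ) (hθ1 : θ ≤ 1) :
    ∃ c ε δ : ℝ, 0 < c ∧ 0 < ε ∧ 0 < δ ∧ ∃ T0 : ℝ, 100 ≤ T0 ∧ ∀ T : ℝ, T0 ≤ T →
      volume {t : ℝ | t ∈ Set.Icc T (2 * T) ∧
        ¬ (c * (T / 8 * Real.log T / (2 * Real.pi)) ≤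
          ((Bad (NZ t) (NZ (t + T / 8)) θ ε (vv α T)).card : ℝ))} ≤
        ENNReal.ofReal (T ^ (1 - δ)) := by
  by_cases hd : ee (θ * α) = 1
  · obtain ⟨m, hm⟩ : ∃ m : ℤ, θ * α = m := by
      unfold ee at hd
      rw [Complex.exp_eq_one_iff] at hd
      obtain ⟨m, hm⟩ := hd
      refine ⟨m, ?_⟩
      have hI : (2 * (Real.pi : ℂ) * I) ≠ 0 := Complex.two_pi_I_ne_zero
      have h1 : ((θ * α : ℝ) : ℂ) * (2 * (Real.pi : ℂ) * I) = ((m : ℝ) : ℂ) * (2 * Real.pi * I) := by
        push_cast at hm ⊢
        rw [← hm]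
        ring
      exact_mod_cast mul_right_cancel₀ hI h1
    obtain ⟨c, ε, δ, hc, hε, hδ, T0, hT0, h⟩ := almost_bad hRH (1 / 2) θ (by norm_num)
      (by norm_num) hθ (by linarith)
    obtain ⟨T1, hT1⟩ := (ev_pow (1 / 2) (by norm_num)).exists_forall_of_atTop
    refine ⟨c, ε, δ, hc, hε, hδ, max T0 T1, hT0.trans (le_max_left _ _), fun T hT => ?_⟩
    have h1 := h T ((le_max_left _ _).trans hT) (T / 8) (hT1 T ((le_max_right _ _).trans hT)) le_rfl
    have h2 : ∀ a b : ℕ, Bad a b θ ε (vv α T) = Bad a b θ ε (yy T) := by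
      intro a b
      unfold Bad
      refine Finset.filter_congr fun j _ => ?_
      have h3 : Real.pi * θ * (vv α T (j + 1) - vv α T j) =
          Real.pi * θ * (yy T (j + 1) - yy T j) - m * Real.pi := by
        unfold vv
        push_cast
        rw [← hm]
        ring
      have h7 : |((-1 : ℝ) ^ m)| = 1 := by
        rw [abs_zpow, abs_neg, abs_one, one_zpow]
      rw [h3, Real.sin_sub_int_mul_pi, abs_mul, h7, one_mul]
    simp only [h2]
    exact h1
  · exact almost_bad3 hRH θ α hθ hθ1 hd

/-- the unfolded gap -/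
noncomputable def del2 (n : ℕ) : ℝ :=
  (ord (n + 1) - ord n) / (2 * Real.pi) * Real.log (ord n / (2 * Real.pi))

theorem almost_delta2 (hRH : RiemannHypothesis) (θ α : ℝ) (hθ : 0 < θ) (hθ1 : θ ≤ 1) :
    ∃ c δ : ℝ, 0 < c ∧ 0 < δ ∧ ∃ T0 : ℝ, 100 ≤ T0 ∧ ∀ T : ℝ, T0 ≤ T →
      volume {t : ℝ | T ≤ t ∧ t ≤ 2 * T ∧
        ({n : ℕ | 1 ≤ n ∧ t < ord n ∧ ord n ≤ t + T / 8 ∧
          ∀ k : ℤ, c ≤ |del2 n - α - k / θ|}.ncard : ℝ) <
          c * (T / 8 * Real.log T)} ≤ ENNReal.ofReal (T ^ (1 - δ)) := by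
  have hpi := Real.pi_pos
  have hpi3 := Real.pi_gt_three
  obtain ⟨c, ε, δ, hc, hε, hδ, T0, hT0, h⟩ := almost_bad4 hRH θ α hθ hθ1
  set U : ℝ := 2 / c with hU
  have hU0 : 0 < U := by positivity
  set ε' : ℝ := ε / (2 * Real.pi * θ) with hε'
  have hε'0 : 0 < ε' := by positivity
  obtain ⟨T1, hT1⟩ := (Real.tendsto_log_atTop.eventually_ge_atTop
    (6 * U / ε')).exists_forall_of_atTop
  set c' : ℝ := min ε' (c / (4 * Real.pi)) with hc'
  have hc'0 : 0 < c' := lt_min hε'0 (by positivity)
  refine ⟨c', δ, hc'0, hδ, max T0 T1, hT0.trans (le_max_left _ _), fun T hT =>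
    (measure_mono ?_).trans (h T ((le_max_left _ _).trans hT))⟩
  set H : ℝ := T / 8 with hHdef
  have hT100 : 100 ≤ T := (hT0.trans (le_max_left _ _)).trans hT
  have hL1 := hT1 T ((le_max_right _ _).trans hT)
  have hTpos : 0 < T := by linarith
  have hLpos : 0 < Real.log T := Real.log_pos (by linarith)
  have hHpos : 0 < H := by rw [hHdef]; linarith
  have hH2 : H ≤ T / 8 := le_rfl
  rintro t ⟨ht1, ht2, ht3⟩
  refine ⟨⟨ht1, ht2⟩, fun hcon => ?_⟩
  set M : ℝ := H * Real.log T / (2 * Real.pi) with hM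
  have hM0 : 0 < M := by positivity
  set a := NZ t with ha
  set b := NZ (t + H) with hb
  set y := yy T with hy
  set Bd := Bad a b θ ε (vv α T) with hBd
  have hBdmem : ∀ j ∈ Bd, a < j ∧ j + 1 ≤ b ∧
      ε < |Real.sin (Real.pi * θ * (y (j + 1) - y j - α))| := by
    intro j hj
    rw [hBd, Bad, Finset.mem_filter, Finset.mem_Ioc] at hj
    have e1 : vv α T (j + 1) - vv α T j = y (j + 1) - y j - α := by
      simp only [vv, hy]
      push_cast
      ring
    rw [e1] at hj
    exact ⟨hj.1.1, hj.2.1, hj.2.2⟩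
  have hne : 0 < Bd.card := by
    have h1 : (0 : ℝ) < (Bd.card : ℝ) := lt_of_lt_of_le (by positivity) hcon
    exact_mod_cast h1
  obtain ⟨j0, hj0⟩ := Finset.card_pos.1 hne
  have hab : a + 1 ≤ b := by
    have := hBdmem j0 hj0
    omega
  have hgap0 : ∀ j, 1 ≤ j → 0 ≤ y (j + 1) - y j := by
    intro j hj
    have h2 := SG.ord_mono hj (Nat.le_succ j)
    have h3 : y (j + 1) - y j = (ord (j + 1) - ord j) * (Real.log T / (2 * Real.pi)) := by
      simp only [hy, yy]; ring
    rw [h3]
    exact mul_nonneg (by linarith) (by positivity)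
  -- total length
  have htot : ∑ j ∈ Bd, (y (j + 1) - y j) ≤ M := by
    have h1 : ∑ j ∈ Bd, (y (j + 1) - y j) ≤ ∑ j ∈ Finset.Ico (a + 1) b, (y (j + 1) - y j) := by
      apply Finset.sum_le_sum_of_subset_of_nonneg
      · intro j hj
        have := hBdmem j hj
        rw [Finset.mem_Ico]
        omega
      · intro j hj _
        rw [Finset.mem_Ico] at hj
        exact hgap0 j (by omega)
    rw [sum_gaps a b y hab] at h1
    refine h1.trans ?_
    have h2 : ord b ≤ t + H := (SG.ord_le_iff (by omega) _).mpr le_rfl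
    have h3 : t < ord (a + 1) := by
      by_contra hcon2
      push Not at hcon2
      have := (SG.ord_le_iff (by omega : 1 ≤ a + 1) t).mp hcon2
      omega
    have h4 : y b - y (a + 1) = (ord b - ord (a + 1)) * (Real.log T / (2 * Real.pi)) := by
      simp only [hy, yy]; ring
    rw [h4, hM, mul_div_assoc]
    apply mul_le_mul_of_nonneg_right _ (by positivity)
    linarith
  set Bs := Bd.filter (fun j => y (j + 1) - y j ≤ U) with hBs
  have hbig : ((Bd.filter (fun j => ¬ (y (j + 1) - y j ≤ U))).card : ℝ) * U ≤ M := by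
    refine le_trans ?_ htot
    have h1 : ∑ j ∈ Bd.filter (fun j => ¬ (y (j + 1) - y j ≤ U)), U ≤
        ∑ j ∈ Bd.filter (fun j => ¬ (y (j + 1) - y j ≤ U)), (y (j + 1) - y j) := by
      refine Finset.sum_le_sum fun j hj => ?_
      have := (Finset.mem_filter.1 hj).2
      push Not at this
      exact this.le
    rw [Finset.sum_const, nsmul_eq_mul] at h1
    refine h1.trans ?_
    apply Finset.sum_le_sum_of_subset_of_nonneg (Finset.filter_subset _ _)
    intro j hj _
    exact hgap0 j (by have := hBdmem j hj; omega)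
  have hBscard : c / 2 * M ≤ (Bs.card : ℝ) := by
    have h1 : (Bd.card : ℝ) = Bs.card + (Bd.filter (fun j => ¬ (y (j + 1) - y j ≤ U))).card := by
      rw [hBs]
      exact_mod_cast (Finset.card_filter_add_card_filter_not
        (s := Bd) (fun j => y (j + 1) - y j ≤ U)).symm
    have h2 : ((Bd.filter (fun j => ¬ (y (j + 1) - y j ≤ U))).card : ℝ) ≤ M / U := by
      rw [le_div_iff₀ hU0]; exact hbig
    have h3 : M / U = c / 2 * M := by rw [hU]; field_simp
    rw [h3] at h2
    linarith
  -- transfer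
  set S : Set ℕ := {n : ℕ | 1 ≤ n ∧ t < ord n ∧ ord n ≤ t + H ∧ ∀ k : ℤ, c' ≤ |del2 n - α - k / θ|}
    with hS
  have hSfin : S.Finite := by
    refine (Set.finite_Iic (NZ (t + H))).subset ?_
    rintro n ⟨h1, h2, h3, h4⟩
    exact (SG.ord_le_iff h1 _).mp h3
  have hsub : (Bs : Set ℕ) ⊆ S := by
    intro j hj
    rw [Finset.mem_coe, hBs, Finset.mem_filter] at hj
    obtain ⟨hj1, hj2⟩ := hj
    obtain ⟨g1, g2, g3⟩ := hBdmem j hj1
    have hj0' : 1 ≤ j := by omega
    have q1 : t < ord j := by
      by_contra hcon2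
      push Not at hcon2
      have := (SG.ord_le_iff hj0' t).mp hcon2
      omega
    have q2 : ord (j + 1) ≤ t + H := (SG.ord_le_iff (by omega) _).mpr g2
    have q3 := SG.ord_mono hj0' (Nat.le_succ j)
    have hx0 : 0 < ord j := by linarith
    have q3' : ord j ≤ ord (j + 1) := q3
    refine ⟨hj0', q1, q3'.trans q2, fun k => ?_⟩
    set u := y (j + 1) - y j with hu
    have hu0 : 0 ≤ u := hgap0 j hj0'
    have hu1 : u = (ord (j + 1) - ord j) * Real.log T / (2 * Real.pi) := by
      simp only [hu, hy, yy]; ring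
    -- comparison of the two normalisations
    have hd0 : 0 ≤ ord (j + 1) - ord j := by linarith
    have hcmp : |del2 j - u| ≤ 6 * U / Real.log T := by
      have h5 : del2 j - u = (ord (j + 1) - ord j) / (2 * Real.pi) *
          (Real.log (ord j) - Real.log (2 * Real.pi) - Real.log T) := by
        rw [hu1]
        unfold del2
        rw [Real.log_div hx0.ne' (by positivity)]
        ring
      have hlogx : Real.log T ≤ Real.log (ord j) := Real.log_le_log hTpos (by linarith)
      have hlogy : Real.log (ord j) ≤ Real.log T + 2 := by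
        have h6 : Real.log (ord j) ≤ Real.log (3 * T) :=
          Real.log_le_log hx0 (by linarith)
        rw [Real.log_mul (by norm_num) hTpos.ne'] at h6
        have h7 : Real.log 3 ≤ 2 := by
          have := Real.log_le_sub_one_of_pos (show (0 : ℝ) < 3 by norm_num)
          linarith
        linarith
      have hlp : Real.log (2 * Real.pi) ≤ 6 := by
        have := Real.log_le_sub_one_of_pos (show (0 : ℝ) < 2 * Real.pi by positivity)
        have := Real.pi_lt_d2
        linarith
      have hlp0 : 0 ≤ Real.log (2 * Real.pi) := Real.log_nonneg (by linarith)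
      have h8 : |Real.log (ord j) - Real.log (2 * Real.pi) - Real.log T| ≤ 6 := by
        rw [abs_le]
        constructor <;> linarith
      rw [h5, abs_mul, abs_of_nonneg (by positivity : 0 ≤ (ord (j + 1) - ord j) / (2 * Real.pi))]
      calc (ord (j + 1) - ord j) / (2 * Real.pi) *
            |Real.log (ord j) - Real.log (2 * Real.pi) - Real.log T| ≤
            (ord (j + 1) - ord j) / (2 * Real.pi) * 6 := by gcongr
        _ = 6 * u / Real.log T := by
          rw [hu1]
          field_simp
        _ ≤ 6 * U / Real.log T := by gcongr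
    have hsmall : 6 * U / Real.log T ≤ ε' := by
      rw [div_le_iff₀ hε'0] at hL1
      rw [div_le_iff₀ hLpos]
      linarith
    -- distance to the lattice
    have hdist : 2 * ε' ≤ |u - α - k / θ| := by
      have h5 : |Real.sin (Real.pi * θ * (u - α))| ≤ |Real.pi * θ * (u - α) - k * Real.pi| := by
        have h6 := Real.abs_sin_le_abs (x := Real.pi * θ * (u - α) - k * Real.pi)
        rw [Real.sin_sub_int_mul_pi] at h6
        rw [abs_mul] at h6
        have h7 : |((-1 : ℝ) ^ k)| = 1 := by
          rw [abs_zpow, abs_neg, abs_one, one_zpow]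
        rw [h7, one_mul] at h6
        exact h6
      have h8 : Real.pi * θ * (u - α) - k * Real.pi = Real.pi * θ * (u - α - k / θ) := by
        field_simp
      rw [h8, abs_mul, abs_of_pos (by positivity : 0 < Real.pi * θ)] at h5
      have h9 := g3.le.trans h5
      have h10 : 2 * ε' = ε / (Real.pi * θ) := by
        rw [hε']
        field_simp
      rw [h10, div_le_iff₀ (by positivity)]
      linarith
    have hfin : ε' ≤ |del2 j - α - k / θ| := by
      have h5 : |u - α - k / θ| ≤ |del2 j - α - k / θ| + |del2 j - u| := by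
        have h6 := abs_sub_le (u - α - k / θ) (del2 j - α - k / θ) 0
        have h7 : u - α - k / θ - (del2 j - α - k / θ) = -(del2 j - u) := by ring
        rw [sub_zero, sub_zero, h7, abs_neg] at h6
        linarith
      linarith
    exact (min_le_left _ _).trans hfin
  have hle := Set.ncard_le_ncard hsub hSfin
  rw [Set.ncard_coe_finset] at hle
  have hle' : (Bs.card : ℝ) ≤ (S.ncard : ℝ) := by exact_mod_cast hle
  have hfinal : c' * (H * Real.log T) ≤ c / 2 * M := by
    have h5 : c / 2 * M = c / (4 * Real.pi) * (H * Real.log T) := by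
      rw [hM]; field_simp; ring
    rw [h5]
    exact mul_le_mul_of_nonneg_right (min_le_right _ _) (by positivity)
  linarith


end H177.Lat
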