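import Pool.Agent.H177R3.CosD

/-! Coset exclusion: the first `N` gaps, uniformly in the coset. -/

open Complex Filter Topology Set MeasureTheory

namespace H177.Lat

open H370 hiding PP
open H370.A3 SP H370.A2
open SG (ord NZ zmult ZS)

/-- gaps far from the coset `α + Z/θ` -/
def WW (θ ε α : ℝ) (N : ℕ) : Set ℕ :=
  {n : ℕ | 1 ≤ n ∧ n ≤ N ∧ ∀ k : ℤ, ε ≤ |del2 n - α - k / θ|}

lemma WW_fin (θ ε α : ℝ) (N : ℕ) : (WW θ ε α N).Finite :=
  (Set.finite_Iic N).subset fun _ hn => hn.2.1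

theorem coset_one (hRH : RiemannHypothesis) (θ α : ℝ) (hθ : 0 < θ) (hθ1 : θ ≤ 1) :
    ∃ ε : ℝ, 0 < ε ∧ ∀ᶠ N : ℕ in atTop, ε * N ≤ ((WW θ ε α N).ncard : ℝ) := by
  obtain ⟨c, δ, hc, hδ, T0, hT0, h⟩ := almost_delta2 hRH θ α hθ hθ1
  have key : ∀ T : ℝ, T0 ≤ T → c / 8 * (T * Real.log T) ≤
      ({n : ℕ | 1 ≤ n ∧ ord n ≤ 3 * T ∧ ∀ k : ℤ, c ≤ |del2 n - α - k / θ|}.ncard : ℝ) := by
    intro T hTT0
    have hT100 : 100 ≤ T := hT0.trans hTT0
    have hTpos : 0 < T := by linarith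
    have h1 := h T hTT0
    -- a good point exists
    obtain ⟨t, ht1, ht2, ht3⟩ : ∃ t : ℝ, T ≤ t ∧ t ≤ 2 * T ∧ ¬
        (({n : ℕ | 1 ≤ n ∧ t < ord n ∧ ord n ≤ t + T / 8 ∧
          ∀ k : ℤ, c ≤ |del2 n - α - k / θ|}.ncard : ℝ)
          < c * (T / 8 * Real.log T)) := by
      by_contra hcon
      push Not at hcon
      have h2 : Set.Icc T (2 * T) ⊆ {t : ℝ | T ≤ t ∧ t ≤ 2 * T ∧
        ({n : ℕ | 1 ≤ n ∧ t < ord n ∧ ord n ≤ t + T / 8 ∧
          ∀ k : ℤ, c ≤ |del2 n - α - k / θ|}.ncard : ℝ) < c * (T / 8 * Real.log T)} := by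
        intro t ht
        exact ⟨ht.1, ht.2, hcon t ht.1 ht.2⟩
      have h3 := (measure_mono h2).trans h1
      rw [Real.volume_Icc, ENNReal.ofReal_le_ofReal_iff (by positivity)] at h3
      have h4 : T ^ (1 - δ) < T ^ (1 : ℝ) :=
        Real.rpow_lt_rpow_of_exponent_lt (by linarith) (by linarith)
      rw [Real.rpow_one] at h4
      linarith
    push Not at ht3
    have hsub : {n : ℕ | 1 ≤ n ∧ t < ord n ∧ ord n ≤ t + T / 8 ∧
        ∀ k : ℤ, c ≤ |del2 n - α - k / θ|} ⊆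
        {n : ℕ | 1 ≤ n ∧ ord n ≤ 3 * T ∧ ∀ k : ℤ, c ≤ |del2 n - α - k / θ|} := by
      rintro n ⟨g1, g2, g3, g4⟩
      exact ⟨g1, by linarith, g4⟩
    have hfin : {n : ℕ | 1 ≤ n ∧ ord n ≤ 3 * T ∧ ∀ k : ℤ, c ≤ |del2 n - α - k / θ|}.Finite := by
      refine (Set.finite_Iic (NZ (3 * T))).subset ?_
      rintro n ⟨g1, g2, g3⟩
      exact (SG.ord_le_iff g1 _).mp g2
    have hle : ({n : ℕ | 1 ≤ n ∧ t < ord n ∧ ord n ≤ t + T / 8 ∧
        ∀ k : ℤ, c ≤ |del2 n - α - k / θ|}.ncard : ℝ) ≤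
        ({n : ℕ | 1 ≤ n ∧ ord n ≤ 3 * T ∧ ∀ k : ℤ, c ≤ |del2 n - α - k / θ|}.ncard : ℝ) := by
      exact_mod_cast Set.ncard_le_ncard hsub hfin
    calc c / 8 * (T * Real.log T) = c * (T / 8 * Real.log T) := by ring
      _ ≤ _ := ht3.trans hle
  obtain ⟨ε', hε', hεc, hN⟩ := blocks (fun n => ∀ k : ℤ, c ≤ |del2 n - α - k / θ|) (c / 8) T0
    (by positivity) key
  refine ⟨ε', hε', ?_⟩
  filter_upwards [hN] with N hN
  refine hN.trans ?_
  have hsub : {n : ℕ | 1 ≤ n ∧ n ≤ N ∧ ∀ k : ℤ, c ≤ |del2 n - α - k / θ|} ⊆ WW θ ε' α N := by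
    rintro n ⟨g1, g2, g3⟩
    exact ⟨g1, g2, fun k => le_trans (by linarith) (g3 k)⟩
  exact_mod_cast Set.ncard_le_ncard hsub (WW_fin _ _ _ _)

lemma WW_mono {θ ε ε' α α' : ℝ} (h : ε' + |α - α'| ≤ ε) (N : ℕ) :
    WW θ ε α N ⊆ WW θ ε' α' N := by
  rintro n ⟨g1, g2, g3⟩
  refine ⟨g1, g2, fun k => ?_⟩
  have h1 := g3 k
  have h2 : |del2 n - α - k / θ| ≤ |del2 n - α' - k / θ| + |α - α'| := by
    have h3 := abs_sub_le (del2 n - α - k / θ) (del2 n - α' - k / θ) 0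
    have h4 : del2 n - α - k / θ - (del2 n - α' - k / θ) = -(α - α') := by ring
    rw [sub_zero, sub_zero, h4, abs_neg] at h3
    linarith
  linarith

/-- uniformly in the coset -/
theorem coset_all (hRH : RiemannHypothesis) (θ : ℝ) (hθ : 0 < θ) (hθ1 : θ ≤ 1) :
    ∃ ε : ℝ, 0 < ε ∧ ∀ᶠ N : ℕ in atTop, ∀ α : ℝ, ε * N ≤ ((WW θ ε α N).ncard : ℝ) := by
  have hK : ∃ ε : ℝ, 0 < ε ∧ ∀ᶠ N : ℕ in atTop, ∀ α ∈ Set.Icc (0 : ℝ) (1 / θ),
      ε * N ≤ ((WW θ ε α N).ncard : ℝ) := by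
    refine IsCompact.induction_on (isCompact_Icc (a := (0 : ℝ)) (b := 1 / θ))
      (p := fun K => ∃ ε : ℝ, 0 < ε ∧ ∀ᶠ N : ℕ in atTop, ∀ α ∈ K,
        ε * N ≤ ((WW θ ε α N).ncard : ℝ)) ?_ ?_ ?_ ?_
    · exact ⟨1, one_pos, Filter.Eventually.of_forall fun N α hα => absurd hα (Set.notMem_empty _)⟩
    · rintro s t hst ⟨ε, hε, h⟩
      exact ⟨ε, hε, h.mono fun N hN α hα => hN α (hst hα)⟩
    · rintro s t ⟨ε, hε, h⟩ ⟨ε', hε', h'⟩
      refine ⟨min ε ε', lt_min hε hε', ?_⟩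
      filter_upwards [h, h'] with N hN hN' α hα
      rcases hα with hα | hα
      · have h1 := hN α hα
        have h2 : ((WW θ ε α N).ncard : ℝ) ≤ ((WW θ (min ε ε') α N).ncard : ℝ) := by
          exact_mod_cast Set.ncard_le_ncard
            (WW_mono (by rw [sub_self, abs_zero, add_zero]; exact min_le_left _ _) N) (WW_fin _ _ _ _)
        have h3 : min ε ε' * (N : ℝ) ≤ ε * N :=
          mul_le_mul_of_nonneg_right (min_le_left _ _) (Nat.cast_nonneg _)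
        linarith
      · have h1 := hN' α hα
        have h2 : ((WW θ ε' α N).ncard : ℝ) ≤ ((WW θ (min ε ε') α N).ncard : ℝ) := by
          exact_mod_cast Set.ncard_le_ncard
            (WW_mono (by rw [sub_self, abs_zero, add_zero]; exact min_le_right _ _) N)
            (WW_fin _ _ _ _)
        have h3 : min ε ε' * (N : ℝ) ≤ ε' * N :=
          mul_le_mul_of_nonneg_right (min_le_right _ _) (Nat.cast_nonneg _)
        linarith
    · intro α _
      obtain ⟨ε, hε, h⟩ := coset_one hRH θ α hθ hθ1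
      refine ⟨Metric.ball α (ε / 2), mem_nhdsWithin_of_mem_nhds (Metric.ball_mem_nhds _
        (by positivity)), ε / 2, by positivity, ?_⟩
      filter_upwards [h] with N hN α' hα'
      rw [Metric.mem_ball, dist_comm, Real.dist_eq] at hα'
      have h2 : ((WW θ ε α N).ncard : ℝ) ≤ ((WW θ (ε / 2) α' N).ncard : ℝ) := by
        exact_mod_cast Set.ncard_le_ncard (WW_mono (by linarith) N) (WW_fin _ _ _ _)
      have h3 : ε / 2 * (N : ℝ) ≤ ε * N :=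
        mul_le_mul_of_nonneg_right (by linarith) (Nat.cast_nonneg _)
      linarith
  obtain ⟨ε, hε, h⟩ := hK
  refine ⟨ε, hε, ?_⟩
  filter_upwards [h] with N hN α
  set m : ℤ := ⌊α * θ⌋ with hm
  have h1 := hN (α - m / θ) (by
    have g1 := Int.floor_le (α * θ)
    have g2 := (Int.lt_floor_add_one (α * θ)).le
    rw [← hm] at g1 g2
    constructor
    · rw [sub_nonneg, div_le_iff₀ hθ]; exact g1
    · rw [sub_le_iff_le_add, ← add_div, le_div_iff₀ hθ]; linarith)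
  have h2 : WW θ ε (α - m / θ) N = WW θ ε α N := by
    ext n
    unfold WW
    simp only [Set.mem_ofPred_eq]
    constructor
    · rintro ⟨g1, g2, g3⟩
      refine ⟨g1, g2, fun k => ?_⟩
      have := g3 (k + m)
      have e1 : del2 n - (α - m / θ) - ((k + m : ℤ) : ℝ) / θ = del2 n - α - k / θ := by
        push_cast; ring
      rwa [e1] at this
    · rintro ⟨g1, g2, g3⟩
      refine ⟨g1, g2, fun k => ?_⟩
      have := g3 (k - m)
      have e1 : del2 n - α - ((k - m : ℤ) : ℝ) / θ = del2 n - (α - m / θ) - k / θ := by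
        push_cast; ring
      rwa [e1] at this
  rwa [h2] at h1

end H177.Lat
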