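import Mathlib

/-!
Selection principles in products of fin-unbounded sets with gamma-spaces: definitions and basic lemmas.
-/

set_option autoImplicit false

namespace Pool.Agent.H177R3.FU

open Set Filter Topology

/-- The Cantor space `P(ω)`. -/
abbrev Pw : Type := ℕ → Bool

/-- The finite subsets of `ω`. -/
def FinS : Set Pw := {x | {n | x n = true}.Finite}

/-- Open `γ`-covers. -/
def IsGamma {Z : Type} [TopologicalSpace Z] (𝒰 : Set (Set Z)) : Prop :=
  (∀ U ∈ 𝒰, IsOpen U) ∧ 𝒰.Infinite ∧ ∀ z : Z, {U ∈ 𝒰 | z ∉ U}.Finite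

/-- Open `ω`-covers. -/
def IsOmega {Z : Type} [TopologicalSpace Z] (𝒰 : Set (Set Z)) : Prop :=
  (∀ U ∈ 𝒰, IsOpen U) ∧ univ ∉ 𝒰 ∧ ∀ F : Set Z, F.Finite → ∃ U ∈ 𝒰, F ⊆ U

/-- `S₁(Γ, Ω)`. -/
def S1GO (Z : Type) [TopologicalSpace Z] : Prop :=
  ∀ 𝒰 : ℕ → Set (Set Z), (∀ n, IsGamma (𝒰 n)) →
    ∃ U : ℕ → Set Z, (∀ n, U n ∈ 𝒰 n) ∧ IsOmega (Set.range U)

/-- `S₁(Ω, Γ)`. -/
def S1OG (Z : Type) [TopologicalSpace Z] : Prop :=
  ∀ 𝒰 : ℕ → Set (Set Z), (∀ n, IsOmega (𝒰 n)) →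
    ∃ U : ℕ → Set Z, (∀ n, U n ∈ 𝒰 n) ∧ IsGamma (Set.range U)

/-- every open `ω`-cover contains a `γ`-cover -/
def GammaProp (Z : Type) [TopologicalSpace Z] : Prop :=
  ∀ 𝒰 : Set (Set Z), IsOmega 𝒰 → ∃ 𝒱 : Set (Set Z), 𝒱 ⊆ 𝒰 ∧ IsGamma 𝒱

lemma gammaProp_of_S1OG {Z : Type} [TopologicalSpace Z] (h : S1OG Z) : GammaProp Z := by
  intro 𝒰 h𝒰
  obtain ⟨U, hU, hG⟩ := h (fun _ => 𝒰) (fun _ => h𝒰)
  exact ⟨Set.range U, by rintro _ ⟨n, rfl⟩; exact hU n, hG⟩

/-- Gerlits–Nagy, in indexed form. -/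
theorem gn {Y : Type} [TopologicalSpace Y] [T1Space Y] (h : GammaProp Y) (𝒱 : ℕ → Set (Set Y))
    (hop : ∀ n, ∀ V ∈ 𝒱 n, IsOpen V)
    (hω : ∀ n, ∀ F : Set Y, F.Finite → ∃ V ∈ 𝒱 n, F ⊆ V) :
    ∃ V : ℕ → Set Y, (∀ n, V n ∈ 𝒱 n) ∧ ∀ y, ∀ᶠ n in atTop, y ∈ V n := by
  classical
  rcases finite_or_infinite Y with hfin | hinf
  · choose V hV hV2 using fun n => hω n univ finite_univ
    exact ⟨V, hV, fun y => Eventually.of_forall fun n => hV2 n (mem_univ y)⟩
  · let y := Infinite.natEmbedding Y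
    let 𝒲 : Set (Set Y) := {W | ∃ (n : ℕ) (f : ℕ → Set Y), (∀ i, f i ∈ 𝒱 i) ∧
      W = (⋂ i ∈ Finset.range (n + 1), f i) \ {y n}}
    have hW : IsOmega 𝒲 := by
      refine ⟨?_, ?_, ?_⟩
      · rintro W ⟨n, f, hf, rfl⟩
        exact (isOpen_biInter_finset fun i _ => hop i _ (hf i)).sdiff isClosed_singleton
      · rintro ⟨n, f, hf, hW⟩
        have : y n ∈ (univ : Set Y) := mem_univ _
        rw [hW] at this
        exact this.2 rfl
      · intro F hF
        obtain ⟨n, hn⟩ : ∃ n, y n ∉ F := by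
          by_contra hcon
          push Not at hcon
          exact Set.infinite_range_of_injective y.injective
            (hF.subset (by rintro _ ⟨n, rfl⟩; exact hcon n))
        choose f hf hf2 using fun i => hω i F hF
        refine ⟨_, ⟨n, f, hf, rfl⟩, ?_⟩
        intro z hz
        refine ⟨mem_iInter₂.2 fun i _ => hf2 i hz, ?_⟩
        rintro rfl
        exact hn hz
    obtain ⟨𝒢, hG, -, hGinf, hGγ⟩ := h 𝒲 hW
    choose! n f hf hWf using fun W (hW : W ∈ 𝒢) => (hG hW)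
    have hbig : ∀ N : ℕ, ∃ W ∈ 𝒢, N ≤ n W := by
      intro N
      by_contra hcon
      push Not at hcon
      apply hGinf
      have : 𝒢 ⊆ ⋃ i ∈ Finset.range N, {U ∈ 𝒢 | y i ∉ U} := by
        intro W hW
        refine mem_iUnion₂.2 ⟨n W, Finset.mem_range.2 (hcon W hW), hW, ?_⟩
        intro hmem
        exact ((hWf W hW).subset hmem).2 rfl
      exact (Set.Finite.biUnion (Finset.finite_toSet _) (fun i _ => hGγ (y i))).subset this
    choose W hWG hWn using hbig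
    refine ⟨fun j => f (W j) j, fun j => hf (W j) (hWG j) j, fun z => ?_⟩
    have hfin := hGγ z
    obtain ⟨N, hN⟩ : ∃ N, ∀ V ∈ {U ∈ 𝒢 | z ∉ U}, n V ≤ N := by
      obtain ⟨N, hN⟩ := (hfin.image n).bddAbove
      exact ⟨N, fun V hV => hN ⟨V, hV, rfl⟩⟩
    filter_upwards [eventually_gt_atTop N] with j hj
    by_contra hz
    have hzW : z ∉ W j := by
      intro hzW
      have hzW' := (hWf (W j) (hWG j)).subset hzW
      exact hz (mem_iInter₂.1 hzW'.1 j (Finset.mem_range.2 (Nat.lt_succ_of_le (hWn j))))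
    have := hN (W j) ⟨hWG j, hzW⟩
    have := hWn j
    omega

/-- the indexed form of `S₁(Γ, Ω)` -/
def HS (Z : Type) [TopologicalSpace Z] : Prop :=
  ∀ T : ℕ → ℕ → Set Z, (∀ n i, IsOpen (T n i)) → (∀ n p, ∀ᶠ i in atTop, p ∈ T n i) →
    ∃ k : ℕ → ℕ, ∀ H : Set Z, H.Finite → ∃ n, H ⊆ T n (k n)

lemma HS_of_S1GO {Z : Type} [TopologicalSpace Z] (h : S1GO Z) : HS Z := by
  classical
  intro T hT hγ
  by_cases hex : ∃ n i, T n i = univ
  · obtain ⟨n, i, hni⟩ := hex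
    exact ⟨fun _ => i, fun H _ => ⟨n, by rw [hni]; exact subset_univ _⟩⟩
  · push Not at hex
    have hgam : ∀ n, IsGamma (Set.range (T n)) := by
      intro n
      refine ⟨?_, ?_, ?_⟩
      · rintro _ ⟨i, rfl⟩; exact hT n i
      · intro hfin
        have hinf : (univ : Set ℕ).Infinite := Set.infinite_univ
        obtain ⟨V, hV⟩ : ∃ V, {i | T n i = V}.Infinite := by
          by_contra hcon
          push Not at hcon
          apply hinf
          have : (univ : Set ℕ) ⊆ ⋃ V ∈ Set.range (T n), {i | T n i = V} := by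
            intro i _
            exact mem_iUnion₂.2 ⟨T n i, ⟨i, rfl⟩, rfl⟩
          exact (hfin.biUnion fun V _ => by simpa using hcon V).subset this
        obtain ⟨i₀, hi₀⟩ := hV.nonempty
        apply hex n i₀
        rw [eq_univ_iff_forall]
        intro p
        obtain ⟨N, hN⟩ := eventually_atTop.1 (hγ n p)
        obtain ⟨i, hi, hiN⟩ := hV.exists_gt N
        have h1 : T n i = V := hi
        have h2 : T n i₀ = V := hi₀
        rw [h2, ← h1]
        exact hN i hiN.le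
      · intro p
        have h1 : {i | p ∉ T n i}.Finite := by
          have := hγ n p
          rw [← Nat.cofinite_eq_atTop] at this
          exact this
        refine (h1.image (T n)).subset ?_
        rintro _ ⟨⟨i, rfl⟩, hi⟩
        exact ⟨i, hi, rfl⟩
    obtain ⟨U, hU, -, -, hΩ⟩ := h (fun n => Set.range (T n)) hgam
    choose k hk using hU
    refine ⟨k, fun H hH => ?_⟩
    obtain ⟨_, ⟨n, rfl⟩, hn⟩ := hΩ H hH
    exact ⟨n, by rw [hk n]; exact hn⟩

lemma HS.strong {Z : Type} [TopologicalSpace Z] (h : HS Z) (T : ℕ → ℕ → Set Z)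
    (hT : ∀ n i, IsOpen (T n i)) (hγ : ∀ n p, ∀ᶠ i in atTop, p ∈ T n i) :
    ∃ k : ℕ → ℕ, (∀ n, n ≤ k n) ∧ ∀ H : Set Z, H.Finite → ∃ᶠ n in atTop, H ⊆ T n (k n) := by
  choose k hk using fun l : ℕ => h (fun m i => T (Nat.pair l m) (i + Nat.pair l m))
    (fun m i => hT _ _) (fun m p => by
      have := hγ (Nat.pair l m) p
      exact (tendsto_add_atTop_nat (Nat.pair l m)).eventually this)
  refine ⟨fun n => k n.unpair.1 n.unpair.2 + n, fun n => Nat.le_add_left _ _, fun H hH => ?_⟩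
  rw [frequently_atTop]
  intro N
  obtain ⟨m, hm⟩ := hk N H hH
  refine ⟨Nat.pair N m, Nat.left_le_pair N m, ?_⟩
  simpa using hm

/-- the tube lemma with selection -/
theorem tube {Y : Type} [TopologicalSpace Y] [T1Space Y] (h : GammaProp Y) {Z : Set Pw}
    (hZ : FinS ⊆ Z) (U : ℕ → Set (Z × Y)) (hU : ∀ j, IsOpen (U j))
    (hγ : ∀ p, ∀ᶠ j in atTop, p ∈ U j) :
    ∃ (j h : ℕ → ℕ) (V : ℕ → Set Y), (∀ i, i ≤ j i) ∧ (∀ i, IsOpen (V i)) ∧
      (∀ y, ∀ᶠ i in atTop, y ∈ V i) ∧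
      ∀ i, ∀ y ∈ V i, ∀ x : Z, (∀ a, i ≤ a → a < h i → x.1 a = false) → (x, y) ∈ U (j i) := by
  classical
  let 𝒱 : ℕ → Set (Set Y) := fun i => {V | IsOpen V ∧ ∃ j m : ℕ, i ≤ j ∧ ∀ y ∈ V, ∀ x : Z,
    (∀ a, i ≤ a → a < m → x.1 a = false) → (x, y) ∈ U j}
  obtain ⟨V, hV, hVγ⟩ := gn h 𝒱 (fun i V hV => hV.1) (by
    intro i G hG
    -- the finitely many finite sets contained in `i`
    let P : Set Pw := {t | ∀ a, i ≤ a → t a = false}
    have hP : P.Finite := by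
      let φ : (Fin i → Bool) → Pw := fun u a => if ha : a < i then u ⟨a, ha⟩ else false
      refine (Set.finite_range φ).subset ?_
      intro t ht
      refine ⟨fun a => t a, ?_⟩
      funext a
      by_cases ha : a < i
      · simp [φ, ha]
      · simp [φ, ha, ht a (not_lt.1 ha)]
    have hPF : ∀ t ∈ P, t ∈ Z := by
      intro t ht
      apply hZ
      refine (Set.finite_lt_nat i).subset ?_
      intro a ha
      by_contra hcon
      have := ht a (not_lt.1 hcon)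
      have ha' : t a = true := ha
      rw [this] at ha'
      exact Bool.false_ne_true ha'
    obtain ⟨j, hj, hij⟩ : ∃ j, (∀ t (ht : t ∈ P), ∀ y ∈ G, ((⟨t, hPF t ht⟩ : Z), y) ∈ U j) ∧
        i ≤ j := by
      have h1 : ∀ᶠ j in atTop, ∀ t ∈ P, ∀ y ∈ G, ∀ (ht : t ∈ P),
          ((⟨t, hPF t ht⟩ : Z), y) ∈ U j := by
        rw [hP.eventually_all]
        intro t ht
        rw [hG.eventually_all]
        intro y hy
        filter_upwards [hγ (⟨t, hPF t ht⟩, y)] with j hj ht'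
        exact hj
      obtain ⟨j, hj, hij⟩ := (h1.and (eventually_ge_atTop i)).exists
      exact ⟨j, fun t ht y hy => hj t ht y hy ht, hij⟩
    -- neighbourhoods
    have hnb : ∀ t, t ∈ P → ∀ y, y ∈ G → ∃ (m : ℕ) (V : Set Y), IsOpen V ∧ y ∈ V ∧
        ∀ x : Z, (∀ a < m, x.1 a = t a) → ∀ y' ∈ V, (x, y') ∈ U j := by
      intro t ht y hy
      have h1 : U j ∈ 𝓝 ((⟨t, hPF t ht⟩ : Z), y) := (hU j).mem_nhds (hj t ht y hy)
      rw [mem_nhds_prod_iff'] at h1
      obtain ⟨A, B, hA, htA, hB, hyB, hAB⟩ := h1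
      rw [isOpen_induced_iff] at hA
      obtain ⟨A', hA', rfl⟩ := hA
      have htA' : t ∈ A' := htA
      obtain ⟨I, u, hu, hsub⟩ := isOpen_pi_iff.1 hA' t htA'
      refine ⟨I.sup id + 1, B, hB, hyB, ?_⟩
      intro x hx y' hy'
      apply hAB
      refine ⟨?_, hy'⟩
      apply hsub
      intro a ha
      have : x.1 a = t a := hx a (Nat.lt_succ_of_le (Finset.le_sup (f := id) ha))
      rw [this]
      exact (hu a ha).2
    choose! m B hB hyB hmB using hnb
    obtain ⟨M, hM⟩ : ∃ M, ∀ t ∈ P, ∀ y ∈ G, m t y ≤ M := by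
      obtain ⟨M, hM⟩ := ((hP.prod hG).image (fun q => m q.1 q.2)).bddAbove
      exact ⟨M, fun t ht y hy => hM ⟨(t, y), ⟨ht, hy⟩, rfl⟩⟩
    refine ⟨⋃ y ∈ G, ⋂ t ∈ P, B t y, ⟨?_, j, M, hij, ?_⟩, ?_⟩
    · exact isOpen_biUnion fun y hy => hP.isOpen_biInter fun t ht => hB t ht y hy
    · intro y' hy' x hx
      obtain ⟨y, hy, hy'⟩ := mem_iUnion₂.1 hy'
      let t : Pw := fun a => if a < i then x.1 a else false
      have ht : t ∈ P := by
        intro a ha
        simp [t, not_lt.2 ha]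
      have h2 := mem_iInter₂.1 hy' t ht
      apply hmB t ht y hy x _ y' h2
      intro a ha
      by_cases hai : a < i
      · simp [t, hai]
      · simp only [t, hai, if_false]
        exact hx a (not_lt.1 hai) (lt_of_lt_of_le ha (hM t ht y hy))
    · intro y hy
      exact mem_iUnion₂.2 ⟨y, hy, mem_iInter₂.2 fun t ht => hyB t ht y hy⟩)
  choose hVo j m hij hVm using hV
  exact ⟨j, m, V, hij, hVo, hVγ, hVm⟩

end Pool.Agent.H177R3.FU
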