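import Mathlib
import Pool.Agent.H177R3.FU1

set_option autoImplicit false

namespace Pool.Agent.H177R3.FU

open Set Filter Topology

/-- `κ`-fin-unbounded sets (interval form). -/
def FinUnb (κ : Cardinal.{0}) (X : Set Pw) : Prop :=
  (∀ x ∈ X, {n | x n = true}.Infinite) ∧ κ ≤ Cardinal.mk X ∧
    ∀ d : ℕ → ℕ, StrictMono d → ∃ S : Set Pw, S ⊆ X ∧ Cardinal.mk S < κ ∧
      ∀ F : Set Pw, F.Finite → F ⊆ X \ S →
        ∃ᶠ j in atTop, ∀ x ∈ F, ∀ a, d j ≤ a → a < d (j + 1) → x a = false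

variable {Y : Type} [TopologicalSpace Y] [T1Space Y]

/-- one stage of the construction -/
theorem stage (hY : GammaProp Y) {κ : Cardinal.{0}} (hκ : κ.IsRegular) {X : Set Pw}
    (hX : FinUnb κ X) (S : Set Pw) (hSX : S ⊆ X) (hSne : S.Nonempty) (hSκ : Cardinal.mk S < κ)
    (hHS : HS (S × Y)) (U : ℕ → ℕ → Set ((X ∪ FinS : Set Pw) × Y)) (hU : ∀ n i, IsOpen (U n i))
    (hγ : ∀ n p, ∀ᶠ i in atTop, p ∈ U n i) :
    ∃ (k : ℕ → ℕ) (S' : Set Pw), S' ⊆ X ∧ S ⊆ S' ∧ Cardinal.mk S' < κ ∧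
      ∀ H : Set ((X ∪ FinS : Set Pw) × Y), H.Finite → (∀ p ∈ H, p.1.1 ∈ S ∨ p.1.1 ∉ S') →
        ∃ n, H ⊆ U n (k n) := by
  classical
  choose j h V hij hVo hVγ hVU using fun n => tube hY (subset_union_right) (U n) (hU n) (hγ n)
  have hSZ : ∀ x ∈ S, x ∈ X ∪ FinS := fun x hx => Or.inl (hSX hx)
  let T : ℕ → ℕ → Set (S × Y) := fun n i =>
    {p | ((⟨p.1.1, hSZ p.1.1 p.1.2⟩ : (X ∪ FinS : Set Pw)), p.2) ∈ U n (j n i) ∧ p.2 ∈ V n i}
  have hTo : ∀ n i, IsOpen (T n i) := by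
    intro n i
    refine IsOpen.inter ?_ ?_
    · have hc : Continuous (fun p : S × Y =>
          ((⟨p.1.1, hSZ p.1.1 p.1.2⟩ : (X ∪ FinS : Set Pw)), p.2)) := by fun_prop
      exact (hU n (j n i)).preimage hc
    · exact (hVo n i).preimage continuous_snd
  have hjt : ∀ n, Tendsto (j n) atTop atTop := fun n => tendsto_atTop_mono (hij n) tendsto_id
  have hTγ : ∀ n p, ∀ᶠ i in atTop, p ∈ T n i := by
    intro n p
    filter_upwards [(hjt n).eventually (hγ n (⟨p.1.1, hSZ p.1.1 p.1.2⟩, p.2)), hVγ n p.2]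
      with i h1 h2
    exact ⟨h1, h2⟩
  obtain ⟨k, hnk, hk⟩ := hHS.strong T hTo hTγ
  obtain ⟨s₁, hs₁⟩ := hSne
  -- the sequences
  have hν : ∀ F : Finset S, ∃ ν : ℕ → ℕ, (∀ N, N ≤ ν N) ∧
      ∀ y : Y, ∀ᶠ N in atTop, ∀ s ∈ insert ⟨s₁, hs₁⟩ F, (s, y) ∈ T (ν N) (k (ν N)) := by
    intro F
    let E : ℕ → Set Y := fun n => {y | ∀ s ∈ insert ⟨s₁, hs₁⟩ F, (s, y) ∈ T n (k n)}
    have hE : ∀ n, IsOpen (E n) := by
      intro n
      have : E n = ⋂ s ∈ insert ⟨s₁, hs₁⟩ F, {y | (s, y) ∈ T n (k n)} := by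
        ext y; simp [E]
      rw [this]
      refine isOpen_biInter_finset fun s _ => ?_
      exact (hTo n (k n)).preimage (by fun_prop)
    obtain ⟨W, hW, hWγ⟩ := gn hY (fun N => {W | ∃ n, N ≤ n ∧ W = E n})
      (by rintro N W ⟨n, -, rfl⟩; exact hE n) (by
        intro N G hG
        have hfin : ((fun q : S × Y => q) '' ((insert (⟨s₁, hs₁⟩ : S) F : Finset S) ×ˢ G :
            Set (S × Y))).Finite :=
          ((Finset.finite_toSet _).prod hG).image _
        obtain ⟨n, hnN, hn⟩ := (frequently_atTop.1 (hk _ hfin)) N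
        refine ⟨E n, ⟨n, hnN, rfl⟩, fun y hy s hs => hn ⟨(s, y), ⟨hs, hy⟩, rfl⟩⟩)
    choose ν hνN hνE using hW
    refine ⟨ν, hνN, fun y => ?_⟩
    filter_upwards [hWγ y] with N hN
    rw [hνE N] at hN
    exact hN
  choose ν hνN hνγ using hν
  -- the interval sequences
  let d : Finset S → ℕ → ℕ := fun F i => Nat.rec 0
    (fun _ dj => max (h (ν F dj) (k (ν F dj))) (dj + 1)) i
  have hd_succ : ∀ F i, d F (i + 1) =
      max (h (ν F (d F i)) (k (ν F (d F i)))) (d F i + 1) := fun F i => rfl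
  have hdm : ∀ F, StrictMono (d F) := by
    intro F
    refine strictMono_nat_of_lt_succ fun i => ?_
    rw [hd_succ]
    exact lt_of_lt_of_le (Nat.lt_succ_self _) (le_max_right _ _)
  choose SF hSFX hSFκ hSFu using fun F => hX.2.2 (d F) (hdm F)
  have hω := hκ.aleph0_le
  have hcard : Cardinal.mk (Finset S) < κ := by
    rcases finite_or_infinite S with hf | hi
    · exact lt_of_lt_of_le (Cardinal.lt_aleph0_of_finite _) hω
    · rw [Cardinal.mk_finset_of_infinite]; exact hSκ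
  refine ⟨fun n => j n (k n), S ∪ ⋃ F : Finset S, SF F, ?_, subset_union_left, ?_, ?_⟩
  · exact union_subset hSX (iUnion_subset hSFX)
  · refine lt_of_le_of_lt (Cardinal.mk_union_le _ _) ?_
    refine Cardinal.add_lt_of_lt hω hSκ ?_
    exact (Cardinal.card_iUnion_lt_iff_forall_of_isRegular hκ hcard).2 hSFκ
  · intro H hH hHS'
    -- the finite set of first coordinates in `S`
    let A : Set Pw := (fun p : (X ∪ FinS : Set Pw) × Y => p.1.1) '' H
    have hA : A.Finite := hH.image _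
    let F : Finset S := (hA.preimage (f := fun s : S => s.1)
      (Subtype.val_injective.injOn)).toFinset
    have hF : ∀ s : S, s ∈ F ↔ s.1 ∈ A := by
      intro s; simp [F]
    let B : Set Pw := {x ∈ A | x ∈ X ∧ x ∉ S ∪ ⋃ F : Finset S, SF F}
    have hB : B.Finite := hA.subset (sep_subset _ _)
    have hB2 : B ⊆ X \ SF F := by
      intro x hx
      refine ⟨hx.2.1, fun hcon => hx.2.2 (Or.inr (mem_iUnion.2 ⟨F, hcon⟩))⟩
    have hfreq := hSFu F B hB hB2
    have hdt : Tendsto (d F) atTop atTop := (hdm F).tendsto_atTop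
    -- eventually conditions
    have e1 : ∀ᶠ i in atTop, ∀ p ∈ H, ∀ s ∈ insert ⟨s₁, hs₁⟩ F,
        (s, p.2) ∈ T (ν F (d F i)) (k (ν F (d F i))) := by
      rw [hH.eventually_all]
      intro p _
      exact hdt.eventually (hνγ F p.2)
    have e2 : ∀ᶠ i in atTop, ∀ p ∈ H, p.1.1 ∈ FinS → ∀ a, d F i ≤ a → p.1.1 a = false := by
      rw [hH.eventually_all]
      intro p _
      by_cases hp : p.1.1 ∈ FinS
      · obtain ⟨M, hM⟩ := (show {n | p.1.1 n = true}.Finite from hp).bddAbove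
        filter_upwards [hdt.eventually_gt_atTop M] with i hi _ a ha
        by_contra hcon
        have : a ≤ M := hM (show p.1.1 a = true by simpa using hcon)
        omega
      · exact Eventually.of_forall fun i hcon => absurd hcon hp
    obtain ⟨i, hi, hi1, hi2⟩ := (hfreq.and_eventually (e1.and e2)).exists
    set n := ν F (d F i) with hn
    have hkn : d F i ≤ k n := (hνN F (d F i)).trans (hnk n)
    have hhn : h n (k n) ≤ d F (i + 1) := by
      rw [hd_succ]; exact le_max_left _ _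
    refine ⟨n, fun p hp => ?_⟩
    have hs1 := hi1 p hp ⟨s₁, hs₁⟩ (Finset.mem_insert_self _ _)
    rcases hHS' p hp with hpS | hpS
    · have := hi1 p hp ⟨p.1.1, hpS⟩ (Finset.mem_insert_of_mem ((hF _).2 ⟨p, hp, rfl⟩))
      exact this.1
    · have hz : ∀ a, k n ≤ a → a < h n (k n) → p.1.1 a = false := by
        intro a ha1 ha2
        rcases p.1.2 with hpX | hpF
        · exact hi p.1.1 ⟨⟨p, hp, rfl⟩, hpX, hpS⟩ a (hkn.trans ha1) (lt_of_lt_of_le ha2 hhn)
        · exact hi2 p hp hpF a (hkn.trans ha1)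
      exact hVU n (k n) p.2 hs1.2 p.1 hz

/-- Main theorem: reduction to the small subsets. -/
theorem main (hY : GammaProp Y) {κ : Cardinal.{0}} (hκ : κ.IsRegular) {X : Set Pw}
    (hX : FinUnb κ X)
    (hHS : ∀ S : Set Pw, S ⊆ X → Cardinal.mk S < κ → HS (S × Y)) :
    S1GO ((X ∪ FinS : Set Pw) × Y) := by
  classical
  intro 𝒰 h𝒰
  -- enumerate
  have henum : ∀ n, ∃ U : ℕ → Set ((X ∪ FinS : Set Pw) × Y), (∀ i, U i ∈ 𝒰 n) ∧
      (∀ i, U i ≠ univ) ∧ ∀ p, ∀ᶠ i in atTop, p ∈ U i := by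
    intro n
    obtain ⟨-, hinf, hfin⟩ := h𝒰 n
    have hinf' : (𝒰 n \ {univ}).Infinite := hinf.sdiff (finite_singleton _)
    let e := Set.Infinite.natEmbedding _ hinf'
    refine ⟨fun i => (e i).1, fun i => (e i).2.1, fun i hi => (e i).2.2 hi, fun p => ?_⟩
    rw [← Nat.cofinite_eq_atTop]
    have hinj : Function.Injective (fun i => (e i).1) :=
      Subtype.val_injective.comp e.injective
    have : {i | p ∉ (e i).1} = (fun i => (e i).1) ⁻¹' {U ∈ 𝒰 n | p ∉ U} := by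
      ext i
      exact ⟨fun hi => ⟨(e i).2.1, hi⟩, fun hi => hi.2⟩
    change {i | ¬ p ∈ (e i).1}.Finite
    rw [this]
    exact (hfin p).preimage hinj.injOn
  choose U hU𝒰 hUne hUγ using henum
  have hUo : ∀ n i, IsOpen (U n i) := fun n i => (h𝒰 n).1 _ (hU𝒰 n i)
  have hω := hκ.aleph0_le
  -- the stages
  let St := {S : Set Pw // S ⊆ X ∧ S.Nonempty ∧ Cardinal.mk S < κ}
  have hst : ∀ (i : ℕ) (S : St), ∃ (k : ℕ → ℕ) (S' : St), S.1 ⊆ S'.1 ∧
      ∀ H : Set ((X ∪ FinS : Set Pw) × Y), H.Finite → (∀ p ∈ H, p.1.1 ∈ S.1 ∨ p.1.1 ∉ S'.1) →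
        ∃ m, H ⊆ U (Nat.pair i m) (k m) := by
    intro i S
    obtain ⟨k, S', h1, h2, h3, h4⟩ := stage hY hκ hX S.1 S.2.1 S.2.2.1 S.2.2.2
      (hHS S.1 S.2.1 S.2.2.2) (fun m => U (Nat.pair i m)) (fun m => hUo _) (fun m => hUγ _)
    exact ⟨k, ⟨S', h1, S.2.2.1.mono h2, h3⟩, h2, h4⟩
  choose k nx hnx hk using hst
  have hXne : X.Nonempty := by
    rw [← Set.nonempty_coe_sort, ← Cardinal.mk_ne_zero_iff]
    exact (lt_of_lt_of_le Cardinal.aleph0_pos (hω.trans hX.2.1)).ne'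
  obtain ⟨x₁, hx₁⟩ := hXne
  let S₀ : St := ⟨{x₁}, by simpa using hx₁, singleton_nonempty _, by
    rw [Cardinal.mk_singleton]
    exact lt_of_lt_of_le Cardinal.one_lt_aleph0 hω⟩
  let S : ℕ → St := fun i => Nat.rec S₀ (fun i s => nx i s) i
  have hS_succ : ∀ i, S (i + 1) = nx i (S i) := fun i => rfl
  have hSmono : Monotone (fun i => (S i).1) := by
    refine monotone_nat_of_le_succ fun i => ?_
    rw [hS_succ]
    exact hnx i (S i)
  refine ⟨fun n => U n (k n.unpair.1 (S n.unpair.1) n.unpair.2), fun n => hU𝒰 n _, ?_, ?_, ?_⟩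
  · rintro _ ⟨n, rfl⟩
    exact hUo _ _
  · rintro ⟨n, hn⟩
    exact hUne _ _ hn
  · intro H hH
    obtain ⟨i, hi⟩ : ∃ i, ∀ p ∈ H, p.1.1 ∈ (S i).1 ∨ p.1.1 ∉ (S (i + 1)).1 := by
      by_contra hcon
      push Not at hcon
      -- each `i` has a bad point
      choose p hpH hp1 hp2 using hcon
      have hinj : Function.Injective p := by
        intro i i' hii
        by_contra hne
        rcases Nat.lt_or_gt_of_ne hne with hlt | hlt
        · have := hSmono (Nat.succ_le_of_lt hlt) (hp2 i)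
          rw [hii] at this
          exact hp1 i' this
        · have := hSmono (Nat.succ_le_of_lt hlt) (hp2 i')
          rw [← hii] at this
          exact hp1 i this
      exact Set.infinite_range_of_injective hinj
        (hH.subset (by rintro _ ⟨i, rfl⟩; exact hpH i))
    obtain ⟨m, hm⟩ := hk i (S i) H hH (by rw [← hS_succ]; exact hi)
    refine ⟨_, ⟨Nat.pair i m, rfl⟩, ?_⟩
    simpa using hm

end Pool.Agent.H177R3.FU
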