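import Mathlib
import Pool.Agent.H177R3.FU2

set_option autoImplicit false

namespace Pool.Agent.H177R3.FU

open Set Filter Topology

/-- infinitely often equal functions for families indexed by `ι` -/
def Catch (ι : Type) : Prop := ∀ a : ι → ℕ → ℕ, ∃ k : ℕ → ℕ, ∀ i, ∃ᶠ n in atTop, k n = a i n

lemma catch_of_countable (ι : Type) [Countable ι] : Catch ι := by
  intro a
  rcases isEmpty_or_nonempty ι with h | h
  · exact ⟨fun _ => 0, fun i => (h.false i).elim⟩
  · obtain ⟨e, he⟩ := exists_surjective_nat ι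
    refine ⟨fun n => a (e n.unpair.1) n, fun i => ?_⟩
    obtain ⟨l, rfl⟩ := he i
    rw [frequently_atTop]
    intro N
    exact ⟨Nat.pair l N, Nat.right_le_pair l N, by simp⟩

/-- `κ ≤ cov(M)`: fewer than `κ` meager sets do not cover the Baire space. -/
def LeCovM (κ : Cardinal.{0}) : Prop :=
  ∀ 𝒞 : Set (Set (ℕ → ℕ)), Cardinal.mk 𝒞 < κ → (∀ M ∈ 𝒞, IsMeagre M) → ⋃₀ 𝒞 ≠ univ

lemma catch_of_leCovM {κ : Cardinal.{0}} (h : LeCovM κ) (ι : Type) (hι : Cardinal.mk ι < κ) :
    Catch ι := by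
  classical
  intro a
  let M : ι → Set (ℕ → ℕ) := fun i => {k | ¬ ∃ᶠ n in atTop, k n = a i n}
  have hM : ∀ i, IsMeagre (M i) := by
    intro i
    have h1 : (M i)ᶜ = ⋂ N : ℕ, {k : ℕ → ℕ | ∃ n, N ≤ n ∧ k n = a i n} := by
      ext k
      simp only [M, mem_compl_iff, mem_iInter, frequently_atTop]
      constructor
      · intro h2 N
        have h3 : ¬ ¬ ∀ (a_1 : ℕ), ∃ b, a_1 ≤ b ∧ k b = a i b := by
          intro h4; exact h2 h4
        exact not_not.1 h3 N
      · intro h2 h3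
        exact h3 h2
    rw [IsMeagre, h1]
    refine countable_iInter_mem.2 fun N => ?_
    have h2 : {k : ℕ → ℕ | ∃ n, N ≤ n ∧ k n = a i n} = ⋃ n ∈ Ici N, {k : ℕ → ℕ | k n = a i n} := by
      ext k; simp
    refine residual_of_dense_open ?_ ?_
    · rw [h2]
      refine isOpen_biUnion fun n _ => ?_
      have hc : Continuous (fun k : ℕ → ℕ => k n) := continuous_apply n
      exact (isOpen_discrete ({a i n} : Set ℕ)).preimage hc
    · rw [dense_iff_inter_open]
      intro O hO ⟨k₀, hk₀⟩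
      obtain ⟨I, u, hu, hsub⟩ := isOpen_pi_iff.1 hO k₀ hk₀
      obtain ⟨n, hn⟩ : ∃ n, n ∉ I ∧ N ≤ n := by
        refine ⟨max N (I.sup id + 1), ?_, le_max_left _ _⟩
        intro hmem
        have := Finset.le_sup (f := id) hmem
        simp only [id] at this
        omega
      refine ⟨Function.update k₀ n (a i n), hsub ?_, n, hn.2, by simp⟩
      intro b hb
      have hbn : b ≠ n := fun hbn => hn.1 (hbn ▸ hb)
      rw [Function.update_of_ne hbn]
      exact (hu b hb).2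
  have h1 := h (Set.range M) (lt_of_le_of_lt Cardinal.mk_range_le hι)
    (by rintro _ ⟨i, rfl⟩; exact hM i)
  obtain ⟨k, hk⟩ := (Set.ne_univ_iff_exists_notMem _).1 h1
  refine ⟨k, fun i => ?_⟩
  by_contra hcon
  exact hk ⟨M i, ⟨i, rfl⟩, hcon⟩

variable {Y : Type} [TopologicalSpace Y] [T1Space Y]

/-- products with small factors -/
theorem HS_of_catch (hY : GammaProp Y) {S : Type} [TopologicalSpace S] (hS : Catch (Finset S)) :
    HS (S × Y) := by
  classical
  intro T hT hγ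
  have ha : ∀ F : Finset S, ∃ a : ℕ → ℕ, ∀ y : Y, ∀ᶠ n in atTop, ∀ s ∈ F, (s, y) ∈ T n (a n) := by
    intro F
    let E : ℕ → ℕ → Set Y := fun n i => {y | ∀ s ∈ F, (s, y) ∈ T n i}
    have hE : ∀ n i, IsOpen (E n i) := by
      intro n i
      have : E n i = ⋂ s ∈ F, {y | (s, y) ∈ T n i} := by
        ext y; simp [E]
      rw [this]
      refine isOpen_biInter_finset fun s _ => ?_
      exact (hT n i).preimage (by fun_prop)
    obtain ⟨W, hW, hWγ⟩ := gn hY (fun n => {W | ∃ i, W = E n i})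
      (by rintro n W ⟨i, rfl⟩; exact hE n i) (by
        intro n G hG
        have h1 : ∀ᶠ i in atTop, ∀ y ∈ G, ∀ s ∈ (F : Set S), (s, y) ∈ T n i := by
          rw [hG.eventually_all]
          intro y _
          rw [(Finset.finite_toSet F).eventually_all]
          intro s _
          exact hγ n (s, y)
        obtain ⟨i, hi⟩ := h1.exists
        exact ⟨E n i, ⟨i, rfl⟩, fun y hy s hs => hi y hy s hs⟩)
    choose a ha using hW
    refine ⟨a, fun y => ?_⟩
    filter_upwards [hWγ y] with n hn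
    rw [ha n] at hn
    exact hn
  choose a ha using ha
  obtain ⟨k, hk⟩ := hS a
  refine ⟨k, fun H hH => ?_⟩
  let F : Finset S := (hH.image Prod.fst).toFinset
  have h1 : ∀ᶠ n in atTop, ∀ p ∈ H, ∀ s ∈ F, (s, p.2) ∈ T n (a F n) := by
    rw [hH.eventually_all]
    intro p _
    exact ha F p.2
  obtain ⟨n, hn1, hn2⟩ := ((hk F).and_eventually h1).exists
  refine ⟨n, fun p hp => ?_⟩
  rw [hn1]
  exact hn2 p hp p.1 (by simp only [F, Set.Finite.mem_toFinset]; exact ⟨p, hp, rfl⟩)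

lemma HS_of_countable (hY : GammaProp Y) {S : Type} [TopologicalSpace S] [Countable S] :
    HS (S × Y) := HS_of_catch hY (catch_of_countable _)

lemma mk_finset_lt {κ : Cardinal.{0}} (hω : Cardinal.aleph0 ≤ κ) {S : Type}
    (hS : Cardinal.mk S < κ) : Cardinal.mk (Finset S) < κ := by
  rcases finite_or_infinite S with hf | hi
  · exact lt_of_lt_of_le (Cardinal.lt_aleph0_of_finite _) hω
  · rw [Cardinal.mk_finset_of_infinite]; exact hS

/-- the answer is positive for `κ ≤ cov(M)` -/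
theorem main_covM (hY : GammaProp Y) {κ : Cardinal.{0}} (hκ : κ.IsRegular) (hc : LeCovM κ)
    {X : Set Pw} (hX : FinUnb κ X) : S1GO ((X ∪ FinS : Set Pw) × Y) :=
  main hY hκ hX fun _ _ hS => HS_of_catch hY (catch_of_leCovM hc _ (mk_finset_lt hκ.aleph0_le hS))

lemma s1GO_of_HS_aux {Z : Type} [TopologicalSpace Z] (h : HS Z) : S1GO Z := by
  classical
  intro 𝒰 h𝒰
  have henum : ∀ n, ∃ U : ℕ → Set Z, (∀ i, U i ∈ 𝒰 n) ∧
      (∀ i, U i ≠ univ) ∧ ∀ p, ∀ᶠ i in atTop, p ∈ U i := by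
    intro n
    obtain ⟨-, hinf, hfin⟩ := h𝒰 n
    have hinf' : (𝒰 n \ {univ}).Infinite := hinf.sdiff (finite_singleton _)
    let e := Set.Infinite.natEmbedding _ hinf'
    refine ⟨fun i => (e i).1, fun i => (e i).2.1, fun i hi => (e i).2.2 hi, fun p => ?_⟩
    rw [← Nat.cofinite_eq_atTop]
    have hinj : Function.Injective (fun i => (e i).1) :=
      Subtype.val_injective.comp e.injective
    have : {i | p ∉ (e i).1} = (fun i => (e i).1) ⁻¹' {U ∈ 𝒰 n | p ∉ U} := by
      ext i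
      exact ⟨fun hi => ⟨(e i).2.1, hi⟩, fun hi => hi.2⟩
    change {i | ¬ p ∈ (e i).1}.Finite
    rw [this]
    exact (hfin p).preimage hinj.injOn
  choose U hU𝒰 hUne hUγ using henum
  obtain ⟨k, hk⟩ := h U (fun n i => (h𝒰 n).1 _ (hU𝒰 n i)) hUγ
  refine ⟨fun n => U n (k n), fun n => hU𝒰 n _, ?_, ?_, ?_⟩
  · rintro _ ⟨n, rfl⟩
    exact (h𝒰 n).1 _ (hU𝒰 n _)
  · rintro ⟨n, hn⟩
    exact hUne _ _ hn
  · intro H hH
    obtain ⟨n, hn⟩ := hk H hH
    exact ⟨_, ⟨n, rfl⟩, hn⟩

omit [T1Space Y] in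
lemma S1GO_of_S1OG (h : S1OG Y) : S1GO Y := by
  intro 𝒰 h𝒰
  obtain ⟨U, hU, hG1, hG2, hG3⟩ := h (fun n => 𝒰 n \ {univ}) (by
    intro n
    obtain ⟨ho, hinf, hfin⟩ := h𝒰 n
    refine ⟨fun U hU => ho U hU.1, fun hcon => hcon.2 rfl, fun F hF => ?_⟩
    have h1 : (⋃ z ∈ F, {U ∈ 𝒰 n | z ∉ U}).Finite := hF.biUnion fun z _ => hfin z
    obtain ⟨U, hU, hUn⟩ := (hinf.sdiff ((finite_singleton (univ : Set Y)).union h1)).nonempty
    refine ⟨U, ⟨hU, fun hcon => hUn (Or.inl hcon)⟩, fun z hz => ?_⟩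
    by_contra hzU
    exact hUn (Or.inr (mem_iUnion₂.2 ⟨z, hz, hU, hzU⟩)))
  refine ⟨U, fun n => (hU n).1, hG1, ?_, ?_⟩
  · rintro ⟨n, hn⟩
    exact (hU n).2 hn
  · intro F hF
    have h1 : (⋃ z ∈ F, {V ∈ Set.range U | z ∉ V}).Finite := hF.biUnion fun z _ => hG3 z
    obtain ⟨V, hV, hVn⟩ := (hG2.sdiff h1).nonempty
    refine ⟨V, hV, fun z hz => ?_⟩
    by_contra hzV
    exact hVn (mem_iUnion₂.2 ⟨z, hz, hV, hzV⟩)

/-- productively `S₁(Γ, Ω)` for metric spaces -/
def ProdMet (W : Type) [TopologicalSpace W] : Prop :=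
  ∀ (M : Type) [MetricSpace M] [Infinite M], S1GO M → S1GO (W × M)

/-- `κ ≤ pr(S₁(Γ, Ω))` -/
def LePr (κ : Cardinal.{0}) : Prop :=
  ∀ (W : Type) [TopologicalSpace W] [T35Space W] [Infinite W], Cardinal.mk W < κ → ProdMet W

omit [TopologicalSpace Y] [T1Space Y] in
/-- the answer is positive for metrizable `Y` and `κ ≤ pr(S₁(Γ, Ω))` -/
theorem main_metrizable [TopologicalSpace Y] [TopologicalSpace.MetrizableSpace Y] [Infinite Y]
    (hY : S1OG Y) {κ : Cardinal.{0}} (hκ : κ.IsRegular) (hc : LePr κ)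
    {X : Set Pw} (hX : FinUnb κ X) : S1GO ((X ∪ FinS : Set Pw) × Y) := by
  have hYg := gammaProp_of_S1OG hY
  refine main hYg hκ hX fun S _ hS => ?_
  rcases finite_or_infinite S with hf | hi
  · exact HS_of_countable hYg
  · letI := TopologicalSpace.metrizableSpaceMetric Y
    exact HS_of_S1GO (hc S hS Y (S1GO_of_S1OG hY))

/-- the definition of `κ`-fin-unbounded sets through `d ≤^∞ min F` -/
def FinUnbMin (κ : Cardinal.{0}) (X : Set Pw) : Prop :=
  (∀ x ∈ X, {n | x n = true}.Infinite) ∧ κ ≤ Cardinal.mk X ∧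
    ∀ d : ℕ → ℕ, StrictMono d → ∃ S : Set Pw, S ⊆ X ∧ Cardinal.mk S < κ ∧
      ∀ F : Set Pw, F.Finite → F.Nonempty → F ⊆ X \ S →
        {n : ℕ | ∀ x ∈ F, d n ≤ Nat.nth (fun a => x a = true) n}.Infinite

lemma finUnb_of_min {κ : Cardinal.{0}} {X : Set Pw} (h : FinUnbMin κ X) : FinUnb κ X := by
  classical
  refine ⟨h.1, h.2.1, fun d hd => ?_⟩
  obtain ⟨S, hSX, hSκ, hS⟩ := h.2.2 (fun n => d (n * n + n)) (by
    intro a b hab
    apply hd
    nlinarith)
  refine ⟨S, hSX, hSκ, fun F hF hFX => ?_⟩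
  rcases F.eq_empty_or_nonempty with rfl | hne
  · exact Eventually.frequently (Eventually.of_forall fun j x hx => absurd hx (notMem_empty x))
  have hinf := hS F hF hne hFX
  by_contra hcon
  rw [not_frequently, eventually_atTop] at hcon
  obtain ⟨J, hJ⟩ := hcon
  obtain ⟨n, hn, hnJ⟩ := hinf.exists_gt (max J (hF.toFinset.card))
  have hnJ1 : J < n := lt_of_le_of_lt (le_max_left _ _) hnJ
  have hnJ2 : hF.toFinset.card < n := lt_of_le_of_lt (le_max_right _ _) hnJ
  have hhit : ∀ j, J ≤ j → ∃ x ∈ F, ∃ a, d j ≤ a ∧ a < d (j + 1) ∧ x a = true := by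
    intro j hj
    have := hJ j hj
    push Not at this
    obtain ⟨x, hx, a, h1, h2, h3⟩ := this
    exact ⟨x, hx, a, h1, h2, by simpa using h3⟩
  choose! x hxF a ha1 ha2 ha3 using hhit
  let M := n * n + n
  -- the hit positions
  let P : Finset ℕ := hF.toFinset.biUnion fun x => (Finset.range (d M)).filter (fun a => x a = true)
  have hP : P.card ≤ hF.toFinset.card * n := by
    refine Finset.card_biUnion_le_card_mul _ _ _ fun x hx => ?_
    have hxF : x ∈ F := by simpa using hx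
    have hxinf : {n | x n = true}.Infinite := h.1 x (hFX hxF).1
    rw [← Nat.count_eq_card_filter_range]
    calc Nat.count (fun a => x a = true) (d M) ≤
        Nat.count (fun a => x a = true) (Nat.nth (fun a => x a = true) n) :=
          Nat.count_monotone _ (hn x hxF)
      _ = n := Nat.count_nth_of_infinite hxinf n
  have hinj : ((Finset.Ico J M).image a).card = M - J := by
    rw [Finset.card_image_of_injOn, Nat.card_Ico]
    intro i hi i' hi' hii
    have hi := (Finset.mem_Ico.1 (Finset.mem_coe.1 hi)).1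
    have hi' := (Finset.mem_Ico.1 (Finset.mem_coe.1 hi')).1
    by_contra hne
    have key : ∀ i i', J ≤ i → J ≤ i' → i < i' → a i < a i' := by
      intro i i' h1 h2 h3
      calc a i < d (i + 1) := ha2 i h1
        _ ≤ d i' := hd.monotone h3
        _ ≤ a i' := ha1 i' h2
    rcases Nat.lt_or_gt_of_ne hne with hlt | hlt
    · exact absurd hii (key i i' hi hi' hlt).ne
    · exact absurd hii (key i' i hi' hi hlt).ne'
  have hsub : (Finset.Ico J M).image a ⊆ P := by
    intro b hb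
    obtain ⟨i, hi, rfl⟩ := Finset.mem_image.1 hb
    obtain ⟨hi1, hi2⟩ := Finset.mem_Ico.1 hi
    refine Finset.mem_biUnion.2 ⟨x i, by simpa using hxF i hi1, Finset.mem_filter.2
      ⟨Finset.mem_range.2 ?_, ha3 i hi1⟩⟩
    exact lt_of_lt_of_le (ha2 i hi1) (hd.monotone hi2)
  have hle := Finset.card_le_card hsub
  rw [hinj] at hle
  have h1 : hF.toFinset.card * n ≤ n * n := Nat.mul_le_mul_right n hnJ2.le
  have h2 : M - J ≤ n * n := hle.trans (hP.trans h1)
  have h3 : M = n * n + n := rfl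
  omega

end Pool.Agent.H177R3.FU
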