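import Mathlib
import Pool.Agent.H177R3.FU3

set_option autoImplicit false

namespace Pool.Agent.H177R3.FU

open Set Filter Topology

/-- `S₁(Γ, Ω)` passes to closed subspaces. -/
lemma S1GO.closedEmbedding {A B : Type} [TopologicalSpace A] [TopologicalSpace B] (h : S1GO B)
    (φ : A → B) (hφ : IsClosedEmbedding φ) : S1GO A := by
  classical
  intro 𝒰 h𝒰
  have hext : ∀ U : Set A, IsOpen U → ∃ W : Set B, IsOpen W ∧ φ ⁻¹' W = U ∧
      ∀ b, b ∉ W → ∃ a, a ∉ U ∧ φ a = b := by
    intro U hU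
    obtain ⟨W, hW, hWU⟩ := hφ.isInducing.isOpen_iff.1 hU
    refine ⟨W ∪ (Set.range φ)ᶜ, hW.union hφ.isClosed_range.isOpen_compl, ?_, ?_⟩
    · rw [preimage_union, hWU]
      ext a; simp
    · intro b hb
      rw [mem_union, not_or, mem_compl_iff, not_not] at hb
      obtain ⟨hb1, a, rfl⟩ := hb
      refine ⟨a, fun ha => hb1 ?_, rfl⟩
      rw [← hWU] at ha
      exact ha
  choose! W hWo hWU hWn using hext
  obtain ⟨V, hV, hV1, hV2, hV3⟩ := h (fun n => W '' (𝒰 n \ {univ})) (by
    intro n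
    obtain ⟨ho, hinf, hfin⟩ := h𝒰 n
    refine ⟨?_, ?_, ?_⟩
    · rintro _ ⟨U, hU, rfl⟩
      exact hWo U (ho U hU.1)
    · refine (hinf.sdiff (finite_singleton (univ : Set A))).image ?_
      intro U hU U' hU' hUU
      rw [← hWU U (ho U hU.1), ← hWU U' (ho U' hU'.1), hUU]
    · intro b
      by_cases hb : b ∈ Set.range φ
      · obtain ⟨a, rfl⟩ := hb
        refine ((hfin a).image W).subset ?_
        rintro _ ⟨⟨U, hU, rfl⟩, hn⟩
        refine ⟨U, ⟨hU.1, fun ha => hn ?_⟩, rfl⟩
        have : a ∈ φ ⁻¹' (W U) := by rw [hWU U (ho U hU.1)]; exact ha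
        exact this
      · refine Set.finite_empty.subset ?_
        rintro _ ⟨⟨U, hU, rfl⟩, hn⟩
        obtain ⟨a, -, ha⟩ := hWn U (ho U hU.1) b hn
        exact absurd ⟨a, ha⟩ hb)
  choose U hU hUV using hV
  refine ⟨U, fun n => (hU n).1, ?_, ?_, ?_⟩
  · rintro _ ⟨n, rfl⟩
    exact (h𝒰 n).1 _ (hU n).1
  · rintro ⟨n, hn⟩
    exact (hU n).2 hn
  · intro F hF
    obtain ⟨_, ⟨n, rfl⟩, hn⟩ := hV3 (φ '' F) (hF.image φ)
    refine ⟨U n, ⟨n, rfl⟩, fun a ha => ?_⟩
    have h1 : φ a ∈ W (U n) := by rw [hUV n]; exact hn ⟨a, ha, rfl⟩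
    have h2 : a ∈ φ ⁻¹' (W (U n)) := h1
    rw [hWU (U n) ((h𝒰 n).1 _ (hU n).1)] at h2
    exact h2

/-- the coding of `P(ω)` by infinite sets without long gaps -/
def cod (s : Pw) : Pw := fun a => if a % 2 = 0 then s (a / 2) else !(s (a / 2))

lemma cod_continuous : Continuous cod := by
  refine continuous_pi fun a => ?_
  unfold cod
  by_cases ha : a % 2 = 0
  · simp only [ha, if_true]; exact continuous_apply _
  · simp only [ha, if_false]
    exact (continuous_of_discreteTopology (f := fun b : Bool => !b)).comp (continuous_apply (a / 2))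

lemma cod_injective : Function.Injective cod := by
  intro s t h
  funext a
  have := congrFun h (2 * a)
  simpa [cod] using this

lemma cod_hits (s : Pw) (m : ℕ) : ∃ a, m ≤ a ∧ a < m + 3 ∧ cod s a = true := by
  -- the pair `{2c, 2c+1}` with `c = (m + 1) / 2` is contained in `[m, m + 3)`
  obtain ⟨c, hc⟩ : ∃ c, c = (m + 1) / 2 := ⟨_, rfl⟩
  cases hs : s c with
  | true =>
    refine ⟨2 * c, by omega, by omega, ?_⟩
    simp [cod, hs]
  | false =>
    refine ⟨2 * c + 1, by omega, by omega, ?_⟩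
    have h1 : (2 * c + 1) % 2 ≠ 0 := by omega
    have h2 : (2 * c + 1) / 2 = c := by omega
    simp [cod, h2, hs]

lemma cod_infinite (s : Pw) : {n | cod s n = true}.Infinite := by
  refine Set.infinite_of_forall_exists_gt fun m => ?_
  obtain ⟨a, ha, -, h⟩ := cod_hits s (m + 1)
  exact ⟨a, h, by omega⟩

variable {Y : Type} [TopologicalSpace Y]

/-- Converse: if the answer is positive for `κ` and `Y`, then the products with all small sets
satisfy `S₁(Γ, Ω)`. -/
theorem converse {κ : Cardinal.{0}} (hκ : κ.IsRegular) {X₀ : Set Pw} (hX₀ : FinUnb κ X₀)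
    (h : ∀ X : Set Pw, FinUnb κ X → S1GO ((X ∪ FinS : Set Pw) × Y))
    (S : Set Pw) (hS : Cardinal.mk S < κ) : S1GO (S × Y) := by
  classical
  have hω := hκ.aleph0_le
  let K : Set Pw := Set.range cod
  have hKc : IsClosed K := (isCompact_range cod_continuous).isClosed
  -- the small intersection
  obtain ⟨S₃, hS₃X, hS₃κ, hS₃⟩ := hX₀.2.2 (fun n => 3 * n) (fun a b hab => by
    change 3 * a < 3 * b; omega)
  have hint : X₀ ∩ K ⊆ S₃ := by
    rintro x ⟨hx, s, rfl⟩
    by_contra hcon
    have h1 := hS₃ {cod s} (finite_singleton _) (by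
      intro z hz
      rw [mem_singleton_iff] at hz
      subst hz
      exact ⟨hx, hcon⟩)
    obtain ⟨j, hj⟩ := h1.exists
    obtain ⟨a, ha1, ha2, ha3⟩ := cod_hits s (3 * j)
    have := hj (cod s) rfl a ha1 (by omega)
    rw [this] at ha3
    exact Bool.false_ne_true ha3
  have hintκ : Cardinal.mk (X₀ ∩ K : Set Pw) < κ :=
    lt_of_le_of_lt (Cardinal.mk_le_mk_of_subset hint) hS₃κ
  have hdiff : κ ≤ Cardinal.mk (X₀ \ K : Set Pw) := by
    by_contra hcon
    have h1 : Cardinal.mk (X₀ \ K : Set Pw) < κ := not_le.1 hcon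
    have h2 : Cardinal.mk X₀ < κ := by
      have h3 : X₀ = (X₀ ∩ K) ∪ (X₀ \ K) := (inter_union_sdiff X₀ K).symm
      rw [h3]
      exact lt_of_le_of_lt (Cardinal.mk_union_le _ _) (Cardinal.add_lt_of_lt hω hintκ h1)
    exact absurd hX₀.2.1 (not_le.2 h2)
  have hSim : Cardinal.mk (cod '' S) < κ := lt_of_le_of_lt Cardinal.mk_image_le hS
  let X : Set Pw := (X₀ \ K) ∪ cod '' S
  have hX : FinUnb κ X := by
    refine ⟨?_, hdiff.trans (Cardinal.mk_le_mk_of_subset subset_union_left), ?_⟩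
    · rintro x (hx | ⟨s, -, rfl⟩)
      · exact hX₀.1 x hx.1
      · exact cod_infinite s
    · intro d hd
      obtain ⟨S', hS'X, hS'κ, hS'⟩ := hX₀.2.2 d hd
      refine ⟨(S' \ K) ∪ cod '' S, ?_, ?_, ?_⟩
      · exact union_subset_union_left _ (sdiff_subset_sdiff_left hS'X)
      · refine lt_of_le_of_lt (Cardinal.mk_union_le _ _) (Cardinal.add_lt_of_lt hω ?_ hSim)
        exact lt_of_le_of_lt (Cardinal.mk_le_mk_of_subset sdiff_subset) hS'κ
      · intro F hF hFX
        refine hS' F hF fun x hx => ?_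
        obtain ⟨hx1, hx2⟩ := hFX hx
        rcases hx1 with hx1 | hx1
        · exact ⟨hx1.1, fun hcon => hx2 (Or.inl ⟨hcon, hx1.2⟩)⟩
        · exact absurd (Or.inr hx1) hx2
  have hmem : ∀ s : S, cod s.1 ∈ X ∪ FinS := fun s => Or.inl (Or.inr ⟨s.1, s.2, rfl⟩)
  let ψ : S → (X ∪ FinS : Set Pw) := fun s => ⟨cod s.1, hmem s⟩
  have hψ : IsClosedEmbedding ψ := by
    have hcod : IsClosedEmbedding cod := cod_continuous.isClosedEmbedding cod_injective
    have hind : IsInducing (fun s : S => cod s.1) :=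
      hcod.isInducing.comp IsInducing.subtypeVal
    have hψc : Continuous ψ := (cod_continuous.comp continuous_subtype_val).subtype_mk _
    have hψi : IsInducing ψ := by
      refine IsInducing.of_comp hψc continuous_subtype_val ?_
      exact hind
    refine ⟨⟨hψi, ?_⟩, ?_⟩
    · intro s t hst
      have : cod s.1 = cod t.1 := congrArg Subtype.val hst
      exact Subtype.ext (cod_injective this)
    · have : Set.range ψ = Subtype.val ⁻¹' K := by
        ext x
        constructor
        · rintro ⟨s, rfl⟩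
          exact ⟨s.1, rfl⟩
        · rintro ⟨t, ht⟩
          rcases x.2 with (hx | ⟨s, hs, hsx⟩) | hx
          · exact absurd ⟨t, ht⟩ hx.2
          · exact ⟨⟨s, hs⟩, Subtype.ext hsx⟩
          · exfalso
            have h1 : {n | x.1 n = true}.Finite := hx
            rw [← ht] at h1
            exact cod_infinite t h1
      rw [this]
      exact hKc.preimage continuous_subtype_val
  exact (h X hX).closedEmbedding (Prod.map ψ id) (hψ.prodMap IsClosedEmbedding.id)

end Pool.Agent.H177R3.FU
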