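import Mathlib

set_option autoImplicit false

/-!
Weighted sequential random independent set in a triangle-free degenerate uniform hypergraph.
-/

namespace Pool.H177R3.Hyp

variable {V : Type} [DecidableEq V]

/-- `z` and `u` are the only vertices of some edge not (yet) selected. -/
def adj (E : Finset (Finset V)) (I : Finset V) (z u : V) : Prop :=
  ∃ e ∈ E, z ∈ e ∧ u ∈ e ∧ u ≠ z ∧ ∀ x ∈ e, x ≠ z → x ≠ u → x ∈ I

/-- truncated selection probability -/
noncomputable def q (t : ℝ) : ℝ := if 0 ≤ t ∧ t ≤ 1 / 2 then t else 0

lemma q_nonneg (t : ℝ) : 0 ≤ q t := by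
  unfold q; split_ifs with h
  · exact h.1
  · exact le_refl _

lemma q_le_half (t : ℝ) : q t ≤ 1 / 2 := by
  unfold q; split_ifs with h
  · exact h.2
  · norm_num

lemma q_le_self {t : ℝ} (h : 0 ≤ t) : q t ≤ t := by
  unfold q; split_ifs
  · exact le_refl _
  · exact h

lemma q_zero : q 0 = 0 := by unfold q; simp

open Classical in
/-- weights after selecting `z` -/
noncomputable def w1 (E : Finset (Finset V)) (I : Finset V) (w : V → ℝ) (z : V) : V → ℝ :=
  fun u => if adj E I z u then 0 else w u

open Classical in
/-- weights after not selecting `z` -/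
noncomputable def w0 (E : Finset (Finset V)) (I : Finset V) (w : V → ℝ) (z : V) : V → ℝ :=
  fun u => if adj E I z u then w u / (1 - q (w z)) else w u

lemma w1_nonneg (E : Finset (Finset V)) (I : Finset V) {w : V → ℝ} (z : V)
    (hw : ∀ u, 0 ≤ w u) : ∀ u, 0 ≤ w1 E I w z u := by
  intro u; unfold w1; split_ifs
  · exact le_refl _
  · exact hw u

lemma w0_nonneg (E : Finset (Finset V)) (I : Finset V) {w : V → ℝ} (z : V)
    (hw : ∀ u, 0 ≤ w u) : ∀ u, 0 ≤ w0 E I w z u := by
  intro u; unfold w0; split_ifs
  · have := q_le_half (w z)
    exact div_nonneg (hw u) (by linarith)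
  · exact hw u

lemma w1_le (E : Finset (Finset V)) (I : Finset V) {w : V → ℝ} (z : V)
    (hw : ∀ u, 0 ≤ w u) (u : V) : w1 E I w z u ≤ w u := by
  unfold w1; split_ifs
  · exact hw u
  · exact le_refl _

/-- expectation of a functional of the final state -/
noncomputable def Ex (E : Finset (Finset V)) :
    List V → Finset V → (V → ℝ) → (Finset V → (V → ℝ) → ℝ) → ℝ
  | [], I, w, f => f I w
  | z :: l, I, w, f =>
      q (w z) * Ex E l (insert z I) (w1 E I w z) f + (1 - q (w z)) * Ex E l I (w0 E I w z) f

open Classical in
/-- expectation in the process tilted by the weight of `v` -/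
noncomputable def Qx (E : Finset (Finset V)) (v : V) :
    List V → Finset V → (V → ℝ) → (Finset V → (V → ℝ) → ℝ) → ℝ
  | [], I, w, f => f I w
  | z :: l, I, w, f =>
      if adj E I z v then Qx E v l I (w0 E I w z) f
      else q (w z) * Qx E v l (insert z I) (w1 E I w z) f
        + (1 - q (w z)) * Qx E v l I (w0 E I w z) f

open Classical in
/-- expected total active probability near `v` in the tilted process -/
noncomputable def G (E : Finset (Finset V)) (v : V) :
    List V → Finset V → (V → ℝ) → ℝ
  | [], _, _ => 0
  | z :: l, I, w =>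
      if adj E I z v then q (w z) + G E v l I (w0 E I w z)
      else q (w z) * G E v l (insert z I) (w1 E I w z)
        + (1 - q (w z)) * G E v l I (w0 E I w z)

open Classical in
/-- the contribution of one edge `insert v A` to `G` -/
noncomputable def GA (E : Finset (Finset V)) (v : V) (A : Finset V) :
    List V → Finset V → (V → ℝ) → ℝ
  | [], _, _ => 0
  | z :: l, I, w =>
      (if z ∈ A ∧ ∀ x ∈ A, x ≠ z → x ∈ I then q (w z) else 0) +
      (if adj E I z v then GA E v A l I (w0 E I w z)
      else q (w z) * GA E v A l (insert z I) (w1 E I w z)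
        + (1 - q (w z)) * GA E v A l I (w0 E I w z))

/-- the potential of `A` -/
noncomputable def M (A : Finset V) (l : List V) (I : Finset V) (w : V → ℝ) : ℝ :=
  ∏ u ∈ A, (if u ∈ l then w u else if u ∈ I then 1 else 0)

lemma M_nonneg (A : Finset V) (l : List V) (I : Finset V) {w : V → ℝ} (hw : ∀ u, 0 ≤ w u) :
    0 ≤ M A l I w := by
  unfold M
  apply Finset.prod_nonneg
  intro u _
  split_ifs
  · exact hw u
  · norm_num
  · norm_num

lemma Ex_append (E : Finset (Finset V)) (l₁ l₂ : List V) (f : Finset V → (V → ℝ) → ℝ) :
    ∀ (I : Finset V) (w : V → ℝ),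
      Ex E (l₁ ++ l₂) I w f = Ex E l₁ I w (fun I' w' => Ex E l₂ I' w' f) := by
  induction l₁ with
  | nil => intro I w; rfl
  | cons z l ih =>
    intro I w
    simp only [List.cons_append, Ex]
    rw [ih, ih]

lemma Ex_mono (E : Finset (Finset V)) (l : List V) {f g : Finset V → (V → ℝ) → ℝ}
    (h : ∀ I w, f I w ≤ g I w) : ∀ (I : Finset V) (w : V → ℝ), Ex E l I w f ≤ Ex E l I w g := by
  induction l with
  | nil => intro I w; exact h I w
  | cons z l ih =>
    intro I w
    simp only [Ex]
    have h1 := q_nonneg (w z)
    have h2 := q_le_half (w z)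
    have h3 := ih (insert z I) (w1 E I w z)
    have h4 := ih I (w0 E I w z)
    have h5 : 0 ≤ 1 - q (w z) := by linarith
    exact add_le_add (mul_le_mul_of_nonneg_left h3 h1) (mul_le_mul_of_nonneg_left h4 h5)

lemma Ex_const (E : Finset (Finset V)) (l : List V) (a : ℝ) :
    ∀ (I : Finset V) (w : V → ℝ), Ex E l I w (fun _ _ => a) = a := by
  induction l with
  | nil => intro I w; rfl
  | cons z l ih =>
    intro I w
    simp only [Ex]
    rw [ih, ih]; ring

lemma Ex_nonneg (E : Finset (Finset V)) (l : List V) {f : Finset V → (V → ℝ) → ℝ}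
    (h : ∀ I w, 0 ≤ f I w) (I : Finset V) (w : V → ℝ) : 0 ≤ Ex E l I w f := by
  have := Ex_mono E l (f := fun _ _ => (0:ℝ)) (g := f) h I w
  rwa [Ex_const] at this

lemma Ex_sum [Fintype V] (E : Finset (Finset V)) (l : List V) (g : Finset V → ℝ) :
    ∀ (I : Finset V) (w : V → ℝ),
      ∑ S : Finset V, g S * Ex E l I w (fun J _ => if J = S then 1 else 0)
        = Ex E l I w (fun J _ => g J) := by
  induction l with
  | nil =>
    intro I w
    simp only [Ex]
    simp
  | cons z l ih =>
    intro I w
    simp only [Ex]
    rw [← ih, ← ih, Finset.mul_sum, Finset.mul_sum, ← Finset.sum_add_distrib]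
    apply Finset.sum_congr rfl
    intro S _
    ring

/-- membership of already selected vertices persists -/
lemma Ex_mem (E : Finset (Finset V)) (l : List V) (v : V) :
    ∀ (I : Finset V) (w : V → ℝ), v ∈ I →
      Ex E l I w (fun J _ => if v ∈ J then 1 else 0) = 1 := by
  induction l with
  | nil => intro I w hv; simp [Ex, hv]
  | cons z l ih =>
    intro I w hv
    simp only [Ex]
    rw [ih _ _ (Finset.mem_insert_of_mem hv), ih _ _ hv]; ring

/-- functionals vanishing on independent sets have expectation zero -/
lemma Ex_indep (E : Finset (Finset V)) (l : List V) (f : Finset V → (V → ℝ) → ℝ)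
    (hf : ∀ I w, (∀ e ∈ E, ¬ e ⊆ I) → f I w = 0) :
    ∀ (I : Finset V) (w : V → ℝ), l.Nodup → (∀ u ∈ l, u ∉ I) → (∀ e ∈ E, ¬ e ⊆ I) →
      (∀ u ∈ l, ∀ e ∈ E, u ∈ e → (∀ x ∈ e, x ≠ u → x ∈ I) → w u = 0) →
      Ex E l I w f = 0 := by
  induction l with
  | nil => intro I w _ _ h _; exact hf I w h
  | cons z l ih =>
    intro I w hnd hdis hind hz
    simp only [Ex]
    have hnd' := (List.nodup_cons.mp hnd)
    have hsecond : Ex E l I (w0 E I w z) f = 0 := by
      apply ih _ _ hnd'.2 (fun u hu => hdis u (List.mem_cons_of_mem _ hu)) hind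
      intro u hu e he hue hx
      have h0 := hz u (List.mem_cons_of_mem _ hu) e he hue hx
      unfold w0
      split_ifs <;> simp [h0]
    rw [hsecond, mul_zero, add_zero]
    by_cases hq : q (w z) = 0
    · rw [hq, zero_mul]
    · have hwz : w z ≠ 0 := by
        intro h; apply hq; rw [h, q_zero]
      rw [ih, mul_zero]
      · exact hnd'.2
      · intro u hu hmem
        rw [Finset.mem_insert] at hmem
        rcases hmem with h | h
        · subst h; exact hnd'.1 hu
        · exact hdis u (List.mem_cons_of_mem _ hu) h
      · intro e he hsub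
        by_cases hze : z ∈ e
        · apply hwz
          apply hz z List.mem_cons_self e he hze
          intro x hx hxz
          have := hsub hx
          rw [Finset.mem_insert] at this
          exact this.resolve_left hxz
        · apply hind e he
          intro x hx
          have := hsub hx
          rw [Finset.mem_insert] at this
          rcases this with h | h
          · subst h; exact absurd hx hze
          · exact h
      · intro u hu e he hue hx
        unfold w1
        split_ifs with hadj
        · rfl
        · by_cases hze : z ∈ e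
          · exfalso; apply hadj
            refine ⟨e, he, hze, hue, ?_, ?_⟩
            · rintro rfl; exact hnd'.1 hu
            · intro x hxe hxz hxu
              have := hx x hxe hxu
              rw [Finset.mem_insert] at this
              exact this.resolve_left hxz
          · apply hz u (List.mem_cons_of_mem _ hu) e he hue
            intro x hxe hxu
            have := hx x hxe hxu
            rw [Finset.mem_insert] at this
            rcases this with h | h
            · subst h; exact absurd hxe hze
            · exact h

/-- tilting identity -/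
lemma Ex_tilt (E : Finset (Finset V)) (v : V) (l : List V) (f : Finset V → (V → ℝ) → ℝ) :
    ∀ (I : Finset V) (w : V → ℝ),
      Ex E l I w (fun I' w' => f I' w' * w' v) = w v * Qx E v l I w f := by
  induction l with
  | nil => intro I w; simp only [Ex, Qx]; ring
  | cons z l ih =>
    intro I w
    simp only [Ex, Qx]
    rw [ih, ih]
    have hq := q_le_half (w z)
    have hne : (1 - q (w z)) ≠ 0 := by linarith
    split_ifs with h
    · have e1 : w1 E I w z v = 0 := by unfold w1; simp [h]
      have e2 : w0 E I w z v = w v / (1 - q (w z)) := by unfold w0; simp [h]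
      rw [e1, e2]
      field_simp
      ring
    · have e1 : w1 E I w z v = w v := by unfold w1; simp [h]
      have e2 : w0 E I w z v = w v := by unfold w0; simp [h]
      rw [e1, e2]; ring

lemma Qx_const (E : Finset (Finset V)) (v : V) (l : List V) (a : ℝ) :
    ∀ (I : Finset V) (w : V → ℝ), Qx E v l I w (fun _ _ => a) = a := by
  induction l with
  | nil => intro I w; rfl
  | cons z l ih =>
    intro I w
    simp only [Qx]
    split_ifs
    · exact ih _ _
    · rw [ih, ih]; ring

lemma Qx_sub (E : Finset (Finset V)) (v : V) (l : List V) (f g : Finset V → (V → ℝ) → ℝ) :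
    ∀ (I : Finset V) (w : V → ℝ),
      Qx E v l I w (fun I' w' => f I' w' - g I' w') = Qx E v l I w f - Qx E v l I w g := by
  induction l with
  | nil => intro I w; rfl
  | cons z l ih =>
    intro I w
    simp only [Qx]
    split_ifs
    · exact ih _ _
    · rw [ih, ih]; ring

open Classical in
/-- Markov type estimate for the logarithm of the weight of `v` -/
lemma Qx_log (E : Finset (Finset V)) (v : V) (p K : ℝ) (hp : 0 < p)
    (hK : K = Real.log (1 / 2) - Real.log p) (l : List V) :
    ∀ (I : Finset V) (w : V → ℝ), p ≤ w v →
      K * Qx E v l I w (fun _ w' => if 0 ≤ w' v ∧ w' v ≤ 1 / 2 then 0 else 1)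
        ≤ Real.log (w v) - Real.log p + 2 * G E v l I w := by
  induction l with
  | nil =>
    intro I w hpw
    simp only [Qx, G]
    have hpos : 0 < w v := lt_of_lt_of_le hp hpw
    split_ifs with h
    · have := Real.log_le_log hp hpw
      linarith
    · have h2 : 1 / 2 < w v := by
        by_contra hcon
        push Not at hcon
        exact h ⟨hpos.le, hcon⟩
      have := Real.log_le_log (by norm_num : (0:ℝ) < 1 / 2) h2.le
      rw [hK]; linarith
  | cons z l ih =>
    intro I w hpw
    simp only [Qx, G]
    have hpos : 0 < w v := lt_of_lt_of_le hp hpw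
    have hq0 := q_nonneg (w z)
    have hq := q_le_half (w z)
    split_ifs with h
    · have e2 : w0 E I w z v = w v / (1 - q (w z)) := by unfold w0; simp [h]
      have hge : w v ≤ w0 E I w z v := by
        rw [e2, le_div_iff₀ (by linarith)]
        nlinarith
      have h3 := ih I (w0 E I w z) (hpw.trans hge)
      rw [e2, Real.log_div hpos.ne' (by linarith)] at h3
      have hlog : - Real.log (1 - q (w z)) ≤ 2 * q (w z) := by
        have h4 := Real.one_sub_inv_le_log_of_pos (show (0:ℝ) < 1 - q (w z) by linarith)
        have h5 : (1 - q (w z))⁻¹ ≤ 1 + 2 * q (w z) := by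
          rw [inv_le_comm₀ (by linarith) (by linarith), inv_le_comm₀ (by linarith) (by linarith)]
          rw [inv_eq_one_div, div_le_iff₀ (by linarith)]
          nlinarith
        linarith
      linarith
    · have e1 : w1 E I w z v = w v := by unfold w1; simp [h]
      have e2 : w0 E I w z v = w v := by unfold w0; simp [h]
      have h1 := ih (insert z I) (w1 E I w z) (by rw [e1]; exact hpw)
      have h2 := ih I (w0 E I w z) (by rw [e2]; exact hpw)
      rw [e1] at h1
      rw [e2] at h2
      have h1' := mul_le_mul_of_nonneg_left h1 hq0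
      have h2' := mul_le_mul_of_nonneg_left h2 (show 0 ≤ 1 - q (w z) by linarith)
      nlinarith [h1', h2']

end Pool.H177R3.Hyp
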