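import Pool.Agent.H177R3.Hyp

set_option autoImplicit false

namespace Pool.H177R3.Hyp

variable {V : Type} [DecidableEq V]

lemma GA_nonneg (E : Finset (Finset V)) (v : V) (A : Finset V) (l : List V) :
    ∀ (I : Finset V) (w : V → ℝ), 0 ≤ GA E v A l I w := by
  induction l with
  | nil => intro I w; exact le_refl _
  | cons z l ih =>
    intro I w
    simp only [GA]
    have hq0 := q_nonneg (w z)
    have hq := q_le_half (w z)
    have h1 : 0 ≤ 1 - q (w z) := by linarith
    apply add_nonneg
    · split_ifs
      · exact hq0
      · exact le_refl _
    · split_ifs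
      · exact ih _ _
      · exact add_nonneg (mul_nonneg hq0 (ih _ _)) (mul_nonneg h1 (ih _ _))

/-- if `A` has no unprocessed vertex then it contributes nothing -/
lemma GA_zero (E : Finset (Finset V)) (v : V) (A : Finset V) (l : List V)
    (hA : ∀ z ∈ l, z ∉ A) :
    ∀ (I : Finset V) (w : V → ℝ), GA E v A l I w = 0 := by
  induction l with
  | nil => intro I w; rfl
  | cons z l ih =>
    intro I w
    have ih' := ih (fun x hx => hA x (List.mem_cons_of_mem _ hx))
    simp only [GA]
    have hz := hA z List.mem_cons_self
    simp [hz, ih']

/-- `G` is bounded by the sum of the contributions of the edges with last vertex `v` -/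
lemma G_le_sum (E : Finset (Finset V)) (v : V) (W : Finset V) (l : List V) :
    ∀ (I : Finset V) (w : V → ℝ), I ⊆ W → (∀ z ∈ l, z ∈ W) →
      G E v l I w ≤ ∑ e ∈ E.filter (fun e => v ∈ e ∧ e ⊆ insert v W), GA E v (e.erase v) l I w := by
  classical
  induction l with
  | nil => intro I w _ _; simp [G, GA]
  | cons z l ih =>
    intro I w hI hl
    simp only [G, GA]
    have hq0 := q_nonneg (w z)
    have hq := q_le_half (w z)
    have h1q : 0 ≤ 1 - q (w z) := by linarith
    have hzW := hl z List.mem_cons_self
    have hlW : ∀ x ∈ l, x ∈ W := fun x hx => hl x (List.mem_cons_of_mem _ hx)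
    have hins : insert z I ⊆ W := Finset.insert_subset hzW hI
    split_ifs with h
    · rw [Finset.sum_add_distrib]
      refine add_le_add ?_ (ih I _ hI hlW)
      obtain ⟨e, he, hze, hve, hvz, hx⟩ := h
      have hmem : e ∈ E.filter (fun e => v ∈ e ∧ e ⊆ insert v W) := by
        rw [Finset.mem_filter]
        refine ⟨he, hve, ?_⟩
        intro x hxe
        rw [Finset.mem_insert]
        by_cases hxv : x = v
        · exact Or.inl hxv
        · right
          by_cases hxz : x = z
          · rw [hxz]; exact hzW
          · exact hI (hx x hxe hxz hxv)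
      have hsingle := Finset.single_le_sum (f := fun e : Finset V =>
          if z ∈ e.erase v ∧ ∀ x ∈ e.erase v, x ≠ z → x ∈ I then q (w z) else 0)
          (s := E.filter (fun e => v ∈ e ∧ e ⊆ insert v W))
          (fun i _ => by split_ifs <;> [exact hq0; exact le_refl _]) hmem
      refine le_trans ?_ hsingle
      rw [if_pos]
      refine ⟨Finset.mem_erase.mpr ⟨Ne.symm hvz, hze⟩, ?_⟩
      intro x hx' hxz
      rw [Finset.mem_erase] at hx'
      exact hx x hx'.2 hxz hx'.1
    · have h1 := mul_le_mul_of_nonneg_left (ih (insert z I) (w1 E I w z) hins hlW) hq0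
      have h2 := mul_le_mul_of_nonneg_left (ih I (w0 E I w z) hI hlW) h1q
      refine (add_le_add h1 h2).trans ?_
      rw [Finset.mul_sum, Finset.mul_sum, ← Finset.sum_add_distrib]
      apply Finset.sum_le_sum
      intro e _
      have : (0:ℝ) ≤ (if z ∈ e.erase v ∧ ∀ x ∈ e.erase v, x ≠ z → x ∈ I then q (w z) else 0) := by
        split_ifs <;> [exact hq0; exact le_refl _]
      linarith

/-- the supermartingale property -/
lemma GA_le_M (E : Finset (Finset V)) (v : V) (A : Finset V) (hvA : v ∉ A)
    (hAE : insert v A ∈ E)
    (htri : ¬ ∃ e ∈ E, ∃ f ∈ E, ∃ g ∈ E, ∃ u v w : V,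
            u ∈ e ∧ u ∈ f ∧ v ∈ f ∧ v ∈ g ∧ w ∈ e ∧ w ∈ g ∧
            u ∉ g ∧ v ∉ e ∧ w ∉ f) (l : List V) :
    ∀ (I : Finset V) (w : V → ℝ), (∀ u, 0 ≤ w u) → l.Nodup → v ∉ l → v ∉ I →
      (∀ u ∈ l, u ∉ I) → GA E v A l I w ≤ M A l I w := by
  classical
  induction l with
  | nil => intro I w hw _ _ _ _; exact M_nonneg A [] I hw
  | cons z l ih =>
    intro I w hw hnd hvl hvI hdis
    have hnd' := List.nodup_cons.mp hnd
    have hzI : z ∉ I := hdis z List.mem_cons_self
    have hvz : v ≠ z := fun h => hvl (h ▸ List.mem_cons_self)
    have hvl' : v ∉ l := fun h => hvl (List.mem_cons_of_mem _ h)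
    have hq0 := q_nonneg (w z)
    have hq := q_le_half (w z)
    have h1q : 0 ≤ 1 - q (w z) := by linarith
    have hqw : q (w z) ≤ w z := q_le_self (hw z)
    have hvins : v ∉ insert z I := by
      rw [Finset.mem_insert]; push Not; exact ⟨hvz, hvI⟩
    have hdis0 : ∀ u ∈ l, u ∉ I := fun u hu => hdis u (List.mem_cons_of_mem _ hu)
    have hdis1 : ∀ u ∈ l, u ∉ insert z I := by
      intro u hu hmem
      rw [Finset.mem_insert] at hmem
      rcases hmem with h | h
      · subst h; exact hnd'.1 hu
      · exact hdis0 u hu h
    have IH1 := ih (insert z I) (w1 E I w z) (w1_nonneg E I z hw) hnd'.2 hvl' hvins hdis1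
    have IH0 := ih I (w0 E I w z) (w0_nonneg E I z hw) hnd'.2 hvl' hvI hdis0
    simp only [GA]
    by_cases hzA : z ∈ A
    · -- `z` belongs to `A`
      -- factor out `z`
      have hM : M A (z :: l) I w = w z *
          ∏ u ∈ A.erase z, (if u ∈ z :: l then w u else if u ∈ I then 1 else 0) := by
        unfold M
        rw [← Finset.mul_prod_erase A _ hzA]
        simp
      by_cases hall : ∀ x ∈ A, x ≠ z → x ∈ I
      · -- `z` is the last vertex of `A`
        have hAl : ∀ x ∈ l, x ∉ A := by
          intro x hx hxA
          have hxz : x ≠ z := by rintro rfl; exact hnd'.1 hx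
          exact hdis0 x hx (hall x hxA hxz)
        rw [GA_zero E v A l hAl, GA_zero E v A l hAl]
        have : M A (z :: l) I w = w z := by
          rw [hM]
          rw [Finset.prod_eq_one, mul_one]
          intro u hu
          rw [Finset.mem_erase] at hu
          have huI := hall u hu.2 hu.1
          have hul : u ∉ z :: l := fun h => hdis u h huI
          rw [if_neg hul, if_pos huI]
        rw [this, if_pos ⟨hzA, hall⟩]
        split_ifs <;> simp <;> exact hqw
      · rw [if_neg (fun h => hall h.2), zero_add]
        have hprod : 0 ≤ ∏ u ∈ A.erase z,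
            (if u ∈ z :: l then w u else if u ∈ I then (1:ℝ) else 0) := by
          apply Finset.prod_nonneg
          intro u _
          split_ifs
          · exact hw u
          · norm_num
          · norm_num
        have hM0 : M A l I (w0 E I w z) = 0 := by
          unfold M
          apply Finset.prod_eq_zero hzA
          rw [if_neg hnd'.1, if_neg hzI]
        have hGA0 : GA E v A l I (w0 E I w z) = 0 :=
          le_antisymm (by rw [← hM0]; exact IH0) (GA_nonneg _ _ _ _ _ _)
        rw [hGA0]
        split_ifs with hadj
        · rw [hM]; exact mul_nonneg (hw z) hprod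
        · rw [mul_zero, add_zero, hM]
          have hM1 : M A l (insert z I) (w1 E I w z) ≤ ∏ u ∈ A.erase z,
              (if u ∈ z :: l then w u else if u ∈ I then (1:ℝ) else 0) := by
            unfold M
            rw [← Finset.mul_prod_erase A _ hzA]
            rw [if_neg hnd'.1, if_pos (Finset.mem_insert_self _ _), one_mul]
            apply Finset.prod_le_prod
            · intro u _
              split_ifs
              · exact w1_nonneg E I z hw u
              · norm_num
              · norm_num
            · intro u hu
              rw [Finset.mem_erase] at hu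
              by_cases hul : u ∈ l
              · rw [if_pos hul, if_pos (List.mem_cons_of_mem _ hul)]
                exact w1_le E I z hw u
              · have h2 : u ∉ z :: l := by
                  rw [List.mem_cons]; push Not; exact ⟨hu.1, hul⟩
                rw [if_neg hul, if_neg h2]
                by_cases huI : u ∈ I
                · rw [if_pos huI, if_pos (Finset.mem_insert_of_mem huI)]
                · have h3 : u ∉ insert z I := by
                    rw [Finset.mem_insert]; push Not; exact ⟨hu.1, huI⟩
                  rw [if_neg huI, if_neg h3]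
          calc q (w z) * GA E v A l (insert z I) (w1 E I w z)
              ≤ q (w z) * ∏ u ∈ A.erase z,
                (if u ∈ z :: l then w u else if u ∈ I then (1:ℝ) else 0) :=
                mul_le_mul_of_nonneg_left (IH1.trans hM1) hq0
            _ ≤ _ := mul_le_mul_of_nonneg_right hqw hprod
    · -- `z` is not in `A`
      rw [if_neg (fun h => hzA h.1), zero_add]
      have hMM : M A (z :: l) I w = M A l I w := by
        unfold M
        apply Finset.prod_congr rfl
        intro u hu
        have huz : u ≠ z := by rintro rfl; exact hzA hu
        by_cases hul : u ∈ l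
        · rw [if_pos hul, if_pos (List.mem_cons_of_mem _ hul)]
        · have h2 : u ∉ z :: l := by
            rw [List.mem_cons]; push Not; exact ⟨huz, hul⟩
          rw [if_neg hul, if_neg h2]
      rw [hMM]
      -- adjacency facts
      have key1 : adj E I z v → ∀ u ∈ A, u ∈ l → ¬ adj E I z u := by
        rintro ⟨g, hg, hzg, hvg, hvz', hgx⟩ u huA hul ⟨f, hf, hzf, huf, huz, hfx⟩
        apply htri
        refine ⟨insert v A, hAE, f, hf, g, hg, u, z, v,
          Finset.mem_insert_of_mem huA, huf, hzf, hzg, Finset.mem_insert_self _ _, hvg, ?_, ?_, ?_⟩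
        · intro hug
          have huv : u ≠ v := by rintro rfl; exact hvA huA
          exact hdis0 u hul (hgx u hug huz huv)
        · rw [Finset.mem_insert]; push Not; exact ⟨Ne.symm hvz, hzA⟩
        · intro hvf
          have hvu : v ≠ u := by rintro rfl; exact hvA huA
          exact hvI (hfx v hvf hvz hvu)
      have key2 : ∀ u ∈ A, ∀ u' ∈ A, u ∈ l → u' ∈ l → adj E I z u → adj E I z u' → u = u' := by
        intro u huA u' huA' hul hul' ⟨f, hf, hzf, huf, huz, hfx⟩ ⟨f', hf', hzf', huf', huz', hfx'⟩
        by_contra hne
        apply htri
        refine ⟨insert v A, hAE, f, hf, f', hf', u, z, u',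
          Finset.mem_insert_of_mem huA, huf, hzf, hzf', Finset.mem_insert_of_mem huA', huf',
          ?_, ?_, ?_⟩
        · intro huf'2
          exact hdis0 u hul (hfx' u huf'2 huz hne)
        · rw [Finset.mem_insert]; push Not; exact ⟨Ne.symm hvz, hzA⟩
        · intro hu'f
          exact hdis0 u' hul' (hfx u' hu'f huz' (Ne.symm hne))
      by_cases hadj : adj E I z v
      · rw [if_pos hadj]
        refine IH0.trans (le_of_eq ?_)
        unfold M
        apply Finset.prod_congr rfl
        intro u hu
        by_cases hul : u ∈ l
        · rw [if_pos hul, if_pos hul]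
          unfold w0
          rw [if_neg (key1 hadj u hu hul)]
        · rw [if_neg hul, if_neg hul]
      · rw [if_neg hadj]
        refine (add_le_add (mul_le_mul_of_nonneg_left IH1 hq0)
          (mul_le_mul_of_nonneg_left IH0 h1q)).trans ?_
        -- membership indicator does not change
        have hind : ∀ u ∈ A, (u ∈ insert z I ↔ u ∈ I) := by
          intro u hu
          have huz : u ≠ z := by rintro rfl; exact hzA hu
          rw [Finset.mem_insert]; simp [huz]
        by_cases hex : ∃ u ∈ A, u ∈ l ∧ adj E I z u
        · obtain ⟨u, huA, hul, hua⟩ := hex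
          have e1 : M A l (insert z I) (w1 E I w z) = 0 := by
            unfold M
            apply Finset.prod_eq_zero huA
            rw [if_pos hul]; unfold w1; rw [if_pos hua]
          have e0 : M A l I (w0 E I w z) = M A l I w / (1 - q (w z)) := by
            unfold M
            rw [← Finset.mul_prod_erase A _ huA, ← Finset.mul_prod_erase A _ huA]
            rw [if_pos hul, if_pos hul]
            have : w0 E I w z u = w u / (1 - q (w z)) := by unfold w0; rw [if_pos hua]
            rw [this]
            have hrest : ∏ x ∈ A.erase u,
                (if x ∈ l then w0 E I w z x else if x ∈ I then (1:ℝ) else 0) =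
                ∏ x ∈ A.erase u, (if x ∈ l then w x else if x ∈ I then (1:ℝ) else 0) := by
              apply Finset.prod_congr rfl
              intro x hx
              rw [Finset.mem_erase] at hx
              by_cases hxl : x ∈ l
              · rw [if_pos hxl, if_pos hxl]
                unfold w0
                rw [if_neg (fun hxa => hx.1 (key2 x hx.2 u huA hxl hul hxa hua))]
              · rw [if_neg hxl, if_neg hxl]
            rw [hrest]; ring
          rw [e1, e0, mul_zero, zero_add, mul_div_cancel₀]
          linarith
        · push Not at hex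
          have e1 : M A l (insert z I) (w1 E I w z) = M A l I w := by
            unfold M
            apply Finset.prod_congr rfl
            intro u hu
            by_cases hul : u ∈ l
            · rw [if_pos hul, if_pos hul]; unfold w1; rw [if_neg (hex u hu hul)]
            · rw [if_neg hul, if_neg hul]
              simp only [hind u hu]
          have e0 : M A l I (w0 E I w z) = M A l I w := by
            unfold M
            apply Finset.prod_congr rfl
            intro u hu
            by_cases hul : u ∈ l
            · rw [if_pos hul, if_pos hul]; unfold w0; rw [if_neg (hex u hu hul)]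
            · rw [if_neg hul, if_neg hul]
          rw [e1, e0]
          apply le_of_eq; ring

/-- degeneracy ordering -/
lemma exists_order (E : Finset (Finset V)) (d : ℕ)
    (hdeg : ∀ S : Finset V, S.Nonempty →
          ∃ v ∈ S, (E.filter (fun e => v ∈ e ∧ e ⊆ S)).card ≤ d) :
    ∀ (n : ℕ) (S : Finset V), S.card = n → ∃ l : List V, l.Nodup ∧ (∀ x, x ∈ l ↔ x ∈ S) ∧
      ∀ (l₁ l₂ : List V) (v : V), l = l₁ ++ v :: l₂ →
        (E.filter (fun e => v ∈ e ∧ e ⊆ insert v l₁.toFinset)).card ≤ d := by
  intro n
  induction n with
  | zero =>
    intro S hS
    rw [Finset.card_eq_zero] at hS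
    subst hS
    refine ⟨[], List.nodup_nil, by simp, ?_⟩
    intro l₁ l₂ v h
    simp at h
  | succ n ih =>
    intro S hS
    have hne : S.Nonempty := by
      rw [← Finset.card_pos]; omega
    obtain ⟨v, hv, hcard⟩ := hdeg S hne
    obtain ⟨l, hnd, hmem, hl⟩ := ih (S.erase v) (by rw [Finset.card_erase_of_mem hv]; omega)
    refine ⟨l ++ [v], ?_, ?_, ?_⟩
    · rw [List.nodup_append]
      refine ⟨hnd, List.nodup_singleton v, ?_⟩
      intro a ha b hb
      rw [List.mem_singleton] at hb
      rw [hb]
      rintro rfl
      rw [hmem, Finset.mem_erase] at ha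
      exact ha.1 rfl
    · intro x
      rw [List.mem_append, List.mem_singleton, hmem, Finset.mem_erase]
      constructor
      · rintro (h | h)
        · exact h.2
        · rw [h]; exact hv
      · intro h
        by_cases hx : x = v
        · exact Or.inr hx
        · exact Or.inl ⟨hx, h⟩
    · intro l₁ l₂ u hu
      rcases List.eq_nil_or_concat l₂ with h2 | ⟨l₃, b, h2⟩
      · subst h2
        have h3 := List.append_inj' hu (by simp)
        have h4 : v = u := by
          have := h3.2
          simpa using this
        subst h4
        rw [← h3.1]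
        refine le_trans (le_of_eq ?_) hcard
        congr 1
        apply Finset.filter_congr
        intro e _
        have : insert v l.toFinset = S := by
          ext x
          rw [Finset.mem_insert, List.mem_toFinset, hmem, Finset.mem_erase]
          constructor
          · rintro (h | h)
            · rw [h]; exact hv
            · exact h.2
          · intro h
            by_cases hx : x = v
            · exact Or.inl hx
            · exact Or.inr ⟨hx, h⟩
        rw [this]
      · subst h2
        have h3 : l ++ [v] = (l₁ ++ u :: l₃) ++ [b] := by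
          rw [hu]; simp
        have h4 := List.append_inj' h3 (by simp)
        exact hl l₁ l₃ u h4.1

end Pool.H177R3.Hyp
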