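import Mathlib

/-! Combinatorial core of the lattice exclusion theorem for the gaps of zeta zeros. -/

open Finset

namespace H177.Lat

/-- number of indices of `I` whose points lie within `ρ` of the `n`-th point -/
noncomputable def kI (I : Finset ℕ) (y : ℕ → ℝ) (ρ : ℝ) (n : ℕ) : ℕ :=
  (I.filter (fun n' => |y n - y n'| ≤ ρ)).card

/-- sums of inverse squares of integers -/
lemma int_sq_sum (S : Finset ℤ) (R : ℕ) (hR : 2 ≤ R) (hS : ∀ j ∈ S, (R : ℤ) ≤ |j|) :
    ∑ j ∈ S, (1 : ℝ) / (j : ℝ) ^ 2 ≤ 4 / (R : ℝ) := by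
  classical
  -- bound through natAbs
  set P : Finset ℕ := S.image Int.natAbs with hP
  have hPR : ∀ m ∈ P, R ≤ m := by
    intro m hm
    rw [hP, mem_image] at hm
    obtain ⟨j, hj, rfl⟩ := hm
    have := hS j hj
    rw [Int.abs_eq_natAbs] at this
    exact_mod_cast this
  have h1 : ∑ j ∈ S, (1 : ℝ) / (j : ℝ) ^ 2 ≤ ∑ m ∈ P, 2 * ((1 : ℝ) / (m : ℝ) ^ 2) := by
    rw [← Finset.sum_fiberwise_of_maps_to (t := P) (g := Int.natAbs)
      (fun j hj => mem_image_of_mem _ hj)]
    refine Finset.sum_le_sum fun m hm => ?_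
    have h2 : ∑ j ∈ S with Int.natAbs j = m, (1 : ℝ) / (j : ℝ) ^ 2 =
        ∑ j ∈ S with Int.natAbs j = m, (1 : ℝ) / (m : ℝ) ^ 2 := by
      refine Finset.sum_congr rfl fun j hj => ?_
      have hj2 : Int.natAbs j = m := (mem_filter.1 hj).2
      have h3 : (j : ℝ) ^ 2 = (m : ℝ) ^ 2 := by
        rw [← hj2]
        have h4 : ((Int.natAbs j : ℕ) : ℤ) ^ 2 = j ^ 2 := Int.natAbs_sq j
        have h5 : (((Int.natAbs j : ℕ) : ℤ) : ℝ) ^ 2 = (j : ℝ) ^ 2 := by exact_mod_cast h4
        rw [← h5]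
        norm_cast
      rw [h3]
    rw [h2, Finset.sum_const, nsmul_eq_mul]
    have h3 : ((S.filter (fun j => Int.natAbs j = m)).card : ℝ) ≤ 2 := by
      have h4 : S.filter (fun j => Int.natAbs j = m) ⊆ {(m : ℤ), -(m : ℤ)} := by
        intro j hj
        have hj2 : Int.natAbs j = m := (mem_filter.1 hj).2
        rw [mem_insert, mem_singleton, ← hj2]
        exact Int.natAbs_eq j
      have h5 := Finset.card_le_card h4
      have h6 : ({(m : ℤ), -(m : ℤ)} : Finset ℤ).card ≤ 2 := Finset.card_le_two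
      exact_mod_cast h5.trans h6
    have h7 : (0 : ℝ) ≤ 1 / (m : ℝ) ^ 2 := by positivity
    exact mul_le_mul_of_nonneg_right h3 h7
  refine h1.trans ?_
  rw [← Finset.mul_sum]
  obtain ⟨N, hN⟩ : ∃ N : ℕ, ∀ m ∈ P, m < N := by
    refine ⟨P.sup id + 1, fun m hm => ?_⟩
    have := Finset.le_sup (f := id) hm
    simp only [id] at this
    omega
  have h2 : ∑ m ∈ P, (1 : ℝ) / (m : ℝ) ^ 2 ≤ ∑ m ∈ Finset.Ioo (R - 1) N, ((m : ℝ) ^ 2)⁻¹ := by
    calc ∑ m ∈ P, (1 : ℝ) / (m : ℝ) ^ 2 = ∑ m ∈ P, ((m : ℝ) ^ 2)⁻¹ := by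
          simp only [one_div]
      _ ≤ _ := by
          apply Finset.sum_le_sum_of_subset_of_nonneg
          · intro m hm
            rw [mem_Ioo]
            have := hPR m hm
            exact ⟨by omega, hN m hm⟩
          · intro m _ _
            positivity
  have h3 := sum_Ioo_inv_sq_le (α := ℝ) (R - 1) N
  have h4 : ((R - 1 : ℕ) : ℝ) + 1 = (R : ℝ) := by
    have : R - 1 + 1 = R := by omega
    exact_mod_cast this
  rw [h4] at h3
  have h5 := h2.trans h3
  calc 2 * ∑ m ∈ P, (1 : ℝ) / (m : ℝ) ^ 2 ≤ 2 * (2 / (R : ℝ)) := by linarith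
    _ = 4 / (R : ℝ) := by ring

/-- the far pairs -/
lemma far_pairs (I : Finset ℕ) (y : ℕ → ℝ) (R : ℕ) (hR : 2 ≤ R) :
    ∑ n ∈ I, ∑ n' ∈ I.filter (fun n' => (R : ℝ) < |y n - y n'|), 1 / (y n - y n') ^ 2 ≤
      16 / (R : ℝ) * ∑ n ∈ I, (kI I y 1 n : ℝ) := by
  classical
  set z : ℕ → ℤ := fun n => ⌊y n⌋ with hz
  set w : ℤ → ℝ := fun j => if (R : ℤ) ≤ |j| then 4 * (1 / (j : ℝ) ^ 2) else 0 with hw
  have hR0 : (0 : ℝ) < R := by positivity
  have hw0 : ∀ j, 0 ≤ w j := by
    intro j
    simp only [hw]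
    split_ifs <;> positivity
  have hwsymm : ∀ j, w (-j) = w j := by
    intro j
    simp only [hw]
    rw [abs_neg]
    push_cast
    rw [neg_sq]
  -- pointwise
  have hpt : ∀ n ∈ I, ∑ n' ∈ I.filter (fun n' => (R : ℝ) < |y n - y n'|), 1 / (y n - y n') ^ 2 ≤
      ∑ n' ∈ I, w (z n - z n') := by
    intro n _
    rw [Finset.sum_filter]
    refine Finset.sum_le_sum fun n' _ => ?_
    split_ifs with h
    · -- far
      have e1 : (z n : ℝ) ≤ y n := Int.floor_le _
      have e2 : y n < z n + 1 := Int.lt_floor_add_one _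
      have e3 : (z n' : ℝ) ≤ y n' := Int.floor_le _
      have e4 : y n' < z n' + 1 := Int.lt_floor_add_one _
      have e5 : |(y n - y n') - ((z n : ℝ) - z n')| < 1 := by
        rw [abs_lt]; constructor <;> linarith
      have e6 : |y n - y n'| < |((z n : ℝ) - z n')| + 1 := by
        have := abs_sub_abs_le_abs_sub (y n - y n') ((z n : ℝ) - z n')
        linarith
      have e7 : |((z n : ℝ) - z n')| < |y n - y n'| + 1 := by
        have := abs_sub_abs_le_abs_sub ((z n : ℝ) - z n') (y n - y n')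
        rw [abs_sub_comm] at e5
        linarith
      have e8 : (R : ℤ) ≤ |z n - z n'| := by
        have h1 : ((R : ℤ) : ℝ) < ((|z n - z n'| + 1 : ℤ) : ℝ) := by
          push_cast
          linarith
        have h2 : (R : ℤ) < |z n - z n'| + 1 := by exact_mod_cast h1
        omega
      have e9 : w (z n - z n') = 4 * (1 / ((z n : ℝ) - z n') ^ 2) := by
        simp only [hw]
        rw [if_pos e8]
        push_cast
        ring
      rw [e9]
      set A := |y n - y n'| with hA
      set B := |((z n : ℝ) - z n')| with hB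
      have hB2 : 2 ≤ B := by
        have h1 : ((R : ℤ) : ℝ) ≤ ((|z n - z n'| : ℤ) : ℝ) := by exact_mod_cast e8
        have h2 : ((|z n - z n'| : ℤ) : ℝ) = B := by
          rw [hB]; push_cast; rfl
        have h3 : (2 : ℝ) ≤ R := by exact_mod_cast hR
        rw [h2] at h1
        push_cast at h1
        linarith
      have hA2 : B / 2 ≤ A := by linarith
      have e10 : (y n - y n') ^ 2 = A ^ 2 := (sq_abs _).symm
      have e11 : ((z n : ℝ) - z n') ^ 2 = B ^ 2 := (sq_abs _).symm
      rw [e10, e11]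
      have hB0 : 0 < B := by linarith
      have hA0 : 0 < A := by linarith
      rw [mul_one_div, div_le_div_iff₀ (by positivity) (by positivity)]
      nlinarith
    · exact hw0 _
  refine (Finset.sum_le_sum hpt).trans ?_
  -- group by cells
  set P : Finset ℤ := I.image z with hP
  set N : ℤ → ℝ := fun p => ((I.filter (fun n => z n = p)).card : ℝ) with hN
  have hmaps : ∀ n ∈ I, z n ∈ P := fun n hn => mem_image_of_mem _ hn
  have hN0 : ∀ p, 0 ≤ N p := fun p => Nat.cast_nonneg _
  have hgroup : ∀ g : ℤ → ℝ, ∑ n ∈ I, g (z n) = ∑ p ∈ P, N p * g p := by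
    intro g
    rw [← Finset.sum_fiberwise_of_maps_to (t := P) (g := z) hmaps]
    refine Finset.sum_congr rfl fun p _ => ?_
    rw [Finset.sum_congr rfl (fun n hn => by rw [(mem_filter.1 hn).2] : ∀ n ∈ I.filter
      (fun n => z n = p), g (z n) = g p), Finset.sum_const, nsmul_eq_mul]
  have hdouble : ∑ n ∈ I, ∑ n' ∈ I, w (z n - z n') = ∑ p ∈ P, ∑ q ∈ P, N p * N q * w (p - q) := by
    have h1 : ∀ n ∈ I, ∑ n' ∈ I, w (z n - z n') = ∑ q ∈ P, N q * w (z n - q) := by
      intro n _
      exact hgroup (fun q => w (z n - q))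
    rw [Finset.sum_congr rfl h1, hgroup (fun p => ∑ q ∈ P, N q * w (p - q))]
    refine Finset.sum_congr rfl fun p _ => ?_
    rw [Finset.mul_sum]
    refine Finset.sum_congr rfl fun q _ => ?_
    ring
  rw [hdouble]
  have hW : ∀ p : ℤ, ∑ q ∈ P, w (p - q) ≤ 16 / (R : ℝ) := by
    intro p
    set S : Finset ℤ := (P.image (fun q => p - q)).filter (fun j => (R : ℤ) ≤ |j|) with hSdef
    have h1 : ∑ q ∈ P, w (p - q) = ∑ j ∈ P.image (fun q => p - q), w j := by
      symm
      refine Finset.sum_image (s := P) (g := fun q => p - q) (f := w) ?_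
      intro a _ b _ hab
      have hab' : p - a = p - b := hab
      omega
    rw [h1]
    have h2 : ∑ j ∈ P.image (fun q => p - q), w j = ∑ j ∈ S, 4 * (1 / (j : ℝ) ^ 2) := by
      rw [hSdef, Finset.sum_filter]
    rw [h2, ← Finset.mul_sum]
    have h3 := int_sq_sum S R hR (fun j hj => (mem_filter.1 hj).2)
    calc 4 * ∑ j ∈ S, (1 : ℝ) / (j : ℝ) ^ 2 ≤ 4 * (4 / (R : ℝ)) := by linarith
      _ = 16 / (R : ℝ) := by ring
  have h4 : ∑ p ∈ P, ∑ q ∈ P, N p * N q * w (p - q) ≤
      ∑ p ∈ P, ∑ q ∈ P, (N p ^ 2 * w (p - q) / 2 + N q ^ 2 * w (p - q) / 2) := by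
    refine Finset.sum_le_sum fun p _ => Finset.sum_le_sum fun q _ => ?_
    have h5 : N p * N q ≤ N p ^ 2 / 2 + N q ^ 2 / 2 := by nlinarith [sq_nonneg (N p - N q)]
    have h6 := mul_le_mul_of_nonneg_right h5 (hw0 (p - q))
    calc N p * N q * w (p - q) ≤ (N p ^ 2 / 2 + N q ^ 2 / 2) * w (p - q) := h6
      _ = _ := by ring
  have h5 : ∑ p ∈ P, ∑ q ∈ P, (N p ^ 2 * w (p - q) / 2 + N q ^ 2 * w (p - q) / 2) =
      ∑ p ∈ P, N p ^ 2 * ∑ q ∈ P, w (p - q) := by
    have h6 : ∑ p ∈ P, ∑ q ∈ P, N q ^ 2 * w (p - q) / 2 =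
        ∑ p ∈ P, ∑ q ∈ P, N p ^ 2 * w (p - q) / 2 := by
      rw [Finset.sum_comm]
      refine Finset.sum_congr rfl fun p _ => Finset.sum_congr rfl fun q _ => ?_
      have : w (q - p) = w (p - q) := by
        rw [← hwsymm]
        congr 1
        ring
      rw [this]
    simp only [Finset.sum_add_distrib]
    rw [h6, ← Finset.sum_add_distrib]
    refine Finset.sum_congr rfl fun p _ => ?_
    rw [← Finset.sum_add_distrib, Finset.mul_sum]
    refine Finset.sum_congr rfl fun q _ => ?_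
    ring
  rw [h5] at h4
  refine h4.trans ?_
  have h6 : ∑ p ∈ P, N p ^ 2 * ∑ q ∈ P, w (p - q) ≤ ∑ p ∈ P, N p ^ 2 * (16 / (R : ℝ)) :=
    Finset.sum_le_sum fun p _ => mul_le_mul_of_nonneg_left (hW p) (sq_nonneg _)
  refine h6.trans ?_
  rw [← Finset.sum_mul, mul_comm]
  apply mul_le_mul_of_nonneg_left _ (by positivity)
  -- diagonal cells
  have h7 : ∑ p ∈ P, N p ^ 2 = ∑ n ∈ I, N (z n) := by
    rw [hgroup N]
    refine Finset.sum_congr rfl fun p _ => ?_
    ring
  rw [h7]
  refine Finset.sum_le_sum fun n _ => ?_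
  simp only [hN]
  have h8 : I.filter (fun n' => z n' = z n) ⊆ I.filter (fun n' => |y n - y n'| ≤ 1) := by
    intro n' hn'
    obtain ⟨g1, g2⟩ := mem_filter.1 hn'
    refine mem_filter.2 ⟨g1, ?_⟩
    have e1 : (z n : ℝ) ≤ y n := Int.floor_le _
    have e2 : y n < z n + 1 := Int.lt_floor_add_one _
    have e3 : (z n' : ℝ) ≤ y n' := Int.floor_le _
    have e4 : y n' < z n' + 1 := Int.lt_floor_add_one _
    rw [g2] at e3 e4
    rw [abs_le]
    constructor <;> linarith
  exact_mod_cast Finset.card_le_card h8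

/-- Cauchy–Schwarz for a subset -/
lemma cs_card (I S : Finset ℕ) (hS : S ⊆ I) (k : ℕ → ℕ) (X : ℝ)
    (hX : ∑ n ∈ I, (k n : ℝ) ^ 2 ≤ X) :
    (∑ n ∈ S, (k n : ℝ)) ^ 2 ≤ (S.card : ℝ) * X := by
  have h1 : (∑ n ∈ S, (k n : ℝ)) ^ 2 ≤ (S.card : ℝ) * ∑ n ∈ S, (k n : ℝ) ^ 2 :=
    sq_sum_le_card_mul_sum_sq
  have h2 : ∑ n ∈ S, (k n : ℝ) ^ 2 ≤ X :=
    (Finset.sum_le_sum_of_subset_of_nonneg hS fun _ _ _ => by positivity).trans hX
  exact h1.trans (mul_le_mul_of_nonneg_left h2 (Nat.cast_nonneg _))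

/-- subadditivity of `|sin|` -/
lemma abs_sin_add_le (x y : ℝ) : |Real.sin (x + y)| ≤ |Real.sin x| + |Real.sin y| := by
  rw [Real.sin_add]
  refine (abs_add_le _ _).trans ?_
  rw [abs_mul, abs_mul]
  have h1 := Real.abs_cos_le_one x
  have h2 := Real.abs_cos_le_one y
  have h3 := abs_nonneg (Real.sin x)
  have h4 := abs_nonneg (Real.sin y)
  nlinarith

/-- a long step made of good steps -/
lemma long_step (θ ε : ℝ) (y : ℕ → ℝ) (p : ℕ) : ∀ d : ℕ,
    (∀ j, p ≤ j → j < p + d → |Real.sin (Real.pi * θ * (y (j + 1) - y j))| ≤ ε) →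
    |Real.sin (Real.pi * θ * (y (p + d) - y p))| ≤ d * ε := by
  intro d
  induction d with
  | zero => intro _; simp
  | succ d ih =>
    intro h
    have h1 := ih (fun j hj1 hj2 => h j hj1 (by omega))
    have h2 := h (p + d) (by omega) (by omega)
    have e : Real.pi * θ * (y (p + (d + 1)) - y p) =
        Real.pi * θ * (y (p + d) - y p) + Real.pi * θ * (y (p + d + 1) - y (p + d)) := by
      have : p + (d + 1) = p + d + 1 := by ring
      rw [this]
      ring
    rw [e]
    refine (abs_sin_add_le _ _).trans ?_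
    push_cast
    linarith

/-- the bad indices -/
noncomputable def Bad (a b : ℕ) (θ ε : ℝ) (y : ℕ → ℝ) : Finset ℕ :=
  (Finset.Ioc a b).filter (fun j => j + 1 ≤ b ∧ ε < |Real.sin (Real.pi * θ * (y (j + 1) - y j))|)

/-- the combinatorial core -/
theorem core (a b R : ℕ) (hR : 2 ≤ R) (θ κ D C1 CR M : ℝ) (hκ : 0 < κ) (hD : 0 ≤ D)
    (hCR : 0 < CR) (hM : 0 < M) (hRbig : 16 * D * C1 / R ≤ κ / 4)
    (y : ℕ → ℝ) (hy : ∀ n ∈ Finset.Ioc a b, ∀ m ∈ Finset.Ioc a b, n ≤ m → y n ≤ y m)
    (G : ℝ → ℝ) (hG0 : ∀ x, 0 ≤ G x) (hG1 : ∀ x, G x ≤ 1) (hGD : ∀ x, G x * x ^ 2 ≤ D)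
    (h1 : ∑ n ∈ Finset.Ioc a b, (kI (Finset.Ioc a b) y 1 n : ℝ) ^ 2 ≤ C1 * M)
    (hk : ∑ n ∈ Finset.Ioc a b, (kI (Finset.Ioc a b) y R n : ℝ) ^ 2 ≤ CR * M)
    (hF : κ * M ≤ ∑ n ∈ Finset.Ioc a b, ∑ n' ∈ Finset.Ioc a b,
      G (y n - y n') * |Real.sin (Real.pi * θ * (y n - y n'))|) :
    κ ^ 4 / (16 * CR ^ 3) * M ≤ ((Bad a b θ (κ / (4 * CR)) y).card : ℝ) := by
  classical
  set I := Finset.Ioc a b with hI
  set ε := κ / (4 * CR) with hε
  set B := Bad a b θ ε y with hB
  have hR0 : (0 : ℝ) < R := by positivity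
  have hε0 : 0 < ε := by positivity
  set sn : ℝ → ℝ := fun x => |Real.sin (Real.pi * θ * x)| with hsn
  have hsn0 : ∀ x, 0 ≤ sn x := fun x => abs_nonneg _
  have hsn1 : ∀ x, sn x ≤ 1 := fun x => Real.abs_sin_le_one _
  have hsneg : ∀ x, sn (-x) = sn x := by
    intro x
    simp only [hsn]
    rw [mul_neg, Real.sin_neg, abs_neg]
  set k : ℕ → ℕ := fun n => kI I y R n with hkdef
  have hBI : B ⊆ I := Finset.filter_subset _ _
  -- pairs with a bad gap in between
  set S : Finset ℕ := I.filter (fun n => ∃ j ∈ B, |y n - y j| ≤ R) with hS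
  have hSI : S ⊆ I := Finset.filter_subset _ _
  -- pointwise bound for the inner sums
  have hpt : ∀ n ∈ I, ∑ n' ∈ I, G (y n - y n') * sn (y n - y n') ≤
      D * (∑ n' ∈ I.filter (fun n' => (R : ℝ) < |y n - y n'|), 1 / (y n - y n') ^ 2) +
      ε * (k n : ℝ) ^ 2 + (if n ∈ S then (k n : ℝ) else 0) := by
    intro n hn
    rw [← Finset.sum_filter_add_sum_filter_not I (fun n' => (R : ℝ) < |y n - y n'|)]
    have hfar : ∑ n' ∈ I.filter (fun n' => (R : ℝ) < |y n - y n'|),
        G (y n - y n') * sn (y n - y n') ≤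
        D * (∑ n' ∈ I.filter (fun n' => (R : ℝ) < |y n - y n'|), 1 / (y n - y n') ^ 2) := by
      rw [Finset.mul_sum]
      refine Finset.sum_le_sum fun n' hn' => ?_
      have h2 := (mem_filter.1 hn').2
      have h3 : 0 < (y n - y n') ^ 2 := by
        rw [← sq_abs]
        have : 0 < |y n - y n'| := hR0.trans h2
        positivity
      rw [mul_one_div, le_div_iff₀ h3]
      have h4 := hGD (y n - y n')
      have h5 := mul_le_mul_of_nonneg_left (hsn1 (y n - y n')) (hG0 (y n - y n'))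
      calc G (y n - y n') * sn (y n - y n') * (y n - y n') ^ 2 ≤
          G (y n - y n') * 1 * (y n - y n') ^ 2 := mul_le_mul_of_nonneg_right h5 h3.le
        _ = G (y n - y n') * (y n - y n') ^ 2 := by ring
        _ ≤ D := h4
    have hcard : (I.filter (fun n' => ¬ (R : ℝ) < |y n - y n'|)).card = k n := by
      simp only [hkdef, kI, not_lt]
    have hnear : ∑ n' ∈ I.filter (fun n' => ¬ (R : ℝ) < |y n - y n'|),
        G (y n - y n') * sn (y n - y n') ≤
        ε * (k n : ℝ) ^ 2 + (if n ∈ S then (k n : ℝ) else 0) := by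
      by_cases hnS : n ∈ S
      · rw [if_pos hnS]
        have h2 : ∑ n' ∈ I.filter (fun n' => ¬ (R : ℝ) < |y n - y n'|),
            G (y n - y n') * sn (y n - y n') ≤
            ∑ n' ∈ I.filter (fun n' => ¬ (R : ℝ) < |y n - y n'|), (1 : ℝ) := by
          refine Finset.sum_le_sum fun n' _ => ?_
          exact mul_le_one₀ (hG1 _) (hsn0 _) (hsn1 _)
        rw [Finset.sum_const, nsmul_eq_mul, mul_one, hcard] at h2
        have h3 : 0 ≤ ε * (k n : ℝ) ^ 2 := by positivity
        linarith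
      · rw [if_neg hnS, add_zero]
        have h2 : ∀ n' ∈ I.filter (fun n' => ¬ (R : ℝ) < |y n - y n'|),
            G (y n - y n') * sn (y n - y n') ≤ ε * (k n : ℝ) := by
          intro n' hn'
          obtain ⟨g1, g2⟩ := mem_filter.1 hn'
          push Not at g2
          -- no bad index between
          have hbetween : ∀ p q : ℕ, p ∈ I → q ∈ I → p ≤ q → |y p - y q| ≤ R →
              (p = n ∨ q = n) → sn (y q - y p) ≤ (k n : ℝ) * ε := by
            intro p q hp hq hpq hd hpn
            have hstep := long_step θ ε y p (q - p) (by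
              intro j hj1 hj2
              by_contra hcon
              push Not at hcon
              apply hnS
              have hjI : j ∈ I := by
                rw [hI, Finset.mem_Ioc] at hp hq ⊢
                omega
              have hj1I : j + 1 ≤ b := by
                rw [hI, Finset.mem_Ioc] at hq
                omega
              have hjB : j ∈ B := by
                rw [hB, Bad, mem_filter]
                exact ⟨hjI, hj1I, hcon⟩
              rw [hS, mem_filter]
              refine ⟨hn, j, hjB, ?_⟩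
              have a1 := hy p hp j hjI hj1
              have a2 := hy j hjI q hq (by omega)
              rw [abs_le] at hd
              rcases hpn with h | h
              · rw [← h, abs_le]
                constructor <;> linarith [hd.1, hd.2]
              · rw [← h, abs_le]
                constructor <;> linarith [hd.1, hd.2])
            have e : p + (q - p) = q := by omega
            rw [e] at hstep
            refine hstep.trans (mul_le_mul_of_nonneg_right ?_ hε0.le)
            have hsub : Finset.Ioc p q ⊆ I.filter (fun n' => ¬ (R : ℝ) < |y n - y n'|) := by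
              intro j hj
              rw [Finset.mem_Ioc] at hj
              have hjI : j ∈ I := by
                rw [hI, Finset.mem_Ioc] at hp hq ⊢
                omega
              refine mem_filter.2 ⟨hjI, ?_⟩
              push Not
              have a1 := hy p hp j hjI (by omega)
              have a2 := hy j hjI q hq (by omega)
              rw [abs_le] at hd
              rcases hpn with h | h
              · rw [← h, abs_le]
                constructor <;> linarith [hd.1, hd.2]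
              · rw [← h, abs_le]
                constructor <;> linarith [hd.1, hd.2]
            have h3 := Finset.card_le_card hsub
            rw [Nat.card_Ioc, hcard] at h3
            exact_mod_cast h3
          have h3 : sn (y n - y n') ≤ (k n : ℝ) * ε := by
            rcases le_total n n' with h | h
            · have h4 := hbetween n n' hn g1 h g2 (Or.inl rfl)
              rw [← hsneg, neg_sub]
              exact h4
            · have h4 := hbetween n' n g1 hn h (by rw [abs_sub_comm]; exact g2) (Or.inr rfl)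
              exact h4
          calc G (y n - y n') * sn (y n - y n') ≤ 1 * ((k n : ℝ) * ε) :=
                mul_le_mul (hG1 _) h3 (hsn0 _) zero_le_one
            _ = ε * (k n : ℝ) := by ring
        have h3 := Finset.sum_le_sum h2
        rw [Finset.sum_const, nsmul_eq_mul, hcard] at h3
        calc _ ≤ (k n : ℝ) * (ε * (k n : ℝ)) := h3
          _ = ε * (k n : ℝ) ^ 2 := by ring
    linarith
  -- sum up
  have hsum : κ * M ≤ D * (16 / (R : ℝ) * ∑ n ∈ I, (kI I y 1 n : ℝ)) +
      ε * ∑ n ∈ I, (k n : ℝ) ^ 2 + ∑ n ∈ S, (k n : ℝ) := by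
    refine hF.trans ((Finset.sum_le_sum hpt).trans ?_)
    rw [Finset.sum_add_distrib, Finset.sum_add_distrib, ← Finset.mul_sum, ← Finset.mul_sum]
    have h2 := far_pairs I y R hR
    have h3 := mul_le_mul_of_nonneg_left h2 hD
    have h4 : ∑ n ∈ I, (if n ∈ S then (k n : ℝ) else 0) = ∑ n ∈ S, (k n : ℝ) := by
      rw [← Finset.sum_filter]
      congr 1
      ext n
      rw [mem_filter]
      exact ⟨fun h => h.2, fun h => ⟨hSI h, h⟩⟩
    rw [h4]
    linarith
  have hA : D * (16 / (R : ℝ) * ∑ n ∈ I, (kI I y 1 n : ℝ)) ≤ κ / 4 * M := by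
    have h2 : ∑ n ∈ I, (kI I y 1 n : ℝ) ≤ C1 * M := by
      refine le_trans (Finset.sum_le_sum fun n _ => ?_) h1
      have h3 : ((kI I y 1 n : ℕ) : ℝ) ≤ ((kI I y 1 n ^ 2 : ℕ) : ℝ) := by
        exact_mod_cast Nat.le_self_pow (by norm_num) _
      push_cast at h3
      exact h3
    calc D * (16 / (R : ℝ) * ∑ n ∈ I, (kI I y 1 n : ℝ)) ≤ D * (16 / (R : ℝ) * (C1 * M)) := by
          apply mul_le_mul_of_nonneg_left _ hD
          exact mul_le_mul_of_nonneg_left h2 (by positivity)
      _ = 16 * D * C1 / R * M := by ring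
      _ ≤ κ / 4 * M := mul_le_mul_of_nonneg_right hRbig hM.le
  have hE : ε * ∑ n ∈ I, (k n : ℝ) ^ 2 ≤ κ / 4 * M := by
    calc ε * ∑ n ∈ I, (k n : ℝ) ^ 2 ≤ ε * (CR * M) := mul_le_mul_of_nonneg_left hk hε0.le
      _ = κ / 4 * M := by rw [hε]; field_simp
  have hSsum : κ * M / 2 ≤ ∑ n ∈ S, (k n : ℝ) := by linarith
  have hcs1 := cs_card I S hSI k (CR * M) hk
  have hS1 : κ ^ 2 / (4 * CR) * M ≤ (S.card : ℝ) := by
    have h2 : (κ * M / 2) ^ 2 ≤ (S.card : ℝ) * (CR * M) := by
      refine le_trans ?_ hcs1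
      apply pow_le_pow_left₀ (by positivity) hSsum
    have h3 : (κ * M / 2) ^ 2 = (κ ^ 2 / (4 * CR) * M) * (CR * M) := by
      field_simp
      ring
    rw [h3] at h2
    exact le_of_mul_le_mul_right h2 (by positivity)
  -- the set S is covered by neighbourhoods of the bad indices
  have hS2 : (S.card : ℝ) ≤ ∑ j ∈ B, (k j : ℝ) := by
    have h2 : S ⊆ B.biUnion (fun j => I.filter (fun n => ¬ (R : ℝ) < |y j - y n|)) := by
      intro n hn
      rw [hS, mem_filter] at hn
      obtain ⟨g1, j, hj, g2⟩ := hn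
      rw [mem_biUnion]
      refine ⟨j, hj, mem_filter.2 ⟨g1, ?_⟩⟩
      push Not
      rw [abs_sub_comm]
      exact g2
    have h3 := (Finset.card_le_card h2).trans Finset.card_biUnion_le
    have h4 : ∀ j, (I.filter (fun n => ¬ (R : ℝ) < |y j - y n|)).card = k j := by
      intro j
      simp only [hkdef, kI, not_lt]
    simp only [h4] at h3
    exact_mod_cast h3
  have hcs2 := cs_card I B hBI k (CR * M) hk
  have h5 : (κ ^ 2 / (4 * CR) * M) ^ 2 ≤ (B.card : ℝ) * (CR * M) := by
    refine le_trans ?_ hcs2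
    apply pow_le_pow_left₀ (by positivity) (hS1.trans hS2)
  have h6 : (κ ^ 2 / (4 * CR) * M) ^ 2 = (κ ^ 4 / (16 * CR ^ 3) * M) * (CR * M) := by
    field_simp
    ring
  rw [h6] at h5
  exact le_of_mul_le_mul_right h5 (by positivity)

end H177.Lat
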