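import Pool.Agent.H345R2.A3.Num
import Pool.Agent.H177R3.LatC

/-! Sums over zeros as sums over indices. -/

open Complex Filter Topology Set MeasureTheory

namespace H177.Lat

open H370 hiding PP
open H370.A3 SP H370.A2
open SG (ord NZ zmult ZS)

theorem sum_conv (hRH : RiemannHypothesis) {A B : ℝ} (hA : 1 ≤ A) (f : ℝ → ℝ) :
    ∑ s ∈ Zf riemannZeta A B, (mult riemannZeta s : ℝ) * f s.im =
      ∑ n ∈ Finset.Ioc (NZ A) (NZ B), f (ord n) := by
  classical
  set Z := Zf riemannZeta A B with hZ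
  have hz : ∀ s, zmult s = mult riemannZeta s := fun s => rfl
  set J : ℂ → Finset ℕ := fun s => Finset.Ioc (NZ s.im - mult riemannZeta s) (NZ s.im) with hJ
  have hmle : ∀ s ∈ Z, mult riemannZeta s ≤ NZ s.im := by
    intro s hs
    obtain ⟨h1, h2, h3, h4⟩ := on_line hRH hA hs
    have := LG.CU.mult_le_NZ (by linarith : 0 < s.im) h4
    rw [h1] at this
    exact this
  have hord : ∀ s ∈ Z, ∀ n, NZ s.im < n + mult riemannZeta s → n ≤ NZ s.im →
      1 ≤ n → ord n = s.im := by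
    intro s hs n h5 h6 h7
    obtain ⟨h1, h2, h3, h4⟩ := on_line hRH hA hs
    exact LG.CU.ord_eq_of (by linarith) h4 (by rw [h1]; exact h5) h6 h7
  have hcard : ∀ s ∈ Z, (J s).card = mult riemannZeta s := by
    intro s hs
    have := hmle s hs
    rw [hJ, Nat.card_Ioc]
    omega
  have hJord : ∀ s ∈ Z, ∀ n ∈ J s, 1 ≤ n ∧ ord n = s.im := by
    intro s hs n hn
    rw [hJ, Finset.mem_Ioc] at hn
    have h1 := hmle s hs
    exact ⟨by omega, hord s hs n (by omega) hn.2 (by omega)⟩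
  have hdisj : (Z : Set ℂ).PairwiseDisjoint J := by
    intro s hs s' hs' hne
    rw [Function.onFun, Finset.disjoint_left]
    intro n hn hn'
    have e1 := (hJord s hs n hn).2
    have e2 := (hJord s' hs' n hn').2
    apply hne
    obtain ⟨g1, _⟩ := on_line hRH hA hs
    obtain ⟨g2, _⟩ := on_line hRH hA hs'
    rw [← g1, ← g2, ← e1, ← e2]
  have hsub : Z.biUnion J ⊆ Finset.Ioc (NZ A) (NZ B) := by
    intro n hn
    rw [Finset.mem_biUnion] at hn
    obtain ⟨s, hs, hn⟩ := hn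
    obtain ⟨g1, g2, g3, g4⟩ := on_line hRH hA hs
    obtain ⟨h1, h2⟩ := hJord s hs n hn
    rw [Finset.mem_Ioc]
    constructor
    · by_contra hcon
      push Not at hcon
      have h3 := (SG.ord_le_iff h1 A).mpr hcon
      linarith
    · have h3 : ord n ≤ B := by rw [h2]; exact g3
      exact (SG.ord_le_iff h1 B).mp h3
  have hcardU : (Z.biUnion J).card = NN riemannZeta A B := by
    rw [Finset.card_biUnion hdisj, NN_eq good_zeta hA]
    exact Finset.sum_congr rfl hcard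
  have hU : Z.biUnion J = Finset.Ioc (NZ A) (NZ B) := by
    apply Finset.eq_of_subset_of_card_le hsub
    rw [hcardU, Nat.card_Ioc]
    have := SG.NZ_le_add A B hA
    omega
  rw [← hU, Finset.sum_biUnion hdisj]
  refine Finset.sum_congr rfl fun s hs => ?_
  rw [Finset.sum_congr rfl (fun n hn => by rw [(hJord s hs n hn).2] : ∀ n ∈ J s, f (ord n) = f s.im),
    Finset.sum_const, hcard s hs, nsmul_eq_mul]

theorem double_conv (hRH : RiemannHypothesis) {A B : ℝ} (hA : 1 ≤ A) (f : ℝ → ℝ → ℝ) :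
    ∑ s ∈ Zf riemannZeta A B, ∑ s' ∈ Zf riemannZeta A B,
      (mult riemannZeta s : ℝ) * (mult riemannZeta s' : ℝ) * f s.im s'.im =
      ∑ n ∈ Finset.Ioc (NZ A) (NZ B), ∑ n' ∈ Finset.Ioc (NZ A) (NZ B), f (ord n) (ord n') := by
  have h1 : ∀ s ∈ Zf riemannZeta A B, ∑ s' ∈ Zf riemannZeta A B,
      (mult riemannZeta s : ℝ) * (mult riemannZeta s' : ℝ) * f s.im s'.im =
      (mult riemannZeta s : ℝ) * ∑ n' ∈ Finset.Ioc (NZ A) (NZ B), f s.im (ord n') := by
    intro s _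
    rw [← sum_conv hRH hA (fun x => f s.im x), Finset.mul_sum]
    refine Finset.sum_congr rfl fun s' _ => ?_
    ring
  rw [Finset.sum_congr rfl h1]
  exact sum_conv hRH hA (fun x => ∑ n' ∈ Finset.Ioc (NZ A) (NZ B), f x (ord n'))

theorem PP_conv (hRH : RiemannHypothesis) {A B : ℝ} (hA : 1 ≤ A) (ψ : ℝ → ℝ) (μ L : ℝ) :
    PP ψ μ A B L = ∑ n ∈ Finset.Ioc (NZ A) (NZ B), ∑ n' ∈ Finset.Ioc (NZ A) (NZ B),
      RR ψ μ (ord n * L / (2 * Real.pi) - ord n' * L / (2 * Real.pi)) := by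
  have hPP : PP ψ μ A B L = ∑ s ∈ Zf riemannZeta A B, ∑ s' ∈ Zf riemannZeta A B,
      (mult riemannZeta s : ℝ) * (mult riemannZeta s' : ℝ) *
      RR ψ μ ((s.im - s'.im) * L / (2 * Real.pi)) := by
    unfold PP
    rw [finsum_Zf good_zeta hA]
    refine Finset.sum_congr rfl fun s _ => ?_
    rw [finsum_Zf good_zeta hA]
  rw [hPP, double_conv hRH hA (fun x x' => RR ψ μ ((x - x') * L / (2 * Real.pi)))]
  refine Finset.sum_congr rfl fun n _ => Finset.sum_congr rfl fun n' _ => ?_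
  congr 1
  ring

theorem kk_conv (hRH : RiemannHypothesis) {A B : ℝ} (hA : 1 ≤ A) (ρ : ℝ) :
    ∑ s ∈ Zf riemannZeta A B, (mult riemannZeta s : ℝ) * (kk A B ρ s : ℝ) ^ 2 =
      ∑ n ∈ Finset.Ioc (NZ A) (NZ B),
        (((Finset.Ioc (NZ A) (NZ B)).filter (fun n' => |ord n - ord n'| ≤ ρ)).card : ℝ) ^ 2 := by
  classical
  have h1 : ∀ s : ℂ, (kk A B ρ s : ℝ) =
      (((Finset.Ioc (NZ A) (NZ B)).filter (fun n' => |s.im - ord n'| ≤ ρ)).card : ℝ) := by
    intro s
    have h2 := sum_conv hRH (B := B) hA (fun x => if |s.im - x| ≤ ρ then (1 : ℝ) else 0)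
    rw [← Finset.sum_filter, Finset.sum_const, nsmul_eq_mul, mul_one] at h2
    rw [← h2]
    unfold kk
    push_cast
    rfl
  simp_rw [h1]
  exact sum_conv hRH hA (fun x =>
    (((Finset.Ioc (NZ A) (NZ B)).filter (fun n' => |x - ord n'| ≤ ρ)).card : ℝ) ^ 2)

end H177.Lat
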