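import Pool.Agent.H345R2.A2.Four

/-! The test function for the lattice exclusion theorem. -/

open Filter Topology Set MeasureTheory

namespace H177.Lat

open H370.A2

/-- the triangle -/
noncomputable def tri (e u : ℝ) : ℝ := max 0 (1 - |u| / e)

lemma tri_nonneg (e u : ℝ) : 0 ≤ tri e u := le_max_left _ _

lemma tri_zero {e u : ℝ} (he : 0 < e) (h : e ≤ |u|) : tri e u = 0 := by
  unfold tri
  apply max_eq_left
  have : 1 ≤ |u| / e := by rw [le_div_iff₀ he]; linarith
  linarith

lemma tri_in {e u : ℝ} (he : 0 < e) (h : |u| ≤ e) : tri e u = 1 - |u| / e := by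
  unfold tri
  apply max_eq_right
  have : |u| / e ≤ 1 := by rw [div_le_iff₀ he]; linarith
  linarith

lemma tri_even (e u : ℝ) : tri e (-u) = tri e u := by
  unfold tri
  rw [abs_neg]

lemma tri_lip {e : ℝ} (he : 0 < e) (x y : ℝ) : |tri e x - tri e y| ≤ 1 / e * |x - y| := by
  unfold tri
  have h1 := abs_max_sub_max_le_abs (1 - |x| / e) (1 - |y| / e) 0
  rw [max_comm 0, max_comm 0]
  refine h1.trans ?_
  have h2 : 1 - |x| / e - (1 - |y| / e) = 1 / e * (|y| - |x|) := by ring
  rw [h2, abs_mul, abs_of_pos (by positivity : 0 < 1 / e)]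
  have h3 := abs_abs_sub_abs_le_abs_sub y x
  rw [abs_sub_comm y x] at h3
  gcongr

lemma tri_cont (e : ℝ) : Continuous (tri e) := by
  unfold tri; fun_prop

lemma tri_integrable {e : ℝ} (he : 0 < e) {g : ℝ → ℝ} (hg : Continuous g) :
    Integrable (fun u => tri e u * g u) := by
  apply ((tri_cont e).mul hg).integrable_of_hasCompactSupport
  apply HasCompactSupport.intro (isCompact_Icc (a := -e) (b := e))
  intro x hx
  have : e ≤ |x| := by
    by_contra h
    push Not at h
    obtain ⟨h3, h4⟩ := abs_lt.1 h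
    exact hx ⟨h3.le, h4.le⟩
  show tri e x * g x = 0
  rw [tri_zero he this, zero_mul]

/-- transform of the triangle -/
noncomputable def KK (e x : ℝ) : ℝ := ∫ u, tri e u * Real.cos (2 * Real.pi * u * x)

lemma KK_int {e : ℝ} (he : 0 < e) (x : ℝ) :
    KK e x = e * ∫ β in (-1 : ℝ)..1, (1 - |β|) * Real.cos (2 * Real.pi * (e * x) * β) := by
  have h1 : KK e x = ∫ u in (-e)..e, tri e u * Real.cos (2 * Real.pi * u * x) := by
    unfold KK
    symm
    apply intervalIntegral.integral_eq_integral_of_support_subset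
    intro α hα
    by_contra h
    apply hα
    have : e ≤ |α| := by
      by_contra h2
      push Not at h2
      obtain ⟨h3, h4⟩ := abs_lt.1 h2
      exact h ⟨h3, h4.le⟩
    show tri e α * Real.cos (2 * Real.pi * α * x) = 0
    rw [tri_zero he this, zero_mul]
  have h2 : ∫ β in (-1 : ℝ)..1, (fun u => tri e u * Real.cos (2 * Real.pi * u * x)) (e * β) =
      e⁻¹ • ∫ u in (e * (-1))..(e * 1), tri e u * Real.cos (2 * Real.pi * u * x) :=
    intervalIntegral.integral_comp_mul_left
      (fun u => tri e u * Real.cos (2 * Real.pi * u * x)) he.ne'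
  have h3 : ∫ β in (-1 : ℝ)..1, (fun u => tri e u * Real.cos (2 * Real.pi * u * x)) (e * β) =
      ∫ β in (-1 : ℝ)..1, (1 - |β|) * Real.cos (2 * Real.pi * (e * x) * β) := by
    refine intervalIntegral.integral_congr fun β hβ => ?_
    rw [Set.uIcc_of_le (by norm_num)] at hβ
    have h4 : |β| ≤ 1 := abs_le.2 hβ
    show tri e (e * β) * Real.cos (2 * Real.pi * (e * β) * x) = _
    rw [tri_in he (by rw [abs_mul, abs_of_pos he]; nlinarith), abs_mul, abs_of_pos he,
      mul_div_cancel_left₀ _ he.ne']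
    congr 2
    ring
  rw [h3] at h2
  rw [h1, h2, smul_eq_mul]
  have e1 : e * (-1 : ℝ) = -e := by ring
  have e2 : e * (1 : ℝ) = e := by ring
  rw [e1, e2, mul_inv_cancel_left₀ he.ne']

lemma KK_zero {e : ℝ} (he : 0 < e) : KK e 0 = e := by
  rw [KK_int he]
  have h1 : ∫ β in (-1 : ℝ)..1, (1 - |β|) * Real.cos (2 * Real.pi * (e * 0) * β) = 1 := by
    have h2 : ∀ β ∈ Set.uIcc (-1 : ℝ) 1, (1 - |β|) * Real.cos (2 * Real.pi * (e * 0) * β) =
        1 - |β| := by
      intro β _
      simp
    rw [intervalIntegral.integral_congr h2, int_sym (fun β => 1 - |β|) (by fun_prop) 1]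
    have h3 : ∀ β ∈ Set.uIcc (0 : ℝ) 1, (1 - |β|) + (1 - |-β|) = 2 - 2 * β := by
      intro β hβ
      rw [Set.uIcc_of_le zero_le_one] at hβ
      rw [abs_neg, abs_of_nonneg hβ.1]
      ring
    rw [intervalIntegral.integral_congr h3]
    rw [intervalIntegral.integral_sub
      ((by fun_prop : Continuous fun _ : ℝ => (2 : ℝ)).intervalIntegrable _ _)
      ((by fun_prop : Continuous fun β : ℝ => 2 * β).intervalIntegrable _ _),
      intervalIntegral.integral_const_mul, integral_id]
    simp
    norm_num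
  rw [h1, mul_one]

lemma KK_ne {e x : ℝ} (he : 0 < e) (hx : x ≠ 0) :
    KK e x = e * (Real.sin (Real.pi * (e * x)) / (Real.pi * (e * x))) ^ 2 := by
  rw [KK_int he, fejer (x := e * x) (by positivity)]

lemma KK_nonneg {e : ℝ} (he : 0 < e) (x : ℝ) : 0 ≤ KK e x := by
  rcases eq_or_ne x 0 with h | h
  · rw [h, KK_zero he]; exact he.le
  · rw [KK_ne he h]; positivity

lemma KK_le {e : ℝ} (he : 0 < e) (x : ℝ) : KK e x ≤ e := by
  rcases eq_or_ne x 0 with h | h
  · rw [h, KK_zero he]
  · rw [KK_ne he h]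
    have h1 : |Real.sin (Real.pi * (e * x)) / (Real.pi * (e * x))| ≤ 1 := by
      rw [abs_div]
      exact div_le_one_of_le₀ Real.abs_sin_le_abs (abs_nonneg _)
    have h2 : (Real.sin (Real.pi * (e * x)) / (Real.pi * (e * x))) ^ 2 ≤ 1 := by
      rw [← sq_abs]
      exact pow_le_one₀ (abs_nonneg _) h1
    nlinarith

lemma KK_sq {e : ℝ} (he : 0 < e) (x : ℝ) : KK e x * x ^ 2 ≤ 1 / e := by
  have hpi := Real.pi_gt_three
  rcases eq_or_ne x 0 with h | h
  · rw [h]
    have : (0 : ℝ) ≤ 1 / e := by positivity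
    simpa using this
  · rw [KK_ne he h, div_pow]
    have h1 : e * (Real.sin (Real.pi * (e * x)) ^ 2 / (Real.pi * (e * x)) ^ 2) * x ^ 2 =
        Real.sin (Real.pi * (e * x)) ^ 2 / (Real.pi ^ 2 * e) := by
      field_simp
    rw [h1, div_le_div_iff₀ (by positivity) he]
    have h2 : Real.sin (Real.pi * (e * x)) ^ 2 ≤ 1 := Real.sin_sq_le_one _
    have h3 : (1 : ℝ) ≤ Real.pi ^ 2 := by nlinarith
    calc Real.sin (Real.pi * (e * x)) ^ 2 * e ≤ Real.pi ^ 2 * e :=
          mul_le_mul_of_nonneg_right (h2.trans h3) he.le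
      _ = 1 * (Real.pi ^ 2 * e) := by ring

/-- the test function on the Fourier side -/
noncomputable def psi (e a b α : ℝ) : ℝ := tri e (α - a) - tri e (α - b)

lemma psi_lip {e : ℝ} (he : 0 < e) (a b x y : ℝ) :
    |psi e a b x - psi e a b y| ≤ 2 / e * |x - y| := by
  unfold psi
  have h1 := tri_lip he (x - a) (y - a)
  have h2 := tri_lip he (x - b) (y - b)
  have e1 : x - a - (y - a) = x - y := by ring
  have e2 : x - b - (y - b) = x - y := by ring
  rw [e1] at h1
  rw [e2] at h2
  have e3 : tri e (x - a) - tri e (x - b) - (tri e (y - a) - tri e (y - b)) =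
      (tri e (x - a) - tri e (y - a)) - (tri e (x - b) - tri e (y - b)) := by ring
  rw [e3]
  refine (abs_sub _ _).trans ?_
  have e4 : 2 / e * |x - y| = 1 / e * |x - y| + 1 / e * |x - y| := by ring
  rw [e4]
  linarith

lemma psi_zero {e a b μ : ℝ} (he : 0 < e) (hab : b < a) (hb : e ≤ b) (ha : a + e ≤ μ) (x : ℝ)
    (hx : μ ≤ |x|) : psi e a b x = 0 := by
  unfold psi
  have h1 : e ≤ |x - a| := by
    rcases le_or_gt 0 x with h | h
    · rw [abs_of_nonneg h] at hx
      rw [abs_of_nonneg (by linarith)]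
      linarith
    · rw [abs_of_neg h] at hx
      rw [abs_of_neg (by linarith)]
      linarith
  have h2 : e ≤ |x - b| := by
    rcases le_or_gt 0 x with h | h
    · rw [abs_of_nonneg h] at hx
      rw [abs_of_nonneg (by linarith)]
      linarith
    · rw [abs_of_neg h] at hx
      rw [abs_of_neg (by linarith)]
      linarith
  rw [tri_zero he h1, tri_zero he h2, sub_zero]

lemma tri_sin {e : ℝ} (x : ℝ) : ∫ u, tri e u * Real.sin (2 * Real.pi * u * x) = 0 := by
  have h1 := integral_neg_eq_self (fun u => tri e u * Real.sin (2 * Real.pi * u * x))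
    (volume : Measure ℝ)
  have h2 : (fun u => tri e (-u) * Real.sin (2 * Real.pi * (-u) * x)) =
      fun u => -(tri e u * Real.sin (2 * Real.pi * u * x)) := by
    funext u
    rw [tri_even]
    have : 2 * Real.pi * (-u) * x = -(2 * Real.pi * u * x) := by ring
    rw [this, Real.sin_neg]
    ring
  have h3 : ∫ u, tri e (-u) * Real.sin (2 * Real.pi * (-u) * x) =
      -∫ u, tri e u * Real.sin (2 * Real.pi * u * x) := by
    rw [h2, integral_neg]
  have h4 : ∫ u, tri e (-u) * Real.sin (2 * Real.pi * (-u) * x) =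
      ∫ u, tri e u * Real.sin (2 * Real.pi * u * x) := h1
  linarith

lemma tri_shift {e : ℝ} (he : 0 < e) (a x : ℝ) :
    ∫ α, tri e (α - a) * Real.cos (2 * Real.pi * α * x) =
      Real.cos (2 * Real.pi * a * x) * KK e x := by
  have h1 := integral_sub_right_eq_self
    (fun u => tri e u * Real.cos (2 * Real.pi * (u + a) * x)) (μ := (volume : Measure ℝ)) a
  have h2 : ∫ α, tri e (α - a) * Real.cos (2 * Real.pi * α * x) =
      ∫ u, tri e u * Real.cos (2 * Real.pi * (u + a) * x) := by
    rw [← h1]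
    refine integral_congr_ae (Filter.Eventually.of_forall fun α => ?_)
    show tri e (α - a) * Real.cos (2 * Real.pi * α * x) =
      tri e (α - a) * Real.cos (2 * Real.pi * (α - a + a) * x)
    rw [sub_add_cancel]
  have h3 : ∀ u : ℝ, tri e u * Real.cos (2 * Real.pi * (u + a) * x) =
      Real.cos (2 * Real.pi * a * x) * (tri e u * Real.cos (2 * Real.pi * u * x)) -
      Real.sin (2 * Real.pi * a * x) * (tri e u * Real.sin (2 * Real.pi * u * x)) := by
    intro u
    have : 2 * Real.pi * (u + a) * x = 2 * Real.pi * u * x + 2 * Real.pi * a * x := by ring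
    rw [this, Real.cos_add]
    ring
  rw [h2]
  simp_rw [h3]
  rw [integral_sub ((tri_integrable he (by fun_prop)).const_mul _)
    ((tri_integrable he (by fun_prop)).const_mul _), integral_const_mul, integral_const_mul,
    tri_sin, mul_zero, sub_zero]
  rfl

lemma tri_shift_integrable {e : ℝ} (he : 0 < e) (a : ℝ) {g : ℝ → ℝ} (hg : Continuous g) :
    Integrable (fun α => tri e (α - a) * g α) := by
  have h1 := (tri_integrable he (g := fun u => g (u + a)) (by fun_prop)).comp_sub_right a
  refine h1.congr (Filter.Eventually.of_forall fun α => ?_)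
  show tri e (α - a) * g (α - a + a) = tri e (α - a) * g α
  rw [sub_add_cancel]

lemma psi_int {e a b μ : ℝ} (he : 0 < e) (hab : b < a) (hb : e ≤ b) (ha : a + e ≤ μ)
    (g : ℝ → ℝ) : ∫ α in (-μ)..μ, psi e a b α * g α = ∫ α, psi e a b α * g α := by
  apply intervalIntegral.integral_eq_integral_of_support_subset
  intro α hα
  by_contra h
  apply hα
  have : μ ≤ |α| := by
    by_contra h2
    push Not at h2
    obtain ⟨h3, h4⟩ := abs_lt.1 h2
    exact h ⟨h3, h4.le⟩
  show psi e a b α * g α = 0
  rw [psi_zero he hab hb ha α this, zero_mul]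

lemma RR_psi {e a b μ : ℝ} (he : 0 < e) (hab : b < a) (hb : e ≤ b) (ha : a + e ≤ μ) (x : ℝ) :
    RR (psi e a b) μ x =
      (Real.cos (2 * Real.pi * a * x) - Real.cos (2 * Real.pi * b * x)) * KK e x := by
  unfold RR
  rw [psi_int he hab hb ha]
  have h1 : ∀ α, psi e a b α * Real.cos (2 * Real.pi * α * x) =
      tri e (α - a) * Real.cos (2 * Real.pi * α * x) -
      tri e (α - b) * Real.cos (2 * Real.pi * α * x) := by
    intro α
    unfold psi
    ring
  simp_rw [h1]
  rw [integral_sub (tri_shift_integrable he a (by fun_prop))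
    (tri_shift_integrable he b (by fun_prop)), tri_shift he, tri_shift he]
  ring

lemma tri_abs {e a : ℝ} (he : 0 < e) (ha : e ≤ a) : ∫ α, tri e (α - a) * |α| = a * e := by
  have h1 := integral_sub_right_eq_self
    (fun u => tri e u * |u + a|) (μ := (volume : Measure ℝ)) a
  have h2 : ∫ α, tri e (α - a) * |α| = ∫ u, tri e u * |u + a| := by
    rw [← h1]
    refine integral_congr_ae (Filter.Eventually.of_forall fun α => ?_)
    show tri e (α - a) * |α| = tri e (α - a) * |α - a + a|
    rw [sub_add_cancel]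
  have h3 : ∀ u : ℝ, tri e u * |u + a| = a * (tri e u * Real.cos (2 * Real.pi * u * 0)) +
      tri e u * u := by
    intro u
    rw [mul_zero, Real.cos_zero, mul_one]
    rcases le_or_gt e |u| with h | h
    · rw [tri_zero he h]; ring
    · obtain ⟨g1, g2⟩ := abs_lt.1 h
      rw [abs_of_nonneg (by linarith)]
      ring
  have h4 : ∫ u, tri e u * u = 0 := by
    have h5 := integral_neg_eq_self (fun u => tri e u * u) (volume : Measure ℝ)
    have h6 : ∫ u, tri e (-u) * (-u) = -∫ u, tri e u * u := by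
      rw [← integral_neg]
      refine integral_congr_ae (Filter.Eventually.of_forall fun u => ?_)
      show tri e (-u) * (-u) = -(tri e u * u)
      rw [tri_even]; ring
    have h7 : ∫ u, tri e (-u) * (-u) = ∫ u, tri e u * u := h5
    linarith
  rw [h2]
  simp_rw [h3]
  rw [integral_add ((tri_integrable he (by fun_prop)).const_mul _)
    (tri_integrable he (by fun_prop)), integral_const_mul, h4, add_zero]
  have h8 : ∫ u, tri e u * Real.cos (2 * Real.pi * u * 0) = e := KK_zero he
  rw [h8]

lemma psi_main {e a b μ : ℝ} (he : 0 < e) (hab : b < a) (hb : e ≤ b) (ha : a + e ≤ μ) :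
    psi e a b 0 + ∫ α in (-μ)..μ, |α| * psi e a b α = (a - b) * e := by
  have h0 : psi e a b 0 = 0 := by
    unfold psi
    rw [tri_zero he (by rw [zero_sub, abs_neg, abs_of_pos (by linarith)]; linarith),
      tri_zero he (by rw [zero_sub, abs_neg, abs_of_pos (by linarith)]; exact hb), sub_zero]
  have h1 : ∫ α in (-μ)..μ, |α| * psi e a b α = ∫ α in (-μ)..μ, psi e a b α * |α| :=
    intervalIntegral.integral_congr fun α _ => mul_comm _ _
  rw [h0, zero_add, h1, psi_int he hab hb ha]
  have h2 : ∀ α, psi e a b α * |α| = tri e (α - a) * |α| - tri e (α - b) * |α| := by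
    intro α
    unfold psi
    ring
  simp_rw [h2]
  rw [integral_sub (tri_shift_integrable he a continuous_abs)
    (tri_shift_integrable he b continuous_abs), tri_abs he (by linarith), tri_abs he hb]
  ring

lemma RR_psi_abs {e a b μ : ℝ} (he : 0 < e) (hab : b < a) (hb : e ≤ b) (ha : a + e ≤ μ) (x : ℝ) :
    |RR (psi e a b) μ x| ≤ 2 * e * (KK e x / e * |Real.sin (Real.pi * (a + b) * x)|) := by
  rw [RR_psi he hab hb ha, Real.cos_sub_cos, abs_mul, abs_of_nonneg (KK_nonneg he x)]
  have e1 : (2 * Real.pi * a * x + 2 * Real.pi * b * x) / 2 = Real.pi * (a + b) * x := by ring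
  rw [e1, abs_mul, abs_mul]
  have h1 : |Real.sin ((2 * Real.pi * a * x - 2 * Real.pi * b * x) / 2)| ≤ 1 :=
    Real.abs_sin_le_one _
  have h2 : |(-2 : ℝ)| = 2 := by norm_num
  rw [h2]
  have h3 : 2 * e * (KK e x / e * |Real.sin (Real.pi * (a + b) * x)|) =
      2 * |Real.sin (Real.pi * (a + b) * x)| * 1 * KK e x := by
    field_simp
  rw [h3]
  have h4 := KK_nonneg he x
  gcongr

lemma RR_psi_C {e a b μ : ℝ} (he : 0 < e) (hab : b < a) (hb : e ≤ b) (ha : a + e ≤ μ) (x : ℝ) :
    |RR (psi e a b) μ x| * x ^ 2 ≤ 2 / e := by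
  have h1 := RR_psi_abs he hab hb ha x
  have h2 : 2 * e * (KK e x / e * |Real.sin (Real.pi * (a + b) * x)|) ≤ 2 * KK e x := by
    have h3 := Real.abs_sin_le_one (Real.pi * (a + b) * x)
    have h4 := KK_nonneg he x
    have h5 : 2 * e * (KK e x / e * |Real.sin (Real.pi * (a + b) * x)|) =
        2 * KK e x * |Real.sin (Real.pi * (a + b) * x)| := by
      field_simp
    rw [h5]
    exact mul_le_of_le_one_right (by positivity) h3
  have h6 := KK_sq he x
  calc |RR (psi e a b) μ x| * x ^ 2 ≤ (2 * KK e x) * x ^ 2 :=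
        mul_le_mul_of_nonneg_right (h1.trans h2) (sq_nonneg x)
    _ = 2 * (KK e x * x ^ 2) := by ring
    _ ≤ 2 * (1 / e) := by linarith
    _ = 2 / e := by ring

end H177.Lat
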