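import Pool.Agent.H177R3.LatA
import Pool.Agent.H177R3.LatB

/-! Lattice exclusion: assembly. -/

open Complex Filter Topology Set MeasureTheory

namespace H177.Lat

open H370 hiding PP
open H370.A3 SP H370.A2
open SG (ord NZ zmult ZS)

/-- ordinates at the scale of the mean spacing -/
noncomputable def yy (T : ℝ) (n : ℕ) : ℝ := ord n * Real.log T / (2 * Real.pi)

lemma rhs_of (hRH : RiemannHypothesis) : RHs := by
  intro s h1 h2 h0
  apply hRH s h0
  · rintro ⟨k, hk⟩
    have := congrArg Complex.re hk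
    simp at this
    have hk0 : (0 : ℝ) ≤ k := Nat.cast_nonneg k
    linarith
  · intro h; rw [h] at h2; simp at h2

/-- second moments of the local counts -/
theorem third (hRH : RiemannHypothesis) (η0 ρ : ℝ) (hη0 : 0 < η0) (hη1 : η0 < 1) (hρ : 0 ≤ ρ) :
    ∃ C T0 : ℝ, 0 < C ∧ 100 ≤ T0 ∧ ∀ T : ℝ, T0 ≤ T → ∀ H : ℝ, T ^ η0 ≤ H → H ≤ T / 8 →
      ∀ t : ℝ, T ≤ t → t ≤ 2 * T →
      ∑ n ∈ Finset.Ioc (NZ t) (NZ (t + H)),
        (kI (Finset.Ioc (NZ t) (NZ (t + H))) (yy T) ρ n : ℝ) ^ 2 ≤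
        C * (H * Real.log T / (2 * Real.pi)) := by
  have hpi := Real.pi_pos
  obtain ⟨C, T2, hC, hT2, hC2⟩ := cube_sum (rhs_of hRH) (η0 / 2) (4 * Real.pi * ρ) (by positivity)
    (by linarith) (by positivity)
  have ev1 : ∀ᶠ T : ℝ in atTop, (2 * T) ^ (η0 / 2) ≤ T ^ η0 := by
    have h1 : ∀ᶠ T : ℝ in atTop, (2 : ℝ) ^ (η0 / 2) ≤ T ^ (η0 / 2) :=
      (tendsto_rpow_atTop (by linarith)).eventually_ge_atTop _
    filter_upwards [h1, eventually_gt_atTop 0] with T h1 h2
    calc (2 * T) ^ (η0 / 2) = 2 ^ (η0 / 2) * T ^ (η0 / 2) := Real.mul_rpow (by norm_num) h2.le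
      _ ≤ T ^ (η0 / 2) * T ^ (η0 / 2) := by gcongr
      _ = T ^ η0 := by rw [← Real.rpow_add h2]; congr 1; ring
  have ev2 : ∀ᶠ T : ℝ in atTop, 8 * Real.log T ≤ T / 20 := by
    have h1 := Real.isLittleO_log_id_atTop.bound (show (0 : ℝ) < 1 / 160 by norm_num)
    filter_upwards [h1, eventually_ge_atTop 1] with T h2 h3
    rw [Real.norm_of_nonneg (Real.log_nonneg h3), id, Real.norm_of_nonneg (by linarith)] at h2
    linarith
  obtain ⟨T3, hT3⟩ := (ev1.and ev2).exists_forall_of_atTop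
  refine ⟨4 * Real.pi * C, max 100 (max (2 * T2) T3), by positivity, le_max_left _ _,
    fun T hT H hH1 hH2 t ht1 ht2 => ?_⟩
  have hT100 : 100 ≤ T := (le_max_left _ _).trans hT
  have hTT2 : 2 * T2 ≤ T := ((le_max_left _ _).trans (le_max_right _ _)).trans hT
  obtain ⟨e1, e2⟩ := hT3 T (((le_max_right _ _).trans (le_max_right _ _)).trans hT)
  have hTpos : 0 < T := by linarith
  have hLpos : 0 < Real.log T := Real.log_pos (by linarith)
  have hHpos : 0 < H := lt_of_lt_of_le (Real.rpow_pos_of_pos hTpos _) hH1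
  set L := Real.log T with hL
  have hA1 : 1 ≤ t := by linarith
  set ρ' := 2 * Real.pi * ρ / L with hρ'
  have hthird : ∀ Tb : ℝ, T / 2 ≤ Tb → Tb ≤ 2 * T → Tb + 4 * Real.log Tb ≤ t →
      t + H ≤ 2 * Tb - 4 * Real.log Tb →
      ∑ s ∈ Zf riemannZeta t (t + H), (mult riemannZeta s : ℝ) *
        (kk t (t + H) ρ' s : ℝ) ^ 2 ≤ 2 * C * (H * L) := by
    intro Tb hb1 hb2 hb3 hb4
    have hTb0 : 0 < Tb := by linarith
    have hlogb : Real.log Tb ≤ 2 * L := by
      have h1 : Real.log Tb ≤ Real.log (T ^ 2) := Real.log_le_log hTb0 (by nlinarith)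
      rw [Real.log_pow] at h1
      push_cast at h1
      exact h1
    have hlogb0 : 0 < Real.log Tb := Real.log_pos (by linarith)
    have h1 := hC2 Tb (by linarith) t (t + H) hb3 hb4 (by
      have : t + H - t = H := by ring
      rw [this]
      calc Tb ^ (η0 / 2) ≤ (2 * T) ^ (η0 / 2) := Real.rpow_le_rpow hTb0.le hb2 (by positivity)
        _ ≤ T ^ η0 := e1
        _ ≤ H := hH1)
    have hH' : t + H - t = H := by ring
    rw [hH'] at h1
    have hρρ : ρ' ≤ 4 * Real.pi * ρ / Real.log Tb := by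
      rw [hρ', div_le_div_iff₀ hLpos hlogb0]
      calc 2 * Real.pi * ρ * Real.log Tb ≤ 2 * Real.pi * ρ * (2 * L) := by gcongr
        _ = 4 * Real.pi * ρ * L := by ring
    calc _ ≤ ∑ s ∈ Zf riemannZeta t (t + H), (mult riemannZeta s : ℝ) *
        (kk t (t + H) (4 * Real.pi * ρ / Real.log Tb) s : ℝ) ^ 2 := by
          refine Finset.sum_le_sum fun s _ => ?_
          have h2 : (kk t (t + H) ρ' s : ℝ) ≤
              (kk t (t + H) (4 * Real.pi * ρ / Real.log Tb) s : ℝ) := by
            exact_mod_cast kk_mono t (t + H) hρρ s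
          gcongr
      _ ≤ C * (H * Real.log Tb) := h1
      _ ≤ C * (H * (2 * L)) := by gcongr
      _ = _ := by ring
  have hthird' : ∑ s ∈ Zf riemannZeta t (t + H), (mult riemannZeta s : ℝ) *
        (kk t (t + H) ρ' s : ℝ) ^ 2 ≤ 2 * C * (H * L) := by
    have hlb : ∀ Tb : ℝ, 0 < Tb → Tb ≤ 2 * T → 4 * Real.log Tb ≤ T / 20 := by
      intro Tb h1 h2
      have h3 : Real.log Tb ≤ 2 * L := by
        have h4 : Real.log Tb ≤ Real.log (T ^ 2) := Real.log_le_log h1 (by nlinarith)
        rw [Real.log_pow] at h4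
        push_cast at h4
        exact h4
      linarith
    rcases le_or_gt t (3 / 2 * T) with h4 | h4
    · have := hlb (9 / 10 * T) (by linarith) (by linarith)
      exact hthird (9 / 10 * T) (by linarith) (by linarith) (by linarith)
        (by linarith)
    · have := hlb (27 / 20 * T) (by linarith) (by linarith)
      exact hthird (27 / 20 * T) (by linarith) (by linarith) (by linarith)
        (by linarith)
  rw [kk_conv hRH hA1] at hthird'
  have heq : ∀ n n' : ℕ, |yy T n - yy T n'| ≤ ρ ↔ |ord n - ord n'| ≤ ρ' := by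
    intro n n'
    have h1 : yy T n - yy T n' = (ord n - ord n') * (L / (2 * Real.pi)) := by
      unfold yy
      rw [← hL]
      ring
    have h2 : 0 < L / (2 * Real.pi) := by positivity
    rw [h1, abs_mul, abs_of_pos h2, hρ', ← le_div_iff₀ h2]
    have h3 : ρ / (L / (2 * Real.pi)) = 2 * Real.pi * ρ / L := by
      field_simp
    rw [h3]
  unfold kI
  simp_rw [heq]
  calc _ ≤ 2 * C * (H * L) := hthird'
    _ = 4 * Real.pi * C * (H * L / (2 * Real.pi)) := by
      field_simp
      ring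

/-- many gaps away from the lattice, at the local scale -/
theorem almost_bad (hRH : RiemannHypothesis) (η0 θ : ℝ) (hη0 : 0 < η0) (hη1 : η0 < 1)
    (hθ : 0 < θ) (hθ1 : θ < 1 + η0) :
    ∃ c ε δ : ℝ, 0 < c ∧ 0 < ε ∧ 0 < δ ∧ ∃ T0 : ℝ, 100 ≤ T0 ∧ ∀ T : ℝ, T0 ≤ T → ∀ H : ℝ,
      T ^ η0 ≤ H → H ≤ T / 8 →
      volume {t : ℝ | t ∈ Set.Icc T (2 * T) ∧
        ¬ (c * (H * Real.log T / (2 * Real.pi)) ≤
          ((Bad (NZ t) (NZ (t + H)) θ ε (yy T)).card : ℝ))} ≤ ENNReal.ofReal (T ^ (1 - δ)) := by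
  have hpi := Real.pi_pos
  set μ : ℝ := (θ / 2 + (1 + η0) / 2) / 2 with hμ
  have hμ1 : θ / 2 < μ := by rw [hμ]; linarith
  have hμ2 : 2 * μ < 1 + η0 := by rw [hμ]; linarith
  set g : ℝ := min (μ - θ / 2) (θ / 2) with hg
  have hg0 : 0 < g := lt_min (by linarith) (by linarith)
  have hg1 : g ≤ μ - θ / 2 := min_le_left _ _
  have hg2 : g ≤ θ / 2 := min_le_right _ _
  set e : ℝ := g / 4 with he
  set a : ℝ := θ / 2 + g / 4 with ha
  set b : ℝ := θ / 2 - g / 4 with hb
  have he0 : 0 < e := by positivity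
  have hab : b < a := by rw [ha, hb]; linarith
  have hbe : e ≤ b := by rw [hb, he]; linarith
  have hae : a + e ≤ μ := by rw [ha, he]; linarith
  have hsum : a + b = θ := by rw [ha, hb]; ring
  have hμpos : 0 < μ := by linarith
  set κ : ℝ := (a - b) / 4 with hκ
  have hκ0 : 0 < κ := by rw [hκ]; linarith
  set D : ℝ := 1 / e ^ 2 with hD
  have hD0 : 0 ≤ D := by positivity
  obtain ⟨δ, hδ, T1, hT1, hP⟩ := almost_smooth hRH η0 μ ((a - b) * e / 2) hη0 hη1 hμpos hμ2
    (by have : 0 < a - b := by linarith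
        positivity) (psi e a b) (2 / e) (psi_lip he0 a b)
    (psi_zero he0 hab hbe hae) (2 / e) (RR_psi_C he0 hab hbe hae)
  obtain ⟨C1, T2, hC1, hT2, h1⟩ := third hRH η0 1 hη0 hη1 zero_le_one
  obtain ⟨R, hR2, hRb⟩ : ∃ R : ℕ, 2 ≤ R ∧ 64 * D * C1 / κ ≤ R := by
    refine ⟨max 2 ⌈64 * D * C1 / κ⌉₊, le_max_left _ _, (Nat.le_ceil _).trans ?_⟩
    exact_mod_cast le_max_right _ _
  obtain ⟨CR, T3, hCR, hT3, hk⟩ := third hRH η0 R hη0 hη1 (Nat.cast_nonneg _)
  refine ⟨κ ^ 4 / (16 * CR ^ 3), κ / (4 * CR), δ, by positivity, by positivity, hδ,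
    max T1 (max T2 T3), hT2.trans ((le_max_left _ _).trans (le_max_right _ _)),
    fun T hT H hH1 hH2 => (measure_mono ?_).trans (hP T ((le_max_left _ _).trans hT) H hH1 hH2)⟩
  have hTT2 : T2 ≤ T := ((le_max_left _ _).trans (le_max_right _ _)).trans hT
  have hTT3 : T3 ≤ T := ((le_max_right _ _).trans (le_max_right _ _)).trans hT
  have hT100 : 100 ≤ T := hT2.trans hTT2
  have hTpos : 0 < T := by linarith
  have hLpos : 0 < Real.log T := Real.log_pos (by linarith)
  have hHpos : 0 < H := lt_of_lt_of_le (Real.rpow_pos_of_pos hTpos _) hH1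
  set M : ℝ := H * Real.log T / (2 * Real.pi) with hM
  have hM0 : 0 < M := by positivity
  rintro t ⟨ht1, ht2⟩
  refine ⟨ht1, fun hcon => ht2 ?_⟩
  have hA1 : 1 ≤ t := by linarith [ht1.1]
  have hR0 : (0 : ℝ) < R := by
    have : 0 < R := by omega
    exact_mod_cast this
  refine core (NZ t) (NZ (t + H)) R hR2 θ κ D C1 CR M hκ0 hD0 hCR hM0 ?_ (yy T) ?_
    (fun x => KK e x / e) (fun x => div_nonneg (KK_nonneg he0 x) he0.le)
    (fun x => div_le_one_of_le₀ (KK_le he0 x) he0.le) ?_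
    (h1 T hTT2 H hH1 hH2 t ht1.1 ht1.2) (hk T hTT3 H hH1 hH2 t ht1.1 ht1.2) ?_
  · rw [div_le_iff₀ hκ0] at hRb
    rw [div_le_iff₀ hR0]
    linarith
  · intro n hn m _ hnm
    rw [Finset.mem_Ioc] at hn
    have h2 := SG.ord_mono (by omega : 1 ≤ n) hnm
    unfold yy
    gcongr
  · intro x
    have h2 := KK_sq he0 x
    have h3 : KK e x / e * x ^ 2 = (KK e x * x ^ 2) / e := by ring
    rw [h3, hD, div_le_iff₀ he0]
    calc KK e x * x ^ 2 ≤ 1 / e := h2
      _ = 1 / e ^ 2 * e := by field_simp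
  · rw [psi_main he0 hab hbe hae, PP_conv hRH hA1] at hcon
    have h2 := (abs_le.1 hcon).1
    have h3 : ∑ n ∈ Finset.Ioc (NZ t) (NZ (t + H)), ∑ n' ∈ Finset.Ioc (NZ t) (NZ (t + H)),
        RR (psi e a b) μ (ord n * Real.log T / (2 * Real.pi) -
          ord n' * Real.log T / (2 * Real.pi)) ≤
        2 * e * ∑ n ∈ Finset.Ioc (NZ t) (NZ (t + H)), ∑ n' ∈ Finset.Ioc (NZ t) (NZ (t + H)),
        KK e (yy T n - yy T n') / e * |Real.sin (Real.pi * θ * (yy T n - yy T n'))| := by
      rw [Finset.mul_sum]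
      refine Finset.sum_le_sum fun n _ => ?_
      rw [Finset.mul_sum]
      refine Finset.sum_le_sum fun n' _ => ?_
      have h4 := RR_psi_abs he0 hab hbe hae (yy T n - yy T n')
      rw [hsum] at h4
      exact (le_abs_self _).trans h4
    have h5 : (a - b) * e / 2 * M ≤ 2 * e * ∑ n ∈ Finset.Ioc (NZ t) (NZ (t + H)),
        ∑ n' ∈ Finset.Ioc (NZ t) (NZ (t + H)),
        KK e (yy T n - yy T n') / e * |Real.sin (Real.pi * θ * (yy T n - yy T n'))| := by
      refine le_trans ?_ h3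
      have e1 : M * ((a - b) * e) - (a - b) * e / 2 * M = (a - b) * e / 2 * M := by ring
      linarith
    have h6 : (a - b) * e / 2 * M = 2 * e * (κ * M) := by rw [hκ]; ring
    rw [h6] at h5
    exact le_of_mul_le_mul_left h5 (by positivity)

/-- the normalised gap -/
noncomputable def del (n : ℕ) : ℝ :=
  (ord (n + 1) * Real.log (ord (n + 1)) - ord n * Real.log (ord n)) / (2 * Real.pi)

lemma xlog_low {x y : ℝ} (hx : 0 < x) (hxy : x ≤ y) :
    (y - x) * (Real.log x + 1) ≤ y * Real.log y - x * Real.log x := by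
  have hy : 0 < y := hx.trans_le hxy
  have h1 := Real.log_le_sub_one_of_pos (div_pos hx hy)
  rw [Real.log_div hx.ne' hy.ne'] at h1
  have h2 : y * (Real.log x - Real.log y) ≤ y * (x / y - 1) := mul_le_mul_of_nonneg_left h1 hy.le
  have h3 : y * (x / y - 1) = x - y := by field_simp
  rw [h3] at h2
  linarith

lemma sum_gaps (a b : ℕ) (y : ℕ → ℝ) (hab : a + 1 ≤ b) :
    ∑ j ∈ Finset.Ico (a + 1) b, (y (j + 1) - y j) = y b - y (a + 1) := by
  rw [Finset.sum_Ico_eq_sum_range]
  have h2 := Finset.sum_range_sub (fun k => y (a + 1 + k)) (b - (a + 1))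
  have h3 : a + 1 + (b - (a + 1)) = b := by omega
  simp only [add_zero, h3] at h2
  rw [← h2]
  refine Finset.sum_congr rfl fun i _ => ?_
  rfl

theorem almost_delta (hRH : RiemannHypothesis) (η0 θ : ℝ) (hη0 : 0 < η0) (hη1 : η0 < 1)
    (hθ : 0 < θ) (hθ1 : θ < 1 + η0) :
    ∃ c δ : ℝ, 0 < c ∧ 0 < δ ∧ ∃ T0 : ℝ, 100 ≤ T0 ∧ ∀ T : ℝ, T0 ≤ T → ∀ H : ℝ,
      T ^ η0 ≤ H → H ≤ T / 8 →
      volume {t : ℝ | T ≤ t ∧ t ≤ 2 * T ∧
        ({n : ℕ | 1 ≤ n ∧ t < ord n ∧ ord n ≤ t + H ∧ ∀ k : ℤ, c ≤ |del n - k / θ|}.ncard : ℝ) <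
          c * (H * Real.log T)} ≤ ENNReal.ofReal (T ^ (1 - δ)) := by
  have hpi := Real.pi_pos
  have hpi3 := Real.pi_gt_three
  obtain ⟨c, ε, δ, hc, hε, hδ, T0, hT0, h⟩ := almost_bad hRH η0 θ hη0 hη1 hθ hθ1
  set U : ℝ := 2 / c with hU
  have hU0 : 0 < U := by positivity
  set ε' : ℝ := ε / (2 * Real.pi * θ) with hε'
  have hε'0 : 0 < ε' := by positivity
  obtain ⟨T1, hT1⟩ := (Real.tendsto_log_atTop.eventually_ge_atTop
    (3 * U / ε')).exists_forall_of_atTop
  set c' : ℝ := min ε' (c / (4 * Real.pi)) with hc'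
  have hc'0 : 0 < c' := lt_min hε'0 (by positivity)
  refine ⟨c', δ, hc'0, hδ, max T0 T1, hT0.trans (le_max_left _ _), fun T hT H hH1 hH2 =>
    (measure_mono ?_).trans (h T ((le_max_left _ _).trans hT) H hH1 hH2)⟩
  have hT100 : 100 ≤ T := (hT0.trans (le_max_left _ _)).trans hT
  have hL1 := hT1 T ((le_max_right _ _).trans hT)
  have hTpos : 0 < T := by linarith
  have hLpos : 0 < Real.log T := Real.log_pos (by linarith)
  have hHpos : 0 < H := lt_of_lt_of_le (Real.rpow_pos_of_pos hTpos _) hH1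
  rintro t ⟨ht1, ht2, ht3⟩
  refine ⟨⟨ht1, ht2⟩, fun hcon => ?_⟩
  set M : ℝ := H * Real.log T / (2 * Real.pi) with hM
  have hM0 : 0 < M := by positivity
  set a := NZ t with ha
  set b := NZ (t + H) with hb
  set y := yy T with hy
  set Bd := Bad a b θ ε y with hBd
  have hBdmem : ∀ j ∈ Bd, a < j ∧ j + 1 ≤ b ∧ ε < |Real.sin (Real.pi * θ * (y (j + 1) - y j))| := by
    intro j hj
    rw [hBd, Bad, Finset.mem_filter, Finset.mem_Ioc] at hj
    exact ⟨hj.1.1, hj.2.1, hj.2.2⟩
  have hne : 0 < Bd.card := by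
    have h1 : (0 : ℝ) < (Bd.card : ℝ) := lt_of_lt_of_le (by positivity) hcon
    exact_mod_cast h1
  obtain ⟨j0, hj0⟩ := Finset.card_pos.1 hne
  have hab : a + 1 ≤ b := by
    have := hBdmem j0 hj0
    omega
  have hgap0 : ∀ j, 1 ≤ j → 0 ≤ y (j + 1) - y j := by
    intro j hj
    have h2 := SG.ord_mono hj (Nat.le_succ j)
    have h3 : y (j + 1) - y j = (ord (j + 1) - ord j) * (Real.log T / (2 * Real.pi)) := by
      simp only [hy, yy]; ring
    rw [h3]
    exact mul_nonneg (by linarith) (by positivity)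
  -- total length
  have htot : ∑ j ∈ Bd, (y (j + 1) - y j) ≤ M := by
    have h1 : ∑ j ∈ Bd, (y (j + 1) - y j) ≤ ∑ j ∈ Finset.Ico (a + 1) b, (y (j + 1) - y j) := by
      apply Finset.sum_le_sum_of_subset_of_nonneg
      · intro j hj
        have := hBdmem j hj
        rw [Finset.mem_Ico]
        omega
      · intro j hj _
        rw [Finset.mem_Ico] at hj
        exact hgap0 j (by omega)
    rw [sum_gaps a b y hab] at h1
    refine h1.trans ?_
    have h2 : ord b ≤ t + H := (SG.ord_le_iff (by omega) _).mpr le_rfl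
    have h3 : t < ord (a + 1) := by
      by_contra hcon2
      push Not at hcon2
      have := (SG.ord_le_iff (by omega : 1 ≤ a + 1) t).mp hcon2
      omega
    have h4 : y b - y (a + 1) = (ord b - ord (a + 1)) * (Real.log T / (2 * Real.pi)) := by
      simp only [hy, yy]; ring
    rw [h4, hM, mul_div_assoc]
    apply mul_le_mul_of_nonneg_right _ (by positivity)
    linarith
  set Bs := Bd.filter (fun j => y (j + 1) - y j ≤ U) with hBs
  have hbig : ((Bd.filter (fun j => ¬ (y (j + 1) - y j ≤ U))).card : ℝ) * U ≤ M := by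
    refine le_trans ?_ htot
    have h1 : ∑ j ∈ Bd.filter (fun j => ¬ (y (j + 1) - y j ≤ U)), U ≤
        ∑ j ∈ Bd.filter (fun j => ¬ (y (j + 1) - y j ≤ U)), (y (j + 1) - y j) := by
      refine Finset.sum_le_sum fun j hj => ?_
      have := (Finset.mem_filter.1 hj).2
      push Not at this
      exact this.le
    rw [Finset.sum_const, nsmul_eq_mul] at h1
    refine h1.trans ?_
    apply Finset.sum_le_sum_of_subset_of_nonneg (Finset.filter_subset _ _)
    intro j hj _
    exact hgap0 j (by have := hBdmem j hj; omega)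
  have hBscard : c / 2 * M ≤ (Bs.card : ℝ) := by
    have h1 : (Bd.card : ℝ) = Bs.card + (Bd.filter (fun j => ¬ (y (j + 1) - y j ≤ U))).card := by
      rw [hBs]
      exact_mod_cast (Finset.card_filter_add_card_filter_not
        (s := Bd) (fun j => y (j + 1) - y j ≤ U)).symm
    have h2 : ((Bd.filter (fun j => ¬ (y (j + 1) - y j ≤ U))).card : ℝ) ≤ M / U := by
      rw [le_div_iff₀ hU0]; exact hbig
    have h3 : M / U = c / 2 * M := by rw [hU]; field_simp
    rw [h3] at h2
    linarith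
  -- transfer
  set S : Set ℕ := {n : ℕ | 1 ≤ n ∧ t < ord n ∧ ord n ≤ t + H ∧ ∀ k : ℤ, c' ≤ |del n - k / θ|}
    with hS
  have hSfin : S.Finite := by
    refine (Set.finite_Iic (NZ (t + H))).subset ?_
    rintro n ⟨h1, h2, h3, h4⟩
    exact (SG.ord_le_iff h1 _).mp h3
  have hsub : (Bs : Set ℕ) ⊆ S := by
    intro j hj
    rw [Finset.mem_coe, hBs, Finset.mem_filter] at hj
    obtain ⟨hj1, hj2⟩ := hj
    obtain ⟨g1, g2, g3⟩ := hBdmem j hj1
    have hj0' : 1 ≤ j := by omega
    have q1 : t < ord j := by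
      by_contra hcon2
      push Not at hcon2
      have := (SG.ord_le_iff hj0' t).mp hcon2
      omega
    have q2 : ord (j + 1) ≤ t + H := (SG.ord_le_iff (by omega) _).mpr g2
    have q3 := SG.ord_mono hj0' (Nat.le_succ j)
    have hx0 : 0 < ord j := by linarith
    have q3' : ord j ≤ ord (j + 1) := q3
    refine ⟨hj0', q1, q3'.trans q2, fun k => ?_⟩
    set u := y (j + 1) - y j with hu
    have hu0 : 0 ≤ u := hgap0 j hj0'
    have hu1 : u = (ord (j + 1) - ord j) * Real.log T / (2 * Real.pi) := by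
      simp only [hu, hy, yy]; ring
    -- comparison of the two normalisations
    have hlogx : Real.log T ≤ Real.log (ord j) := Real.log_le_log hTpos (by linarith)
    have hlogy : Real.log (ord (j + 1)) + 1 ≤ Real.log T + 3 := by
      have h6 : Real.log (ord (j + 1)) ≤ Real.log (3 * T) :=
        Real.log_le_log (hx0.trans_le q3') (by linarith)
      rw [Real.log_mul (by norm_num) hTpos.ne'] at h6
      have h7 : Real.log 3 ≤ 2 := by
        have := Real.log_le_sub_one_of_pos (show (0 : ℝ) < 3 by norm_num)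
        linarith
      linarith
    have hd0 : 0 ≤ ord (j + 1) - ord j := by linarith
    have hlow : u ≤ del j := by
      rw [hu1]
      unfold del
      apply div_le_div_of_nonneg_right _ (by positivity)
      refine le_trans ?_ (xlog_low hx0 q3')
      exact mul_le_mul_of_nonneg_left (by linarith) hd0
    have hup : del j ≤ u + 3 * U / Real.log T := by
      have h5 : del j ≤ (ord (j + 1) - ord j) * (Real.log T + 3) / (2 * Real.pi) := by
        unfold del
        apply div_le_div_of_nonneg_right _ (by positivity)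
        exact (xlog_aux hx0 q3').trans (mul_le_mul_of_nonneg_left hlogy hd0)
      have h6 : (ord (j + 1) - ord j) * (Real.log T + 3) / (2 * Real.pi) =
          u + 3 * u / Real.log T := by
        rw [hu1]
        field_simp
      rw [h6] at h5
      refine h5.trans ?_
      have h7 : 3 * u / Real.log T ≤ 3 * U / Real.log T :=
        div_le_div_of_nonneg_right (by linarith) hLpos.le
      linarith
    have hsmall : 3 * U / Real.log T ≤ ε' := by
      rw [div_le_iff₀ hε'0] at hL1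
      rw [div_le_iff₀ hLpos]
      linarith
    -- distance to the lattice
    have hdist : 2 * ε' ≤ |u - k / θ| := by
      have h5 : |Real.sin (Real.pi * θ * u)| ≤ |Real.pi * θ * u - k * Real.pi| := by
        have h6 := Real.abs_sin_le_abs (x := Real.pi * θ * u - k * Real.pi)
        rw [Real.sin_sub_int_mul_pi] at h6
        rw [abs_mul] at h6
        have h7 : |((-1 : ℝ) ^ k)| = 1 := by
          rw [abs_zpow, abs_neg, abs_one, one_zpow]
        rw [h7, one_mul] at h6
        exact h6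
      have h8 : Real.pi * θ * u - k * Real.pi = Real.pi * θ * (u - k / θ) := by
        field_simp
      rw [h8, abs_mul, abs_of_pos (by positivity : 0 < Real.pi * θ)] at h5
      have h9 := g3.le.trans h5
      have h10 : 2 * ε' = ε / (Real.pi * θ) := by
        rw [hε']
        field_simp
      rw [h10, div_le_iff₀ (by positivity)]
      linarith
    have hfin : ε' ≤ |del j - k / θ| := by
      have h5 : |u - k / θ| ≤ |del j - k / θ| + |del j - u| := by
        have h6 := abs_sub_le u (del j) (k / θ)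
        rw [abs_sub_comm u (del j)] at h6
        linarith
      have h7 : |del j - u| ≤ ε' := by
        rw [abs_of_nonneg (by linarith)]
        linarith
      linarith
    exact (min_le_left _ _).trans hfin
  have hle := Set.ncard_le_ncard hsub hSfin
  rw [Set.ncard_coe_finset] at hle
  have hle' : (Bs.card : ℝ) ≤ (S.ncard : ℝ) := by exact_mod_cast hle
  have hfinal : c' * (H * Real.log T) ≤ c / 2 * M := by
    have h5 : c / 2 * M = c / (4 * Real.pi) * (H * Real.log T) := by
      rw [hM]; field_simp; ring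
    rw [h5]
    exact mul_le_mul_of_nonneg_right (min_le_right _ _) (by positivity)
  linarith

end H177.Lat
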