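import Pool.Agent.H177R3.LatD

/-! Lattice exclusion: the first `N` gaps. -/

open Complex Filter Topology Set MeasureTheory

namespace H177.Lat

open H370 hiding PP
open H370.A3 SP H370.A2
open SG (ord NZ zmult ZS)

lemma NZ_three : ∃ C : ℝ, 0 < C ∧ ∀ T : ℝ, 4 ≤ T → (NZ (3 * T) : ℝ) ≤ C * (T * Real.log T) := by
  obtain ⟨C, hC, hb⟩ := SG.NZ_nat_bound
  refine ⟨NZ 3 + 8 * C, by positivity, fun T hT => ?_⟩
  set m : ℕ := ⌈3 * T⌉₊ with hm
  have hm1 : 3 * T ≤ m := Nat.le_ceil _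
  have hm2 : (m : ℝ) ≤ 4 * T := by
    have := (Nat.ceil_lt_add_one (by linarith : 0 ≤ 3 * T)).le
    linarith
  have hm3 : 3 ≤ m := by
    have : (3 : ℝ) ≤ m := by linarith
    exact_mod_cast this
  have h2 := hb m hm3
  have h3 : (NZ (3 * T) : ℝ) ≤ NZ (m : ℝ) := by exact_mod_cast SG.NZ_mono hm1
  have hm0 : (0 : ℝ) < m := by linarith
  have h4 : Real.log m ≤ 2 * Real.log T := by
    have h5 : Real.log m ≤ Real.log (T ^ 2) := by
      apply Real.log_le_log hm0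
      nlinarith
    rw [Real.log_pow] at h5
    push_cast at h5
    exact h5
  have h6 : C * m * Real.log m ≤ C * (4 * T) * (2 * Real.log T) := by
    apply mul_le_mul
    · exact mul_le_mul_of_nonneg_left hm2 hC.le
    · exact h4
    · exact Real.log_nonneg (by linarith)
    · positivity
  have hlogT : 1 ≤ Real.log T := by
    rw [Real.le_log_iff_exp_le (by linarith)]
    have := Real.exp_one_lt_d9
    linarith
  have h7 : (NZ 3 : ℝ) ≤ NZ 3 * (T * Real.log T) := by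
    apply le_mul_of_one_le_right (Nat.cast_nonneg _)
    nlinarith
  have e : ((NZ 3 : ℝ) + 8 * C) * (T * Real.log T) =
      NZ 3 * (T * Real.log T) + C * (4 * T) * (2 * Real.log T) := by ring
  rw [e]
  linarith

lemma log_le_half {x : ℝ} (hx : 0 < x) : Real.log x ≤ x / 2 := by
  have h1 := Real.log_le_sub_one_of_pos (show 0 < x / 2 by positivity)
  rw [Real.log_div hx.ne' (by norm_num)] at h1
  have h2 : Real.log 2 ≤ 1 := by
    have := Real.log_le_sub_one_of_pos (show (0 : ℝ) < 2 by norm_num)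
    linarith
  linarith

theorem blocks (P : ℕ → Prop) (ε T0 : ℝ) (hε : 0 < ε)
    (h : ∀ T : ℝ, T0 ≤ T → ε * (T * Real.log T) ≤
      ({n : ℕ | 1 ≤ n ∧ ord n ≤ 3 * T ∧ P n}.ncard : ℝ)) :
    ∃ ε' : ℝ, 0 < ε' ∧ ε' ≤ ε ∧ ∀ᶠ N : ℕ in atTop,
      ε' * N ≤ ({n : ℕ | 1 ≤ n ∧ n ≤ N ∧ P n}.ncard : ℝ) := by
  obtain ⟨C, hC, hup⟩ := NZ_three
  refine ⟨min ε (ε / (2 * C)), lt_min hε (by positivity), min_le_left _ _, ?_⟩
  have hlim : Tendsto (fun N : ℕ => (N : ℝ) / C) atTop atTop :=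
    tendsto_natCast_atTop_atTop.atTop_div_const hC
  set X : ℝ := max (max 4 T0) 1 with hX
  filter_upwards [hlim.eventually_ge_atTop (max 3 ((2 * X) ^ 2))] with N hN
  set y : ℝ := (N : ℝ) / C with hy
  have hy3 : 3 ≤ y := (le_max_left _ _).trans hN
  have hyX : (2 * X) ^ 2 ≤ y := (le_max_right _ _).trans hN
  have hy0 : 0 < y := by linarith
  have hX1 : 1 ≤ X := le_max_right _ _
  have hlogy : 1 ≤ Real.log y := by
    rw [Real.le_log_iff_exp_le hy0]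
    have := Real.exp_one_lt_d9
    linarith
  have hl0 : 0 < Real.log y := by linarith
  set T : ℝ := y / Real.log y with hT
  have hTX : X ≤ T := by
    rw [hT, le_div_iff₀ hl0]
    have h1 : Real.log y ≤ Real.sqrt y := by
      have h2 := log_le_half (Real.sqrt_pos.2 hy0)
      have h3 : Real.log y = 2 * Real.log (Real.sqrt y) := by
        rw [Real.log_sqrt hy0.le]; ring
      linarith
    have h2 : 2 * X ≤ Real.sqrt y := by
      rw [Real.le_sqrt (by positivity) hy0.le]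
      exact hyX
    have h3 : Real.sqrt y * Real.sqrt y = y := Real.mul_self_sqrt hy0.le
    nlinarith [Real.sqrt_nonneg y]
  have hT4 : 4 ≤ T := ((le_max_left _ _).trans (le_max_left _ _)).trans hTX
  have hTT0 : T0 ≤ T := ((le_max_right _ _).trans (le_max_left _ _)).trans hTX
  have hT0 : 0 < T := by linarith
  have hlogT : Real.log T = Real.log y - Real.log (Real.log y) := by
    rw [hT, Real.log_div hy0.ne' hl0.ne']
  have hll : 0 ≤ Real.log (Real.log y) := Real.log_nonneg hlogy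
  have hll2 : Real.log (Real.log y) ≤ Real.log y / 2 := log_le_half hl0
  have h1 : T * Real.log T ≤ y := by
    rw [hlogT]
    calc T * (Real.log y - Real.log (Real.log y)) ≤ T * Real.log y :=
          mul_le_mul_of_nonneg_left (by linarith) hT0.le
      _ = y := by rw [hT]; field_simp
  have h2 : y / 2 ≤ T * Real.log T := by
    rw [hlogT]
    calc y / 2 = T * (Real.log y / 2) := by rw [hT]; field_simp
      _ ≤ T * (Real.log y - Real.log (Real.log y)) :=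
          mul_le_mul_of_nonneg_left (by linarith) hT0.le
  have h3 : (NZ (3 * T) : ℝ) ≤ N := by
    refine (hup T hT4).trans ?_
    calc C * (T * Real.log T) ≤ C * y := mul_le_mul_of_nonneg_left h1 hC.le
      _ = N := by rw [hy]; field_simp
  have h4 : NZ (3 * T) ≤ N := by exact_mod_cast h3
  have hsub : {n : ℕ | 1 ≤ n ∧ ord n ≤ 3 * T ∧ P n} ⊆ {n : ℕ | 1 ≤ n ∧ n ≤ N ∧ P n} := by
    rintro n ⟨g1, g2, g3⟩
    exact ⟨g1, ((SG.ord_le_iff g1 _).mp g2).trans h4, g3⟩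
  have hfin : {n : ℕ | 1 ≤ n ∧ n ≤ N ∧ P n}.Finite :=
    (Set.finite_Iic N).subset fun n hn => hn.2.1
  have hle : ({n : ℕ | 1 ≤ n ∧ ord n ≤ 3 * T ∧ P n}.ncard : ℝ) ≤
      ({n : ℕ | 1 ≤ n ∧ n ≤ N ∧ P n}.ncard : ℝ) := by
    exact_mod_cast Set.ncard_le_ncard hsub hfin
  refine le_trans ?_ ((h T hTT0).trans hle)
  calc min ε (ε / (2 * C)) * (N : ℝ) ≤ ε / (2 * C) * N :=
        mul_le_mul_of_nonneg_right (min_le_right _ _) (Nat.cast_nonneg _)
    _ = ε * (y / 2) := by rw [hy]; field_simp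
    _ ≤ ε * (T * Real.log T) := mul_le_mul_of_nonneg_left h2 hε.le

/-- positive proportion of gaps away from the multiples of `1/θ`, for `0 < θ < 2` -/
theorem lattice (hRH : RiemannHypothesis) (θ : ℝ) (hθ : 0 < θ) (hθ2 : θ < 2) :
    ∃ ε : ℝ, 0 < ε ∧ ∀ᶠ N : ℕ in atTop,
      ε * N ≤ ({n : ℕ | 1 ≤ n ∧ n ≤ N ∧ ∀ k : ℤ, ε ≤ |del n - k / θ|}.ncard : ℝ) := by
  obtain ⟨c, δ, hc, hδ, T0, hT0, h⟩ := almost_delta hRH (θ / 2) θ (by linarith) (by linarith) hθ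
    (by linarith)
  have ev1 : ∀ᶠ T : ℝ in atTop, T ^ (θ / 2) ≤ T / 8 := by
    have h1 : ∀ᶠ T : ℝ in atTop, (8 : ℝ) ≤ T ^ (1 - θ / 2) :=
      (tendsto_rpow_atTop (by linarith)).eventually_ge_atTop _
    filter_upwards [h1, eventually_gt_atTop 0] with T h1 h2
    have h3 : T ^ (θ / 2) * T ^ (1 - θ / 2) = T := by
      rw [← Real.rpow_add h2]
      have : θ / 2 + (1 - θ / 2) = 1 := by ring
      rw [this, Real.rpow_one]
    have h4 : 0 < T ^ (θ / 2) := Real.rpow_pos_of_pos h2 _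
    nlinarith
  obtain ⟨T1, hT1⟩ := ev1.exists_forall_of_atTop
  have key : ∀ T : ℝ, max T0 T1 ≤ T → c / 8 * (T * Real.log T) ≤
      ({n : ℕ | 1 ≤ n ∧ ord n ≤ 3 * T ∧ ∀ k : ℤ, c ≤ |del n - k / θ|}.ncard : ℝ) := by
    intro T hT
    have hTT0 : T0 ≤ T := (le_max_left _ _).trans hT
    have hTT1 := hT1 T ((le_max_right _ _).trans hT)
    have hT100 : 100 ≤ T := hT0.trans hTT0
    have hTpos : 0 < T := by linarith
    have h1 := h T hTT0 (T / 8) hTT1 le_rfl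
    -- a good point exists
    obtain ⟨t, ht1, ht2, ht3⟩ : ∃ t : ℝ, T ≤ t ∧ t ≤ 2 * T ∧ ¬
        (({n : ℕ | 1 ≤ n ∧ t < ord n ∧ ord n ≤ t + T / 8 ∧ ∀ k : ℤ, c ≤ |del n - k / θ|}.ncard : ℝ)
          < c * (T / 8 * Real.log T)) := by
      by_contra hcon
      push Not at hcon
      have h2 : Set.Icc T (2 * T) ⊆ {t : ℝ | T ≤ t ∧ t ≤ 2 * T ∧
        ({n : ℕ | 1 ≤ n ∧ t < ord n ∧ ord n ≤ t + T / 8 ∧
          ∀ k : ℤ, c ≤ |del n - k / θ|}.ncard : ℝ) < c * (T / 8 * Real.log T)} := by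
        intro t ht
        exact ⟨ht.1, ht.2, hcon t ht.1 ht.2⟩
      have h3 := (measure_mono h2).trans h1
      rw [Real.volume_Icc, ENNReal.ofReal_le_ofReal_iff (by positivity)] at h3
      have h4 : T ^ (1 - δ) < T ^ (1 : ℝ) :=
        Real.rpow_lt_rpow_of_exponent_lt (by linarith) (by linarith)
      rw [Real.rpow_one] at h4
      linarith
    push Not at ht3
    have hsub : {n : ℕ | 1 ≤ n ∧ t < ord n ∧ ord n ≤ t + T / 8 ∧ ∀ k : ℤ, c ≤ |del n - k / θ|} ⊆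
        {n : ℕ | 1 ≤ n ∧ ord n ≤ 3 * T ∧ ∀ k : ℤ, c ≤ |del n - k / θ|} := by
      rintro n ⟨g1, g2, g3, g4⟩
      exact ⟨g1, by linarith, g4⟩
    have hfin : {n : ℕ | 1 ≤ n ∧ ord n ≤ 3 * T ∧ ∀ k : ℤ, c ≤ |del n - k / θ|}.Finite := by
      refine (Set.finite_Iic (NZ (3 * T))).subset ?_
      rintro n ⟨g1, g2, g3⟩
      exact (SG.ord_le_iff g1 _).mp g2
    have hle : ({n : ℕ | 1 ≤ n ∧ t < ord n ∧ ord n ≤ t + T / 8 ∧
        ∀ k : ℤ, c ≤ |del n - k / θ|}.ncard : ℝ) ≤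
        ({n : ℕ | 1 ≤ n ∧ ord n ≤ 3 * T ∧ ∀ k : ℤ, c ≤ |del n - k / θ|}.ncard : ℝ) := by
      exact_mod_cast Set.ncard_le_ncard hsub hfin
    calc c / 8 * (T * Real.log T) = c * (T / 8 * Real.log T) := by ring
      _ ≤ _ := ht3.trans hle
  obtain ⟨ε', hε', hεc, hN⟩ := blocks (fun n => ∀ k : ℤ, c ≤ |del n - k / θ|) (c / 8) (max T0 T1)
    (by positivity) key
  refine ⟨ε', hε', ?_⟩
  filter_upwards [hN] with N hN
  refine hN.trans ?_
  have hfin : {n : ℕ | 1 ≤ n ∧ n ≤ N ∧ ∀ k : ℤ, ε' ≤ |del n - k / θ|}.Finite :=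
    (Set.finite_Iic N).subset fun n hn => hn.2.1
  have hsub : {n : ℕ | 1 ≤ n ∧ n ≤ N ∧ ∀ k : ℤ, c ≤ |del n - k / θ|} ⊆
      {n : ℕ | 1 ≤ n ∧ n ≤ N ∧ ∀ k : ℤ, ε' ≤ |del n - k / θ|} := by
    rintro n ⟨g1, g2, g3⟩
    exact ⟨g1, g2, fun k => le_trans (by linarith) (g3 k)⟩
  exact_mod_cast Set.ncard_le_ncard hsub hfin

end H177.Lat
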