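import Pool.Agent.H177R3.CosA3

/-! Modulated exponential sums over an increasing sequence, bounded discrepancy modulations. -/

open Complex Filter Topology Set MeasureTheory
open scoped FourierTransform

namespace H177.Lat

/-- the kernel sum as a mean square, general phases -/
lemma kernel_eq2 (I : Finset ℕ) (y ψ : ℕ → ℝ) {e : ℝ} (he : 0 < e) (τ : ℝ) :
    ∑ n ∈ I, ∑ n' ∈ I, KK e (y n - y n') *
      Real.cos (2 * Real.pi * ((ψ n - ψ n') - τ * (y n - y n'))) =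
    ∫ u, tri e u * ‖∑ n ∈ I, ee (ψ n + (u - τ) * y n)‖ ^ 2 := by
  have h1 : ∀ u : ℝ, tri e u * ‖∑ n ∈ I, ee (ψ n + (u - τ) * y n)‖ ^ 2 =
      ∑ n ∈ I, ∑ n' ∈ I, (Real.cos (2 * Real.pi * ((ψ n - ψ n') - τ * (y n - y n'))) *
        (tri e u * Real.cos (2 * Real.pi * u * (y n - y n'))) -
        Real.sin (2 * Real.pi * ((ψ n - ψ n') - τ * (y n - y n'))) *
        (tri e u * Real.sin (2 * Real.pi * u * (y n - y n')))) := by
    intro u
    rw [sq_sum, Finset.mul_sum]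
    refine Finset.sum_congr rfl fun n _ => ?_
    rw [Finset.mul_sum]
    refine Finset.sum_congr rfl fun n' _ => ?_
    have : 2 * Real.pi * (ψ n + (u - τ) * y n - (ψ n' + (u - τ) * y n')) =
        2 * Real.pi * ((ψ n - ψ n') - τ * (y n - y n')) +
        2 * Real.pi * u * (y n - y n') := by ring
    rw [this, Real.cos_add]
    ring
  simp_rw [h1]
  rw [integral_finsetSum]
  · refine Finset.sum_congr rfl fun n _ => ?_
    rw [integral_finsetSum]
    · refine Finset.sum_congr rfl fun n' _ => ?_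
      rw [integral_sub ((tri_integrable he (by fun_prop)).const_mul _)
        ((tri_integrable he (by fun_prop)).const_mul _), integral_const_mul, integral_const_mul,
        tri_sin, mul_zero, sub_zero]
      unfold KK
      ring
    · intro n' _
      exact ((tri_integrable he (by fun_prop)).const_mul _).sub
        ((tri_integrable he (by fun_prop)).const_mul _)
  · intro n _
    refine integrable_finsetSum _ fun n' _ => ?_
    exact ((tri_integrable he (by fun_prop)).const_mul _).sub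
      ((tri_integrable he (by fun_prop)).const_mul _)

/-- the step function -/
noncomputable def stq (c : ℕ → ℂ) (Y : ℕ → ℝ) (m : ℕ) (t : ℝ) : ℂ :=
  ∑ i ∈ Finset.range m, (Set.Ioc (Y i) (Y (i + 1))).indicator (fun _ => c i) t

lemma stq_norm (c : ℕ → ℂ) (B : ℝ) (hc : ∀ i, ‖c i‖ ≤ B) (Y : ℕ → ℝ) (hY : Monotone Y)
    (m : ℕ) (t : ℝ) :
    ‖stq c Y m t‖ ≤ B * (Set.Ioc (Y 0) (Y m)).indicator (fun _ => (1 : ℝ)) t := by
  rw [← ind_sum Y hY, Finset.mul_sum]
  unfold stq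
  refine (norm_sum_le _ _).trans (Finset.sum_le_sum fun i _ => ?_)
  by_cases h : t ∈ Set.Ioc (Y i) (Y (i + 1))
  · rw [Set.indicator_of_mem h, Set.indicator_of_mem h, mul_one]; exact hc i
  · rw [Set.indicator_of_notMem h, Set.indicator_of_notMem h, norm_zero, mul_zero]

lemma stq_meas (c : ℕ → ℂ) (Y : ℕ → ℝ) (m : ℕ) : Measurable (stq c Y m) := by
  unfold stq
  refine Finset.measurable_sum _ fun i _ => ?_
  exact measurable_const.indicator measurableSet_Ioc

lemma stq_four (c : ℕ → ℂ) (Y : ℕ → ℝ) (hY : Monotone Y) (m : ℕ) (u : ℝ) :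
    ∑ i ∈ Finset.range m, c i * (ee (u * Y (i + 1)) - ee (u * Y i)) =
      (((2 * Real.pi * u : ℝ) : ℂ) * I) * 𝓕 (stq c Y m) (-u) := by
  have h1 : 𝓕 (stq c Y m) (-u) = ∑ i ∈ Finset.range m,
      c i * ∫ v in (Y i)..(Y (i + 1)), ee (u * v) := by
    rw [Real.fourier_real_eq_integral_exp_smul]
    have h2 : ∀ v : ℝ, Complex.exp (↑(-2 * Real.pi * v * -u) * I) • stq c Y m v =
        ∑ i ∈ Finset.range m, (Set.Ioc (Y i) (Y (i + 1))).indicator
          (fun v => c i * ee (u * v)) v := by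
      intro v
      have e1 : Complex.exp (↑(-2 * Real.pi * v * -u) * I) = ee (u * v) := by
        unfold ee
        congr 2
        push_cast; ring
      rw [e1, smul_eq_mul]
      unfold stq
      rw [Finset.mul_sum]
      refine Finset.sum_congr rfl fun i _ => ?_
      by_cases h : v ∈ Set.Ioc (Y i) (Y (i + 1))
      · rw [Set.indicator_of_mem h, Set.indicator_of_mem h]; ring
      · rw [Set.indicator_of_notMem h, Set.indicator_of_notMem h, mul_zero]
    simp_rw [h2]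
    have hc : Continuous fun v : ℝ => ee (u * v) := ee_cont (by fun_prop)
    rw [integral_finsetSum]
    · refine Finset.sum_congr rfl fun i _ => ?_
      rw [integral_indicator measurableSet_Ioc, integral_const_mul,
        intervalIntegral.integral_of_le (hY (Nat.le_succ i))]
    · intro i _
      rw [integrable_indicator_iff measurableSet_Ioc]
      exact ((continuous_const.mul hc).integrableOn_Icc (a := Y i) (b := Y (i + 1))).mono_set
        Set.Ioc_subset_Icc_self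
  rw [h1, Finset.mul_sum]
  refine Finset.sum_congr rfl fun i _ => ?_
  rw [← ee_ftc]
  ring

lemma fourq_sq (c : ℕ → ℂ) (B : ℝ) (hB : 0 ≤ B) (hc : ∀ i, ‖c i‖ ≤ B) (Y : ℕ → ℝ)
    (hY : Monotone Y) (m : ℕ) :
    Integrable (fun u : ℝ => ‖𝓕 (stq c Y m) u‖ ^ 2) ∧
      ∫ u, ‖𝓕 (stq c Y m) u‖ ^ 2 ≤ B ^ 2 * (Y m - Y 0) := by
  have hbd := stq_norm c B hc Y hY m
  have hint : Integrable (stq c Y m) := ((ind_int (Y 0) (Y m)).const_mul B).mono'
    (stq_meas c Y m).aestronglyMeasurable (Filter.Eventually.of_forall hbd)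
  have hmem : MemLp (stq c Y m) 2 :=
    ((memLp_indicator_const 2 (measurableSet_Ioc (a := Y 0) (b := Y m)) (1 : ℝ)
      (Or.inr measure_Ioc_lt_top.ne)).const_mul B).mono' (stq_meas c Y m).aestronglyMeasurable
      (Filter.Eventually.of_forall hbd)
  have hpl := Pool.Agent.Helper76.NormalHP.plancherel_lintegral (stq c Y m) hint hmem
  have hle : ∫⁻ t, ‖stq c Y m t‖ₑ ^ 2 ≤ ENNReal.ofReal (B ^ 2 * (Y m - Y 0)) := by
    have h1 : ∀ t, ‖stq c Y m t‖ₑ ^ 2 ≤
        (Set.Ioc (Y 0) (Y m)).indicator (fun _ => ENNReal.ofReal (B ^ 2)) t := by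
      intro t
      have h2 := hbd t
      by_cases h : t ∈ Set.Ioc (Y 0) (Y m)
      · rw [Set.indicator_of_mem h, mul_one] at h2
        rw [Set.indicator_of_mem h, ENNReal.ofReal_pow hB]
        have h3 : ‖stq c Y m t‖ₑ ≤ ENNReal.ofReal B := by
          rw [← ofReal_norm]
          exact ENNReal.ofReal_le_ofReal h2
        gcongr
      · rw [Set.indicator_of_notMem h, mul_zero] at h2
        rw [Set.indicator_of_notMem h]
        have h3 : stq c Y m t = 0 := norm_le_zero_iff.1 h2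
        rw [h3]; simp
    refine (lintegral_mono h1).trans ?_
    rw [lintegral_indicator measurableSet_Ioc, setLIntegral_const, Real.volume_Ioc,
      ← ENNReal.ofReal_mul (by positivity)]
  rw [← hpl] at hle
  have hcont : Continuous (𝓕 (stq c Y m)) := by
    exact VectorFourier.fourierIntegral_continuous Real.continuous_fourierChar
      continuous_inner hint
  have heq : ∀ u : ℝ, ENNReal.ofReal (‖𝓕 (stq c Y m) u‖ ^ 2) = ‖𝓕 (stq c Y m) u‖ₑ ^ 2 := by
    intro u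
    rw [ENNReal.ofReal_pow (norm_nonneg _), ofReal_norm]
  have hfin : ∫⁻ u, ENNReal.ofReal (‖𝓕 (stq c Y m) u‖ ^ 2) < ⊤ := by
    simp_rw [heq]
    exact hle.trans_lt ENNReal.ofReal_lt_top
  have hI : Integrable (fun u : ℝ => ‖𝓕 (stq c Y m) u‖ ^ 2) := by
    refine ⟨(hcont.norm.pow 2).aestronglyMeasurable, ?_⟩
    rw [hasFiniteIntegral_iff_ofReal (Filter.Eventually.of_forall fun u => by positivity)]
    exact hfin
  refine ⟨hI, ?_⟩
  rw [integral_eq_lintegral_of_nonneg_ae (Filter.Eventually.of_forall fun u => by positivity)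
    hI.aestronglyMeasurable]
  simp_rw [heq]
  have h0 : 0 ≤ B ^ 2 * (Y m - Y 0) := by
    have := sub_nonneg.2 (hY (Nat.zero_le m))
    positivity
  exact ENNReal.toReal_le_of_le_ofReal h0 hle

/-- pointwise bound for the part with bounded partial sums -/
lemma Q_bound (Q : ℕ → ℂ) (B : ℝ) (hQ : ∀ i, ‖Q i‖ ≤ B) (Y : ℕ → ℝ) (hY : Monotone Y)
    (m : ℕ) (u : ℝ) :
    ‖∑ i ∈ Finset.range (m + 1), (Q (i + 1) - Q i) * ee (u * Y i)‖ ^ 2 ≤
      6 * B ^ 2 + 3 * ((2 * Real.pi * u) ^ 2 * ‖𝓕 (stq (fun i => Q (i + 1)) Y m) (-u)‖ ^ 2) := by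
  have h1 := abel Q (fun i => ee (u * Y i)) m
  have h3 := stq_four (fun i => Q (i + 1)) Y hY m u
  rw [h3] at h1
  rw [h1]
  have hB : 0 ≤ B := (norm_nonneg _).trans (hQ 0)
  have h4 : ∀ p q r : ℂ, ‖p‖ ≤ B → ‖q‖ ≤ B → ‖p - q - r‖ ^ 2 ≤ 6 * B ^ 2 + 3 * ‖r‖ ^ 2 := by
    intro p q r hp hq
    have h5 : ‖p - q - r‖ ≤ ‖p‖ + ‖q‖ + ‖r‖ :=
      (norm_sub_le _ _).trans (by linarith [norm_sub_le p q])
    have h6 : ‖p - q - r‖ ^ 2 ≤ (B + B + ‖r‖) ^ 2 := by
      apply pow_le_pow_left₀ (norm_nonneg _)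
      linarith
    nlinarith [sq_nonneg (‖r‖ - B)]
  refine (h4 _ _ _ ?_ ?_).trans (le_of_eq ?_)
  · rw [norm_mul, ee_norm, mul_one]; exact hQ _
  · rw [norm_mul, ee_norm, mul_one]; exact hQ _
  · rw [norm_mul, norm_mul, Complex.norm_I, mul_one, Complex.norm_real, Real.norm_eq_abs, mul_pow,
      sq_abs]

/-- the modulated sum is small -/
theorem modulated (a b : ℕ) (hab : a < b) (y ψ : ℕ → ℝ)
    (hy : ∀ n ∈ Finset.Ioc a b, ∀ m ∈ Finset.Ioc a b, n ≤ m → y n ≤ y m)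
    (Q : ℕ → ℂ) (B : ℝ) (m0 : ℂ) (hQ : ∀ n, ‖Q n‖ ≤ B) (hP : ∀ n, ee (ψ n) = m0 + (Q (n + 1) - Q n))
    {e : ℝ} (he : 0 < e) (τ : ℝ) :
    ∑ n ∈ Finset.Ioc a b, ∑ n' ∈ Finset.Ioc a b, KK e (y n - y n') *
      Real.cos (2 * Real.pi * ((ψ n - ψ n') - τ * (y n - y n'))) ≤
    2 * ‖m0‖ ^ 2 * ∑ n ∈ Finset.Ioc a b, ∑ n' ∈ Finset.Ioc a b, KK e (y n - y n') *
      Real.cos (2 * Real.pi * τ * (y n - y n')) +
    (12 * B ^ 2 * e + 24 * Real.pi ^ 2 * (e + |τ|) ^ 2 * (B ^ 2 * (y b - y (a + 1)))) := by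
  have hB : 0 ≤ B := (norm_nonneg _).trans (hQ 0)
  set m := b - (a + 1) with hm
  set Y : ℕ → ℝ := fun i => y (min (a + 1 + i) b) with hYdef
  have hY : Monotone Y := by
    intro i j hij
    simp only [hYdef]
    apply hy
    · rw [Finset.mem_Ioc]; omega
    · rw [Finset.mem_Ioc]; omega
    · omega
  have hY0 : Y 0 = y (a + 1) := by
    simp only [hYdef]; congr 1; omega
  have hYm : Y m = y b := by
    simp only [hYdef]; congr 1; omega
  have hI : Finset.Ioc a b = Finset.Ico (a + 1) (a + 1 + (m + 1)) := by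
    ext k; rw [Finset.mem_Ioc, Finset.mem_Ico]; omega
  set Q' : ℕ → ℂ := fun i => Q (a + 1 + i) with hQ'
  have hsplit : ∀ w : ℝ, ∑ n ∈ Finset.Ioc a b, ee (ψ n + w * y n) =
      m0 * ∑ n ∈ Finset.Ioc a b, ee (w * y n) +
      ∑ i ∈ Finset.range (m + 1), (Q' (i + 1) - Q' i) * ee (w * Y i) := by
    intro w
    have h1 : ∑ n ∈ Finset.Ioc a b, (Q (n + 1) - Q n) * ee (w * y n) =
        ∑ i ∈ Finset.range (m + 1), (Q' (i + 1) - Q' i) * ee (w * Y i) := by
      rw [hI, Finset.sum_Ico_eq_sum_range]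
      have e1 : a + 1 + (m + 1) - (a + 1) = m + 1 := by omega
      rw [e1]
      refine Finset.sum_congr rfl fun i hi => ?_
      rw [Finset.mem_range] at hi
      have e2 : Y i = y (a + 1 + i) := by
        simp only [hYdef]; congr 1; omega
      rw [e2]
      rfl
    rw [← h1, Finset.mul_sum, ← Finset.sum_add_distrib]
    refine Finset.sum_congr rfl fun n _ => ?_
    rw [ee_add, hP n]
    ring
  obtain ⟨hint, hle⟩ := fourq_sq (fun i => Q' (i + 1)) B hB (fun i => hQ _) Y hY m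
  set F : ℝ → ℝ := fun u => ‖𝓕 (stq (fun i => Q' (i + 1)) Y m) u‖ ^ 2 with hF
  have hpt : ∀ u : ℝ, tri e u * ‖∑ n ∈ Finset.Ioc a b, ee (ψ n + (u - τ) * y n)‖ ^ 2 ≤
      2 * ‖m0‖ ^ 2 * (tri e u * ‖∑ n ∈ Finset.Ioc a b, ee (0 + (u - τ) * y n)‖ ^ 2) +
      (12 * B ^ 2 * (tri e u * Real.cos (2 * Real.pi * u * 0)) +
        24 * Real.pi ^ 2 * (e + |τ|) ^ 2 * F (τ - u)) := by
    intro u
    rw [hsplit, mul_zero, Real.cos_zero, mul_one]
    simp only [zero_add]
    have h1 := Q_bound Q' B (fun i => hQ _) Y hY m (u - τ)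
    have e1 : -(u - τ) = τ - u := by ring
    rw [e1] at h1
    have hF0 : 0 ≤ F (τ - u) := by simp only [hF]; positivity
    have hFF : ‖𝓕 (stq (fun i => Q' (i + 1)) Y m) (τ - u)‖ ^ 2 = F (τ - u) := rfl
    rw [hFF] at h1
    have ht0 := tri_nonneg e u
    have ht1 := tri_le_one he u
    set Z1 := m0 * ∑ n ∈ Finset.Ioc a b, ee ((u - τ) * y n) with hZ1
    set Z2 := ∑ i ∈ Finset.range (m + 1), (Q' (i + 1) - Q' i) * ee ((u - τ) * Y i) with hZ2
    have hZ : ‖Z1 + Z2‖ ^ 2 ≤ 2 * ‖Z1‖ ^ 2 + 2 * ‖Z2‖ ^ 2 := by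
      have h5 := norm_add_le Z1 Z2
      have h6 : ‖Z1 + Z2‖ ^ 2 ≤ (‖Z1‖ + ‖Z2‖) ^ 2 := pow_le_pow_left₀ (norm_nonneg _) h5 2
      nlinarith [sq_nonneg (‖Z1‖ - ‖Z2‖)]
    have hZ1' : ‖Z1‖ ^ 2 = ‖m0‖ ^ 2 * ‖∑ n ∈ Finset.Ioc a b, ee ((u - τ) * y n)‖ ^ 2 := by
      rw [hZ1, norm_mul, mul_pow]
    have hmain : tri e u * (2 * ‖Z2‖ ^ 2) ≤ 12 * B ^ 2 * tri e u +
        24 * Real.pi ^ 2 * (e + |τ|) ^ 2 * F (τ - u) := by
      rcases le_or_gt e |u| with h | h
      · rw [tri_zero he h]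
        have : 0 ≤ 24 * Real.pi ^ 2 * (e + |τ|) ^ 2 * F (τ - u) := by positivity
        simpa using this
      · have h2 : (2 * Real.pi * (u - τ)) ^ 2 ≤ 4 * Real.pi ^ 2 * (e + |τ|) ^ 2 := by
          have h3 : |u - τ| ≤ e + |τ| := (abs_sub _ _).trans (by linarith)
          have h4 : (u - τ) ^ 2 ≤ (e + |τ|) ^ 2 := by
            rw [← sq_abs (u - τ)]
            exact pow_le_pow_left₀ (abs_nonneg _) h3 2
          have h5 : (0 : ℝ) ≤ 4 * Real.pi ^ 2 := by positivity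
          nlinarith
        calc tri e u * (2 * ‖Z2‖ ^ 2)
            ≤ tri e u * (2 * (6 * B ^ 2 + 3 * ((2 * Real.pi * (u - τ)) ^ 2 * F (τ - u)))) := by
              gcongr
          _ ≤ tri e u * (2 * (6 * B ^ 2 + 3 * ((4 * Real.pi ^ 2 * (e + |τ|) ^ 2) * F (τ - u)))) := by
              gcongr
          _ = 12 * B ^ 2 * tri e u +
              tri e u * (24 * Real.pi ^ 2 * (e + |τ|) ^ 2 * F (τ - u)) := by ring
          _ ≤ 12 * B ^ 2 * tri e u +
              1 * (24 * Real.pi ^ 2 * (e + |τ|) ^ 2 * F (τ - u)) := by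
              gcongr
          _ = _ := by ring
    calc tri e u * ‖Z1 + Z2‖ ^ 2 ≤ tri e u * (2 * ‖Z1‖ ^ 2 + 2 * ‖Z2‖ ^ 2) :=
          mul_le_mul_of_nonneg_left hZ ht0
      _ = 2 * ‖m0‖ ^ 2 * (tri e u * ‖∑ n ∈ Finset.Ioc a b, ee ((u - τ) * y n)‖ ^ 2) +
          tri e u * (2 * ‖Z2‖ ^ 2) := by rw [hZ1']; ring
      _ ≤ _ := by linarith
  have hcontA : ∀ ψ : ℕ → ℝ, Continuous fun u : ℝ =>
      ‖∑ n ∈ Finset.Ioc a b, ee (ψ n + (u - τ) * y n)‖ ^ 2 := by
    intro ψ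
    apply Continuous.pow
    apply Continuous.norm
    exact continuous_finsetSum _ fun n _ => ee_cont (by fun_prop)
  have hzero := kernel_eq2 (Finset.Ioc a b) y (fun _ => 0) he τ
  have hzero' : ∑ n ∈ Finset.Ioc a b, ∑ n' ∈ Finset.Ioc a b, KK e (y n - y n') *
      Real.cos (2 * Real.pi * τ * (y n - y n')) =
      ∫ u, tri e u * ‖∑ n ∈ Finset.Ioc a b, ee (0 + (u - τ) * y n)‖ ^ 2 := by
    rw [← hzero]
    refine Finset.sum_congr rfl fun n _ => Finset.sum_congr rfl fun n' _ => ?_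
    congr 1
    rw [← Real.cos_neg]
    congr 1
    ring
  rw [kernel_eq2 (Finset.Ioc a b) y ψ he τ, hzero']
  have hi2 : Integrable fun u : ℝ => F (τ - u) := hint.comp_sub_left τ
  have hi0 := (tri_integrable he (g := fun u => Real.cos (2 * Real.pi * u * 0))
    (by fun_prop)).const_mul (12 * B ^ 2)
  have hi1 := (tri_integrable he (hcontA (fun _ => 0))).const_mul (2 * ‖m0‖ ^ 2)
  have hi3 := hi2.const_mul (24 * Real.pi ^ 2 * (e + |τ|) ^ 2)
  have hi4 : Integrable fun u : ℝ => 12 * B ^ 2 * (tri e u * Real.cos (2 * Real.pi * u * 0)) +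
      24 * Real.pi ^ 2 * (e + |τ|) ^ 2 * F (τ - u) := hi0.add hi3
  refine (integral_mono (tri_integrable he (hcontA ψ)) (hi1.add hi4) hpt).trans ?_
  simp only [Pi.add_apply]
  rw [integral_add hi1 hi4, integral_add hi0 hi3, integral_const_mul, integral_const_mul,
    integral_const_mul]
  have h8 : ∫ u, tri e u * Real.cos (2 * Real.pi * u * 0) = e := KK_zero he
  have h9 : ∫ u, F (τ - u) = ∫ u, F u := integral_sub_left_eq_self F volume τ
  rw [h8, h9]
  rw [hY0, hYm] at hle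
  have h10 : 0 ≤ 24 * Real.pi ^ 2 * (e + |τ|) ^ 2 := by positivity
  have h11 := mul_le_mul_of_nonneg_left hle h10
  linarith

end H177.Lat
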