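import Pool.Agent.H177R3.PerC

/-! Exclusion of periodic patterns. -/

open Complex Filter Topology Set MeasureTheory

namespace H177.Lat

open H370 hiding PP
open H370.A3 SP H370.A2
open SG (ord NZ zmult ZS)

lemma ee_add' (x y : ℝ) : ee (x + y) = ee x * ee y := by
  unfold ee
  rw [← Complex.exp_add]
  congr 1
  push_cast
  ring

lemma ee_norm' (x : ℝ) : ‖ee x‖ = 1 := by
  have h : ee x = Complex.exp (((2 * Real.pi * x : ℝ) : ℂ) * I) := by
    unfold ee
    congr 1
  rw [h, Complex.norm_exp_ofReal_mul_I]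

lemma sq_add (α : ℕ → ℝ) (K : ℕ) (hα : ∀ n, α (n + K) = α n) (n : ℕ) :
    sq α (n + K) = sq α n + sq α K := by
  unfold sq
  induction n with
  | zero => simp
  | succ n ih =>
    have h1 : n + 1 + K = (n + K) + 1 := by omega
    rw [h1, Finset.sum_range_succ, ih, hα n, Finset.sum_range_succ]
    ring

/-- a periodic pattern has bounded discrepancy -/
theorem exists_Q (θ : ℝ) (α : ℕ → ℝ) (K : ℕ) (hK : 1 ≤ K) (hα : ∀ n, α (n + K) = α n) :
    ∃ (Q : ℕ → ℂ) (B : ℝ) (m0 : ℂ), (∀ n, ‖Q n‖ ≤ B) ∧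
      ∀ n, ee (θ * sq α n) = m0 + (Q (n + 1) - Q n) := by
  set P : ℕ → ℂ := fun n => ee (θ * sq α n) with hP
  set l : ℂ := ee (θ * sq α K) with hl
  have hPn : ∀ n, ‖P n‖ = 1 := fun n => ee_norm' _
  have hPK : ∀ n, P (n + K) = l * P n := by
    intro n
    simp only [hP, hl]
    rw [sq_add α K hα n, mul_add, ee_add', mul_comm]
  by_cases h1 : l = 1
  · -- the sequence `P` is periodic
    have hper : ∀ n, P (n + K) = P n := fun n => by rw [hPK, h1, one_mul]
    have hconst : ∀ n, ∑ i ∈ Finset.range K, P (n + i) = ∑ i ∈ Finset.range K, P i := by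
      intro n
      induction n with
      | zero => simp
      | succ n ih =>
        rw [← ih]
        have h2 := Finset.sum_range_succ (fun i => P (n + i)) K
        have h3 := Finset.sum_range_succ' (fun i => P (n + i)) K
        rw [h3] at h2
        simp only [add_zero] at h2
        rw [hper n] at h2
        have h4 : ∑ i ∈ Finset.range K, P (n + 1 + i) = ∑ i ∈ Finset.range K, P (n + (i + 1)) :=
          Finset.sum_congr rfl fun i _ => by congr 1; omega
        rw [h4]
        exact add_right_cancel h2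
    have hK0 : (K : ℂ) ≠ 0 := by
      have : K ≠ 0 := by omega
      exact_mod_cast this
    refine ⟨fun n => (1 / (K : ℂ)) * ∑ i ∈ Finset.range K, (i : ℂ) * P (n + i),
      ‖(1 / (K : ℂ))‖ * ∑ i ∈ Finset.range K, (i : ℝ),
      (1 / (K : ℂ)) * ∑ i ∈ Finset.range K, P i, fun n => ?_, fun n => ?_⟩
    · rw [norm_mul]
      refine mul_le_mul_of_nonneg_left ((norm_sum_le _ _).trans ?_) (norm_nonneg _)
      refine Finset.sum_le_sum fun i _ => ?_
      rw [norm_mul, hPn, mul_one, Complex.norm_natCast]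
    · have e1 : ∑ i ∈ Finset.range K, (i : ℂ) * P (n + 1 + i) =
          ∑ i ∈ Finset.range K, (((i + 1 : ℕ) : ℂ) * P (n + (i + 1)) - P (n + 1 + i)) := by
        refine Finset.sum_congr rfl fun i _ => ?_
        have h5 : n + (i + 1) = n + 1 + i := by omega
        rw [h5]
        push_cast
        ring
      have e2 : ∑ i ∈ Finset.range K, (((i + 1 : ℕ) : ℂ) * P (n + (i + 1))) =
          ∑ i ∈ Finset.range K, (i : ℂ) * P (n + i) + (K : ℂ) * P n := by
        have h2 := Finset.sum_range_succ (fun i => (i : ℂ) * P (n + i)) K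
        have h3 := Finset.sum_range_succ' (fun i => ((i : ℕ) : ℂ) * P (n + i)) K
        rw [h3] at h2
        simp only [Nat.cast_zero, zero_mul, add_zero] at h2
        rw [hper n] at h2
        exact h2
      have e3 : P n = (1 / (K : ℂ)) * ((K : ℂ) * P n) := by
        field_simp
      have e4 := hconst (n + 1)
      change P n = 1 / (K : ℂ) * ∑ i ∈ Finset.range K, P i +
        (1 / (K : ℂ) * ∑ i ∈ Finset.range K, (i : ℂ) * P (n + 1 + i) -
          1 / (K : ℂ) * ∑ i ∈ Finset.range K, (i : ℂ) * P (n + i))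
      rw [e1, Finset.sum_sub_distrib, e2, e4]
      rw [← mul_sub, ← mul_add]
      have e5 : ∑ i ∈ Finset.range K, P i +
          (∑ i ∈ Finset.range K, (i : ℂ) * P (n + i) + (K : ℂ) * P n -
            ∑ i ∈ Finset.range K, P i - ∑ i ∈ Finset.range K, (i : ℂ) * P (n + i)) =
          (K : ℂ) * P n := by ring
      rw [e5]
      exact e3
  · have hl0 : l - 1 ≠ 0 := sub_ne_zero.2 h1
    refine ⟨fun n => (l - 1)⁻¹ * ∑ i ∈ Finset.range K, P (n + i),
      ‖(l - 1)⁻¹‖ * K, 0, fun n => ?_, fun n => ?_⟩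
    · rw [norm_mul]
      refine mul_le_mul_of_nonneg_left ((norm_sum_le _ _).trans ?_) (norm_nonneg _)
      rw [Finset.sum_congr rfl (fun i _ => hPn (n + i)), Finset.sum_const, Finset.card_range,
        nsmul_eq_mul, mul_one]
    · have h2 := Finset.sum_range_succ (fun i => P (n + i)) K
      have h3 := Finset.sum_range_succ' (fun i => P (n + i)) K
      rw [h3] at h2
      simp only [add_zero] at h2
      rw [hPK n] at h2
      have h4 : ∑ i ∈ Finset.range K, P (n + 1 + i) = ∑ i ∈ Finset.range K, P (n + (i + 1)) :=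
        Finset.sum_congr rfl fun i _ => by congr 1; omega
      change P n = 0 + ((l - 1)⁻¹ * ∑ i ∈ Finset.range K, P (n + 1 + i) -
        (l - 1)⁻¹ * ∑ i ∈ Finset.range K, P (n + i))
      rw [← mul_sub, zero_add, h4]
      have h5 : ∑ i ∈ Finset.range K, P (n + (i + 1)) - ∑ i ∈ Finset.range K, P (n + i) =
          (l - 1) * P n := by linear_combination h2
      rw [h5, ← mul_assoc, inv_mul_cancel₀ hl0, one_mul]

theorem periodic_one (hRH : RiemannHypothesis) (θ : ℝ) (α : ℕ → ℝ) (hθ : 0 < θ) (hθ1 : θ ≤ 1)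
    (K : ℕ) (hK : 1 ≤ K) (hα : ∀ n, α (n + K) = α n) :
    ∃ ε : ℝ, 0 < ε ∧ ∀ᶠ N : ℕ in atTop,
      ε * N ≤ ({n : ℕ | 1 ≤ n ∧ n ≤ N ∧ ∀ k : ℤ, ε ≤ |del n - α n - k / θ|}.ncard : ℝ) := by
  obtain ⟨Q, B, m0, hQ, hQP⟩ := exists_Q θ α K hK hα
  exact pattern_one hRH θ α hθ hθ1 Q B m0 hQ hQP

end H177.Lat
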